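import Mathlib
import Pool.Agent.Work.MP_9d1ffa_al.Ga.Zc

-- merged part: Pool.Agent.Work.MP_9d1ffa_al.Cu.Df
section
/-! Posets of half spaces, their points and the chain metric. -/

namespace Pool.Agent.Work.MP_9d1ffa_al.Cu

open Set

/-- half spaces: a poset with an order reversing involution and a base orientation, discrete and
of finite dimension -/
class Poc (H : Type) extends PartialOrder H where
  st : H → H
  st_st : ∀ h, st (st h) = h
  st_le : ∀ {h k}, h ≤ k → st k ≤ st h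
  ori : H → Prop
  ori_st : ∀ h, ori (st h) ↔ ¬ ori h
  ori_le : ∀ {h k}, h ≤ k → ori h → ori k
  dcc : ∀ h, {k | k < h ∧ ori k}.Finite
  dm : ℕ
  dim : ∀ s : Finset H, (∀ h ∈ s, ∀ k ∈ s, ¬ h < k ∧ ¬ h < st k ∧ ¬ st h < k) → s.card ≤ dm

export Poc (st st_st st_le ori ori_st ori_le dcc dm)

/-- an action on the half spaces -/
class PocAct (G H : Type) [Group G] [Poc H] extends MulAction G H where
  smul_le : ∀ (g : G) {h k : H}, h ≤ k → g • h ≤ g • k
  smul_st : ∀ (g : G) (h : H), g • st h = st (g • h)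
  smul_ori : ∀ g : G, {h : H | ori (g • h) ∧ ¬ ori h}.Finite

variable {H : Type} [Poc H]

theorem st_inj : Function.Injective (st : H → H) := Function.LeftInverse.injective st_st

theorem st_lt {h k : H} (e : h < k) : st k < st h :=
  lt_of_le_of_ne (st_le e.le) fun c => e.ne' (st_inj c)

theorem lt_st {h k : H} (e : h < st k) : k < st h := by simpa only [st_st] using st_lt e

theorem st_lt' {h k : H} (e : st h < k) : st k < h := by simpa only [st_st] using st_lt e

/-- points: fractional orientations -/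
@[ext] structure Pt (H : Type) [Poc H] where
  f : H → ℝ
  nn : ∀ h, 0 ≤ f h
  cp : ∀ h, f (st h) = 1 - f h
  con : ∀ {k h}, k < h → f k = 0 ∨ f h = 1
  fin : {h | 0 < f h ∧ ¬ ori h}.Finite

theorem Pt.le1 (x : Pt H) (h : H) : x.f h ≤ 1 := by linarith [x.nn (st h), x.cp h]

theorem Pt.up (x : Pt H) {k h : H} (e : k < h) (p : 0 < x.f k) : x.f h = 1 :=
  (x.con e).resolve_left p.ne'

theorem Pt.dn (x : Pt H) {k h : H} (e : k < h) (p : x.f h < 1) : x.f k = 0 :=
  (x.con e).resolve_right p.ne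

theorem Pt.fin' (x : Pt H) : {h | x.f h < 1 ∧ ori h}.Finite :=
  (x.fin.preimage st_inj.injOn).subset fun h a =>
    ⟨by rw [x.cp]; linarith [a.1], by rw [ori_st]; exact not_not.2 a.2⟩

theorem Pt.fin_lt (x y : Pt H) : {h | y.f h < x.f h}.Finite :=
  (x.fin.union y.fin').subset fun h a => by
    by_cases e : ori h
    · exact Or.inr ⟨lt_of_lt_of_le a (x.le1 h), e⟩
    · exact Or.inl ⟨lt_of_le_of_lt (y.nn h) a, e⟩

theorem Pt.fin_bel (x : Pt H) (h : H) : {k | k ∈ Iio h ∧ 0 < x.f k}.Finite :=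
  ((dcc h).union x.fin).subset fun k a => by
    by_cases e : ori k
    exacts [Or.inl ⟨a.1, e⟩, Or.inr ⟨a.2, e⟩]

open Classical in
/-- the base point -/
noncomputable def bs (H : Type) [Poc H] : Pt H where
  f h := if ori h then 1 else 0
  nn h := by split_ifs <;> norm_num
  cp h := by by_cases e : ori h <;> simp [ori_st, e]
  con {k h} e := by
    by_cases a : ori k
    · exact Or.inr (if_pos (ori_le e.le a))
    · exact Or.inl (if_neg a)
  fin := finite_empty.subset fun h a => by simp [a.2] at a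

/-- vertices -/
def Pt.Vx (x : Pt H) : Prop := ∀ h, x.f h = 0 ∨ x.f h = 1

/-- the largest weight of a finite chain in `s` -/
noncomputable def ch (u : H → ℝ) (s : Set H) : ℝ :=
  sSup {a | ∃ t : Finset H, ↑t ⊆ s ∧ IsChain (· ≤ ·) (t : Set H) ∧ a = ∑ k ∈ t, u k}

theorem ch_le {u : H → ℝ} {s : Set H} {a : ℝ}
    (h : ∀ t : Finset H, ↑t ⊆ s → IsChain (· ≤ ·) (t : Set H) → (∀ k ∈ t, 0 < u k) →
      ∑ k ∈ t, u k ≤ a) : ch u s ≤ a := by
  classical
  refine csSup_le ⟨0, ∅, by simp, by simp, by simp⟩ ?_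
  rintro _ ⟨t, a1, a2, rfl⟩
  refine le_trans ?_ (h (t.filter fun k => 0 < u k) (fun k e => a1 (Finset.mem_filter.1 e).1)
    (a2.mono fun k e => (Finset.mem_filter.1 e).1) fun k e => (Finset.mem_filter.1 e).2)
  rw [Finset.sum_filter]
  exact Finset.sum_le_sum fun k _ => by split_ifs with e; exacts [le_rfl, not_lt.1 e]

theorem le_ch {u : H → ℝ} {s : Set H} (u1 : ∀ k, u k ≤ 1) (hf : {k | k ∈ s ∧ 0 < u k}.Finite)
    {t : Finset H} (a1 : ↑t ⊆ s) (a2 : IsChain (· ≤ ·) (t : Set H)) : ∑ k ∈ t, u k ≤ ch u s := by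
  classical
  refine le_csSup ⟨hf.toFinset.card, ?_⟩ ⟨t, a1, a2, rfl⟩
  rintro _ ⟨t, a1, -, rfl⟩
  calc ∑ k ∈ t, u k ≤ ∑ k ∈ t.filter fun k => 0 < u k, (1 : ℝ) := by
        rw [Finset.sum_filter]
        exact Finset.sum_le_sum fun k _ => by split_ifs with e; exacts [u1 k, not_lt.1 e]
    _ ≤ _ := by
        rw [Finset.sum_const, nsmul_eq_mul, mul_one]
        exact_mod_cast Finset.card_le_card fun k e =>
          hf.mem_toFinset.2 ⟨a1 (Finset.mem_filter.1 e).1, (Finset.mem_filter.1 e).2⟩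

theorem ch_nonneg {u : H → ℝ} {s : Set H} (u1 : ∀ k, u k ≤ 1)
    (hf : {k | k ∈ s ∧ 0 < u k}.Finite) : 0 ≤ ch u s := by
  simpa using le_ch (t := ∅) u1 hf (by simp) (by simp)

theorem le_dd (x y : Pt H) {t : Finset H} (a : IsChain (· ≤ ·) (t : Set H)) :
    ∑ k ∈ t, (x.f k - y.f k) ≤ ch (fun k => x.f k - y.f k) univ :=
  le_ch (u := fun k => x.f k - y.f k) (fun k => by linarith [x.le1 k, y.nn k])
    ((x.fin_lt y).subset fun _ a => sub_pos.1 a.2) (subset_univ _) a

theorem chain_st [DecidableEq H] {t : Finset H} (a : IsChain (· ≤ ·) (t : Set H)) :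
    IsChain (· ≤ ·) (t.image st : Set H) := by
  intro h e k e' n
  simp only [Finset.coe_image, mem_image] at e e'
  obtain ⟨h, e, rfl⟩ := e
  obtain ⟨k, e', rfl⟩ := e'
  exact (a e e' fun c => n (c ▸ rfl)).symm.imp st_le st_le

theorem dd_comm (x y : Pt H) :
    ch (fun k => x.f k - y.f k) univ ≤ ch (fun k => y.f k - x.f k) univ := by
  classical
  refine ch_le fun t _ a _ => le_trans (le_of_eq ?_) (le_dd y x (chain_st a))
  rw [Finset.sum_image fun _ _ _ _ e => st_inj e]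
  exact Finset.sum_congr rfl fun k _ => by rw [x.cp, y.cp]; ring

theorem sub_le_dd (x y : Pt H) (h : H) : x.f h - y.f h ≤ ch (fun k => x.f k - y.f k) univ := by
  simpa using le_dd x y (t := {h}) (by simp)

noncomputable instance : MetricSpace (Pt H) where
  dist x y := ch (fun k => x.f k - y.f k) univ
  dist_self x := le_antisymm (ch_le fun t _ _ _ => by simp) (by simpa using le_dd x x (t := ∅) (by simp))
  dist_comm x y := le_antisymm (dd_comm x y) (dd_comm y x)
  dist_triangle x y z := ch_le fun t _ a _ => by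
    refine le_trans (le_of_eq ?_) (add_le_add (le_dd x y a) (le_dd y z a))
    rw [← Finset.sum_add_distrib]
    exact Finset.sum_congr rfl fun k _ => by ring
  eq_of_dist_eq_zero {x y} e := Pt.ext (funext fun h => by
    have a := sub_le_dd x y h
    have b := (sub_le_dd y x h).trans (dd_comm y x)
    linarith)

theorem dist_le {x y : Pt H} {a : ℝ} (h : ∀ t : Finset H, IsChain (· ≤ ·) (t : Set H) →
    (∀ k ∈ t, y.f k < x.f k) → ∑ k ∈ t, (x.f k - y.f k) ≤ a) : dist x y ≤ a :=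
  ch_le fun t _ c p => h t c fun k e => sub_pos.1 (p k e)

theorem le_dist (x y : Pt H) {t : Finset H} (a : IsChain (· ≤ ·) (t : Set H)) :
    ∑ k ∈ t, (x.f k - y.f k) ≤ dist x y := le_dd x y a

theorem abs_le_dist (x y : Pt H) (h : H) : |x.f h - y.f h| ≤ dist x y :=
  abs_sub_le_iff.2 ⟨sub_le_dd x y h, by rw [dist_comm]; exact sub_le_dd y x h⟩

/-- the depth of a point below a half space -/
noncomputable def Dp (x : Pt H) (h : H) : ℝ := ch x.f (Iio h)

/-- the signed height of a point over a wall -/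
noncomputable def ph (x : Pt H) (h : H) : ℝ := Dp x h + x.f h - Dp x (st h)

/-- the convex set that contains the heights -/
structure Dl (ψ : H → ℝ) : Prop where
  cp : ∀ h, ψ (st h) = 1 - ψ h
  lt : ∀ {k h}, k < h → ψ k + 1 ≤ ψ h

/-- cutting off to the unit interval -/
noncomputable def cl (a : ℝ) : ℝ := max 0 (min 1 a)

theorem le_Dp (x : Pt H) {h : H} {t : Finset H} (a1 : ↑t ⊆ Iio h)
    (a2 : IsChain (· ≤ ·) (t : Set H)) : ∑ k ∈ t, x.f k ≤ Dp x h :=
  le_ch x.le1 (x.fin_bel h) a1 a2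

theorem Dp_nonneg (x : Pt H) (h : H) : 0 ≤ Dp x h := ch_nonneg x.le1 (x.fin_bel h)

theorem Dp_zero {x : Pt H} {h : H} (e : x.f h < 1) : Dp x h = 0 :=
  le_antisymm (ch_le fun t a _ _ => (Finset.sum_eq_zero fun _ m => x.dn (a m) e).le) (Dp_nonneg x h)

theorem Dp_lt (x : Pt H) {k h : H} (e : k < h) : Dp x k + x.f k ≤ Dp x h := by
  classical
  rw [← le_sub_iff_add_le]
  refine ch_le fun t a c _ => le_sub_iff_add_le.2 ?_
  have n : k ∉ t := fun m => lt_irrefl k (a m)
  rw [add_comm, ← Finset.sum_insert n]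
  refine le_Dp x ?_ ?_
  · rw [Finset.coe_insert]
    exact insert_subset e fun j m => lt_trans (a m) e
  · rw [Finset.coe_insert]
    exact c.insert fun j m _ => Or.inr (le_of_lt (a m))

theorem dl_ph (x : Pt H) : Dl (ph x) where
  cp h := by simp only [ph, st_st, x.cp]; ring
  lt {k h} e := by
    have a := Dp_lt x e
    have b := Dp_lt x (st_lt e)
    simp only [ph, x.cp] at b ⊢
    linarith

theorem le_ph {x : Pt H} {h : H} (e : 0 < x.f h) : x.f h ≤ ph x h := by
  have a := Dp_zero (x := x) (h := st h) (by rw [x.cp]; linarith)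
  have b := Dp_nonneg x h
  unfold ph
  linarith

theorem ph_le {x : Pt H} {h : H} (e : x.f h < 1) : ph x h ≤ x.f h := by
  have a := Dp_zero e
  have b := Dp_nonneg x (st h)
  unfold ph
  linarith

theorem cl_ph (x : Pt H) (h : H) : cl (ph x h) = x.f h := by
  unfold cl
  rcases (x.nn h).eq_or_lt with a | a
  · have := ph_le (x := x) (h := h) (by linarith)
    rw [← a] at this ⊢
    exact max_eq_left (min_le_of_right_le this)
  · have b := le_ph a
    rcases (x.le1 h).eq_or_lt with c | c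
    · rw [c] at b ⊢
      rw [min_eq_left b, max_eq_right zero_le_one]
    · rw [le_antisymm (ph_le c) b, min_eq_right c.le, max_eq_right a.le]

theorem ph_lip (x y : Pt H) (h : H) : ph x h - ph y h ≤ dist x y := by
  classical
  have key : ∀ t t' : Finset H, ↑t ⊆ Iio h → IsChain (· ≤ ·) (t : Set H) → ↑t' ⊆ Iio (st h) →
      IsChain (· ≤ ·) (t' : Set H) → ∑ k ∈ t, x.f k + ∑ k ∈ t', y.f k ≤
        dist x y + Dp y h + Dp x (st h) + y.f h - x.f h := by
    intro t t' a c a' c'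
    have m' : ∀ k ∈ t'.image st, h < k := fun k m => by
      obtain ⟨j, m1, rfl⟩ := Finset.mem_image.1 m
      exact lt_st (a' m1)
    have d : Disjoint t (t'.image st) :=
      Finset.disjoint_left.2 fun k m m2 => lt_asymm (a m) (m' k m2)
    have n : h ∉ t ∪ t'.image st := fun m => by
      rcases Finset.mem_union.1 m with m | m
      exacts [lt_irrefl h (a m), lt_irrefl h (m' h m)]
    have c2 : IsChain (· ≤ ·) ((insert h (t ∪ t'.image st) : Finset H) : Set H) := by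
      rw [Finset.coe_insert, Finset.coe_union]
      refine IsChain.insert ?_ fun j m _ => ?_
      · rintro i (m | m) j (m2 | m2) n
        · exact c m m2 n
        · exact Or.inl (lt_trans (a m) (m' j m2)).le
        · exact Or.inr (lt_trans (a m2) (m' i m)).le
        · exact chain_st c' m m2 n
      · rcases m with m | m
        exacts [Or.inr (le_of_lt (a m)), Or.inl (m' j m).le]
    have e := le_dist x y c2
    rw [Finset.sum_insert n, Finset.sum_union d, Finset.sum_image fun _ _ _ _ e => st_inj e,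
      Finset.sum_sub_distrib] at e
    have e1 : ∑ k ∈ t', (x.f (st k) - y.f (st k)) = ∑ k ∈ t', y.f k - ∑ k ∈ t', x.f k := by
      rw [← Finset.sum_sub_distrib]
      exact Finset.sum_congr rfl fun k _ => by rw [x.cp, y.cp]; ring
    linarith [le_Dp y a c, le_Dp x a' c']
  have k2 : Dp x h ≤ dist x y + Dp y h + Dp x (st h) + y.f h - x.f h - Dp y (st h) :=
    ch_le fun t a c _ => by
      have : Dp y (st h) ≤ dist x y + Dp y h + Dp x (st h) + y.f h - x.f h - ∑ k ∈ t, x.f k :=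
        ch_le fun t' a' c' _ => by linarith [key t t' a c a' c']
      linarith
  unfold ph
  linarith

theorem cl_mem (a : ℝ) : 0 ≤ cl a ∧ cl a ≤ 1 :=
  ⟨le_max_left _ _, max_le zero_le_one (min_le_left _ _)⟩

theorem cl_cp (a : ℝ) : cl (1 - a) = 1 - cl a := by
  unfold cl
  rcases le_total a 0 with e | e
  · rw [min_eq_left (by linarith), min_eq_right (by linarith : a ≤ 1), max_eq_left e]; simp
  rcases le_total a 1 with e' | e'
  · rw [min_eq_right (by linarith), min_eq_right e', max_eq_right e, max_eq_right (by linarith)]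
  · rw [min_eq_right (by linarith), min_eq_left e', max_eq_left (by linarith)]; simp

theorem cl_pos {a : ℝ} (e : 0 < cl a) : 0 < a ∧ cl a ≤ a := by
  unfold cl at *
  rcases lt_max_iff.1 e with e | e
  · exact absurd e (lt_irrefl _)
  · exact ⟨(lt_min_iff.1 e).2, max_le (lt_min_iff.1 e).2.le (min_le_right _ _)⟩

theorem cl_lt {a : ℝ} (e : cl a < 1) : a < 1 ∧ a ≤ cl a := by
  have := cl_pos (a := 1 - a) (by rw [cl_cp]; linarith)
  rw [cl_cp] at this
  exact ⟨by linarith [this.1], by linarith [this.2]⟩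

theorem le_cl {a θ : ℝ} (e : θ ≤ a) (e1 : θ ≤ 1) : θ ≤ cl a := le_max_of_le_right (le_min e1 e)

theorem sum_le_dl {ψ u : H → ℝ} (d : Dl ψ) (t : Finset H) (c : IsChain (· ≤ ·) (t : Set H))
    (p : ∀ k ∈ t, 0 < ψ k ∧ u k ≤ 1 ∧ u k ≤ ψ k) {a : ℝ} (a0 : 0 ≤ a) (b : ∀ k ∈ t, ψ k ≤ a) :
    ∑ k ∈ t, u k ≤ a := by
  classical
  induction t using Finset.induction_on_max_value ψ generalizing a with
  | empty => simpa using a0
  | insert m s n mx ih =>
    have m1 := p m (Finset.mem_insert_self _ _)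
    have m2 := b m (Finset.mem_insert_self _ _)
    rw [Finset.sum_insert n]
    rcases s.eq_empty_or_nonempty with rfl | ⟨j, hj⟩
    · simpa using m1.2.2.trans m2
    have k : ∀ j ∈ s, ψ j ≤ ψ m - 1 := fun j hj => by
      have ne : j ≠ m := fun e => n (e ▸ hj)
      rcases c (Finset.mem_coe.2 (Finset.mem_insert_of_mem hj))
        (Finset.mem_coe.2 (Finset.mem_insert_self _ _)) ne with e | e
      · linarith [d.lt (lt_of_le_of_ne e ne)]
      · linarith [d.lt (lt_of_le_of_ne e ne.symm), mx j hj]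
    have := ih (c.mono (by simp)) (fun k e => p k (Finset.mem_insert_of_mem e))
      (a := ψ m - 1) (by linarith [k j hj, (p j (Finset.mem_insert_of_mem hj)).1]) k
    linarith [m1.2.1]

/-- the retraction is 1-Lipschitz -/
theorem dist_cl {ψ ψ' : H → ℝ} (d : Dl ψ) {x y : Pt H} (hx : ∀ h, x.f h = cl (ψ h))
    (hy : ∀ h, y.f h = cl (ψ' h)) {a : ℝ} (a0 : 0 ≤ a) (e : ∀ h, ψ h - ψ' h ≤ a) :
    dist x y ≤ a := by
  refine dist_le fun t c p => ?_
  rcases t.eq_empty_or_nonempty with rfl | ne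
  · simpa using a0
  obtain ⟨m, m1, m2⟩ := t.exists_max_image ψ ne
  have q : ∀ k ∈ t, 0 < ψ k ∧ x.f k ≤ 1 ∧ x.f k ≤ ψ k := fun k e => by
    have := cl_pos (a := ψ k) (by rw [← hx]; exact (y.nn k).trans_lt (p k e))
    exact ⟨this.1, x.le1 k, by rw [hx]; exact this.2⟩
  have s1 := sum_le_dl d t c q (q m m1).1.le m2
  have s2 : y.f m ≤ ∑ k ∈ t, y.f k := Finset.single_le_sum (fun k _ => y.nn k) m1
  have s3 := (cl_lt (a := ψ' m) (by rw [← hy]; exact (p m m1).trans_le (x.le1 m))).2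
  rw [← hy] at s3
  rw [Finset.sum_sub_distrib]
  linarith [e m]

theorem Dl.cvx {ψ ψ' : H → ℝ} (d : Dl ψ) (d' : Dl ψ') {t : ℝ} (t0 : 0 ≤ t) (t1 : t ≤ 1) :
    Dl fun h => (1 - t) * ψ h + t * ψ' h where
  cp h := by rw [d.cp, d'.cp]; ring
  lt e := by nlinarith [d.lt e, d'.lt e]

/-- segments -/
noncomputable def sg (a b : Pt H) (t : unitInterval) : Pt H where
  f h := cl ((1 - t) * ph a h + t * ph b h)
  nn _ := (cl_mem _).1
  cp h := by rw [← cl_cp, ← ((dl_ph a).cvx (dl_ph b) t.2.1 t.2.2).cp]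
  con {k h} e := by
    have d := ((dl_ph a).cvx (dl_ph b) t.2.1 t.2.2).lt e
    by_contra n
    push Not at n
    have a1 := (cl_pos (lt_of_le_of_ne (cl_mem _).1 n.1.symm)).1
    have a2 := (cl_lt (lt_of_le_of_ne (cl_mem _).2 n.2)).1
    linarith
  fin := (a.fin.union b.fin).subset fun h e => by
    by_contra n
    simp only [mem_union, mem_setOf_eq, e.2, not_false_eq_true, and_true, not_or, not_lt] at n
    have a1 := ph_le (x := a) (h := h) (by linarith [n.1])
    have a2 := ph_le (x := b) (h := h) (by linarith [n.2])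
    have := (cl_pos e.1).1
    nlinarith [t.2.1, t.2.2, n.1, n.2]

theorem sg_f (a b : Pt H) (t : unitInterval) (h : H) :
    (sg a b t).f h = cl ((1 - t) * ph a h + t * ph b h) := rfl

theorem sg_zero (a b : Pt H) : sg a b 0 = a := Pt.ext (funext fun h => by simp [sg_f, cl_ph])

theorem sg_one (a b : Pt H) : sg a b 1 = b := Pt.ext (funext fun h => by simp [sg_f, cl_ph])

theorem sg_self (a : Pt H) (t : unitInterval) : sg a a t = a :=
  Pt.ext (funext fun h => by rw [sg_f, ← cl_ph]; congr 1; ring)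

theorem sg_cone (a b a' b' : Pt H) (t : unitInterval) :
    dist (sg a b t) (sg a' b' t) ≤ (1 - t) * dist a a' + t * dist b b' :=
  dist_cl ((dl_ph a).cvx (dl_ph b) t.2.1 t.2.2) (sg_f a b t) (sg_f a' b' t)
    (by have := t.2.1; have := sub_nonneg.2 t.2.2; positivity) fun h => by
      nlinarith [ph_lip a a' h, ph_lip b b' h, t.2.1, t.2.2]

theorem sg_time (a b : Pt H) (t t' : unitInterval) :
    dist (sg a b t) (sg a b t') ≤ |(t : ℝ) - t'| * dist a b :=
  dist_cl ((dl_ph a).cvx (dl_ph b) t.2.1 t.2.2) (sg_f a b t) (sg_f a b t') (by positivity)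
    fun h => by
      have e : |ph b h - ph a h| ≤ dist a b :=
        abs_sub_le_iff.2 ⟨by rw [dist_comm]; exact ph_lip b a h, ph_lip a b h⟩
      calc _ = ((t : ℝ) - t') * (ph b h - ph a h) := by ring
        _ ≤ |(t : ℝ) - t'| * |ph b h - ph a h| := by rw [← abs_mul]; exact le_abs_self _
        _ ≤ _ := by gcongr

/-- the sets `θ ≤ x h` are convex -/
theorem le_sg {a b : Pt H} {h : H} {θ : ℝ} (ha : θ ≤ a.f h) (hb : θ ≤ b.f h) (t : unitInterval) :
    θ ≤ (sg a b t).f h := by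
  rcases le_or_gt θ 0 with e | e
  · exact e.trans ((sg a b t).nn h)
  refine le_cl ?_ (ha.trans (a.le1 h))
  nlinarith [le_ph (e.trans_le ha), le_ph (e.trans_le hb), t.2.1, t.2.2]

/-- midpoints -/
noncomputable def md (a b : Pt H) : Pt H := sg a b ⟨1 / 2, by norm_num, by norm_num⟩

end Pool.Agent.Work.MP_9d1ffa_al.Cu
end

-- merged part: Pool.Agent.Work.MP_9d1ffa_al.Cu.Mid
section
/-! Straight paths in a metric space with a conical midpoint map. -/

namespace Pool.Agent.Work.MP_9d1ffa_al.Cu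

open Set

variable {X : Type} [MetricSpace X]

/-- conical midpoint maps -/
structure IsMd (md : X → X → X) : Prop where
  self : ∀ a, md a a = a
  cone : ∀ a b a' b', dist (md a b) (md a' b') ≤ (dist a a' + dist b b') / 2

/-- straight paths -/
def StrM (md : X → X → X) (W : ℕ) (p : ℕ → X) : Prop :=
  ∀ j, j + 2 ≤ W → p (j + 1) = md (p j) (p (j + 2))

/-- a convex sequence lies below the chord -/
theorem cvx_seq {e : ℕ → ℝ} {W j : ℕ} (h : ∀ j, j + 2 ≤ W → 2 * e (j + 1) ≤ e j + e (j + 2))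
    (hW : 0 < W) (hj : j ≤ W) : e j ≤ ((W - j) * e 0 + j * e W) / W := by
  have h1 : ∀ k, k + 1 ≤ W → ((k : ℝ) + 1) * (e k - e 0) ≤ k * (e (k + 1) - e 0) := by
    intro k
    induction k with
    | zero => intro _; simp
    | succ k ih =>
      intro hk
      have a := ih (by omega)
      have b := mul_le_mul_of_nonneg_left (h k (by omega)) (show (0 : ℝ) ≤ k + 1 by positivity)
      push_cast
      nlinarith
  have h2 : ∀ k, j ≤ k → k ≤ W → (k : ℝ) * (e j - e 0) ≤ j * (e k - e 0) := by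
    intro k hk
    induction k, hk using Nat.le_induction with
    | base => intro _; exact le_rfl
    | succ k hk ih =>
      intro hk'
      have a := ih (by omega)
      have b := h1 k hk'
      rcases Nat.eq_zero_or_pos k with rfl | h0
      · obtain rfl : j = 0 := by omega
        simp
      · have h0' : (0 : ℝ) < k := by exact_mod_cast h0
        refine le_of_mul_le_mul_left ?_ h0'
        have a' := mul_le_mul_of_nonneg_left a (show (0 : ℝ) ≤ k + 1 by positivity)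
        have b' := mul_le_mul_of_nonneg_left b (show (0 : ℝ) ≤ j by positivity)
        push_cast
        nlinarith
  have h3 := h2 W hj le_rfl
  rw [le_div_iff₀ (by exact_mod_cast hW)]
  nlinarith

variable {md : X → X → X} {W : ℕ} {p q : ℕ → X}

omit [MetricSpace X] in
theorem StrM.sub (h : StrM md W p) {W' i : ℕ} (e : i + W' ≤ W) :
    StrM md W' fun j => p (i + j) := fun j k => h (i + j) (by omega)

theorem IsMd.cvx (M : IsMd md) (h : StrM md W p) (h' : StrM md W q) (hW : 0 < W) {j : ℕ}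
    (hj : j ≤ W) :
    dist (p j) (q j) ≤ ((W - j) * dist (p 0) (q 0) + j * dist (p W) (q W)) / W := by
  refine cvx_seq (e := fun j => dist (p j) (q j)) (fun k hk => ?_) hW hj
  have := M.cone (p k) (p (k + 2)) (q k) (q (k + 2))
  rw [← h k hk, ← h' k hk] at this
  linarith

/-- The steps `dist (p j) (p (j + 1))` are all equal (`cone` with `md a a = a` and the triangle
inequality), `j ↦ dist (p i) (p j)` is convex, vanishes at `i` and is one step at `i + 1`. -/
theorem IsMd.geo (M : IsMd md) (h : StrM md W p) (hW : 0 < W) {i j : ℕ} (hi : i ≤ W)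
    (hj : j ≤ W) : dist (p i) (p j) = |(i : ℝ) - j| * (dist (p 0) (p W) / W) := by
  have hs : ∀ k, k + 1 ≤ W → dist (p k) (p (k + 1)) = dist (p 0) (p 1) := by
    intro k
    induction k with
    | zero => intro _; rfl
    | succ k ih =>
      intro hk
      rw [← ih (by omega)]
      have a := M.cone (p k) (p (k + 2)) (p k) (p k)
      have b := M.cone (p k) (p (k + 2)) (p (k + 2)) (p (k + 2))
      rw [← h k hk, M.self, dist_self] at a b
      have c := dist_triangle (p k) (p (k + 1)) (p (k + 2))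
      rw [dist_comm (p (k + 1)), dist_comm (p (k + 2))] at a
      linarith
  have hd : ∀ i k, i + k ≤ W → dist (p i) (p (i + k)) = k * dist (p 0) (p 1) := by
    intro i k hk
    refine le_antisymm ?_ ?_
    · induction k with
      | zero => simp
      | succ k ih =>
        have a := ih (by omega)
        have b := hs (i + k) hk
        have c := dist_triangle (p i) (p (i + k)) (p (i + k + 1))
        push_cast
        rw [← add_assoc]
        linarith
    · rcases Nat.eq_zero_or_pos k with rfl | h0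
      · simp
      · have a := M.cvx (W := k) (p := fun _ => p i) (fun _ _ => (M.self _).symm) (h.sub hk) h0
          (j := 1) h0
        rw [le_div_iff₀ (by exact_mod_cast h0)] at a
        simp only [add_zero, dist_self, mul_zero, Nat.cast_one, one_mul, zero_add] at a
        rw [hs i (by omega)] at a
        linarith
  have hW' : (0 : ℝ) < W := by exact_mod_cast hW
  have h0 : dist (p 0) (p W) / W = dist (p 0) (p 1) := by
    have := hd 0 W (by omega)
    rw [zero_add] at this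
    rw [this]; field_simp
  rw [h0]
  rcases le_total i j with hij | hij
  · obtain ⟨k, rfl⟩ := Nat.exists_eq_add_of_le hij
    rw [hd i k hj]
    simp
  · obtain ⟨k, rfl⟩ := Nat.exists_eq_add_of_le hij
    rw [dist_comm, hd j k hi]
    simp

/-- Iterate `q ↦ (j ↦ md (q (j - 1)) (q (j + 1)))` with fixed ends, starting with `q j = a` for
`j < m`; consecutive iterates differ at `j` by at most `dist a b * (1 - 1 / m ^ 2) ^ t * j * (m - j)`. -/
theorem IsMd.ex [CompleteSpace X] (M : IsMd md) {m : ℕ} (hm : 0 < m) (a b : X) :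
    ∃ p, StrM md m p ∧ p 0 = a ∧ p m = b := by
  let T : (ℕ → X) → ℕ → X := fun q j =>
    if j = 0 then a else if j < m then md (q (j - 1)) (q (j + 1)) else b
  let q : ℕ → ℕ → X := fun t => T^[t] fun j => if j < m then a else b
  have hq : ∀ t, q (t + 1) = T (q t) := fun t => Function.iterate_succ_apply' _ _ _
  have q0 : ∀ t, q t 0 = a := by
    rintro (_ | t)
    · exact if_pos hm
    · rw [hq]; exact if_pos rfl
  have qm : ∀ t, q t m = b := by
    rintro (_ | t)
    · exact if_neg (lt_irrefl m)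
    · rw [hq]; exact (if_neg hm.ne').trans (if_neg (lt_irrefl m))
  have qs : ∀ t j, j + 2 ≤ m → q (t + 1) (j + 1) = md (q t j) (q t (j + 2)) := fun t j hj => by
    rw [hq]; exact (if_neg (Nat.succ_ne_zero j)).trans (if_pos (by omega))
  have hm1 : (1 : ℝ) ≤ m := by exact_mod_cast hm
  have hm2 : (0 : ℝ) < (m : ℝ) ^ 2 := by positivity
  set r : ℝ := 1 - 1 / (m : ℝ) ^ 2 with hr
  have r0 : 0 ≤ r := by
    rw [hr, sub_nonneg, div_le_one hm2]; nlinarith
  have r1 : r < 1 := by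
    have : 0 < 1 / (m : ℝ) ^ 2 := by positivity
    linarith
  have hb : ∀ t j, j ≤ m → dist (q t j) (q (t + 1) j) ≤ dist a b * (j * (m - j)) * r ^ t := by
    intro t
    induction t with
    | zero =>
      intro j hj
      rcases j with _ | j
      · rw [q0, q0]; simp
      rcases hj.eq_or_lt with h | h
      · rw [h, qm, qm]; simp
      have e1 : q 0 (j + 1) = a := if_pos h
      have e2 : q 0 j = a := if_pos (by omega)
      have e3 : dist a (q 0 (j + 2)) ≤ dist a b := by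
        by_cases h2 : j + 2 < m
        · rw [show q 0 (j + 2) = a from if_pos h2, dist_self]; exact dist_nonneg
        · rw [show q 0 (j + 2) = b from if_neg h2]
      have c := M.cone a a a (q 0 (j + 2))
      rw [M.self, dist_self] at c
      rw [qs 0 j h, e1, e2, pow_zero, mul_one]
      have h3 : (j : ℝ) + 2 ≤ m := by exact_mod_cast h
      have h4 : (0 : ℝ) ≤ j := by positivity
      have h5 : (1 : ℝ) ≤ ((j + 1 : ℕ) : ℝ) * (m - (j + 1 : ℕ)) := by push_cast; nlinarith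
      have h6 := mul_le_mul_of_nonneg_left h5 (dist_nonneg (x := a) (y := b))
      have h7 := dist_nonneg (x := a) (y := b)
      linarith
    | succ t ih =>
      intro j hj
      rcases j with _ | j
      · rw [q0, q0]; simp
      rcases hj.eq_or_lt with h | h
      · rw [h, qm, qm]; simp
      have c := M.cone (q t j) (q t (j + 2)) (q (t + 1) j) (q (t + 1) (j + 2))
      have i1 := ih j (by omega)
      have i2 := ih (j + 2) h
      rw [qs t j h, qs (t + 1) j h]
      have h3 : (j : ℝ) + 2 ≤ m := by exact_mod_cast h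
      have h4 : (0 : ℝ) ≤ j := by positivity
      have h5 : ((j : ℝ) + 1) * (m - (j + 1)) - 1 ≤ ((j : ℝ) + 1) * (m - (j + 1)) * r := by
        have : ((j : ℝ) + 1) * (m - (j + 1)) * (1 / (m : ℝ) ^ 2) ≤ 1 := by
          rw [mul_one_div, div_le_one hm2]; nlinarith
        rw [hr]; linarith
      have h6 := mul_le_mul_of_nonneg_left h5
        (mul_nonneg (dist_nonneg (x := a) (y := b)) (pow_nonneg r0 t))
      push_cast at i2 ⊢
      rw [pow_succ]
      nlinarith
  have hl : ∀ j, j ≤ m → ∃ x, Filter.Tendsto (fun t => q t j) Filter.atTop (nhds x) :=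
    fun j hj => cauchySeq_tendsto_of_complete
      (cauchySeq_of_le_geometric r _ r1 fun t => hb t j hj)
  have : Nonempty X := ⟨a⟩
  choose! p hp using hl
  refine ⟨p, fun j hj => ?_, ?_, ?_⟩
  · have h1 := (Filter.tendsto_add_atTop_iff_nat 1).2 (hp (j + 1) (by omega))
    refine tendsto_nhds_unique h1 (tendsto_iff_dist_tendsto_zero.2 ?_)
    have h2 := ((tendsto_iff_dist_tendsto_zero.1 (hp j (by omega))).add
      (tendsto_iff_dist_tendsto_zero.1 (hp (j + 2) hj))).div_const 2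
    rw [add_zero, zero_div] at h2
    refine squeeze_zero (fun _ => dist_nonneg) (fun t => ?_) h2
    rw [qs t j hj]
    exact M.cone _ _ _ _
  · have h1 := hp 0 (Nat.zero_le m)
    simp only [q0] at h1
    exact tendsto_nhds_unique h1 tendsto_const_nhds
  · have h1 := hp m le_rfl
    simp only [qm] at h1
    exact tendsto_nhds_unique h1 tendsto_const_nhds

/-- `j ↦ infDist (p j) K` is convex -/
theorem IsMd.hull (M : IsMd md) (h : StrM md W p) {K : Set X} (hK : IsClosed K)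
    (hc : ∀ a ∈ K, ∀ b ∈ K, md a b ∈ K) (h0 : p 0 ∈ K) (h1 : p W ∈ K) {j : ℕ} (hj : j ≤ W) :
    p j ∈ K := by
  rcases Nat.eq_zero_or_pos W with rfl | hW
  · rwa [Nat.le_zero.1 hj]
  have hn : K.Nonempty := ⟨_, h0⟩
  have h2 := cvx_seq (e := fun j => Metric.infDist (p j) K) (fun k hk => ?_) hW hj
  · rw [Metric.infDist_zero_of_mem h0, Metric.infDist_zero_of_mem h1] at h2
    simp only [mul_zero, add_zero, zero_div] at h2
    exact (hK.mem_iff_infDist_zero hn).2 (le_antisymm h2 Metric.infDist_nonneg)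
  · rw [← sub_le_iff_le_add, Metric.le_infDist hn]
    intro x hx
    rw [sub_le_comm, Metric.le_infDist hn]
    intro y hy
    have a := M.cone (p k) (p (k + 2)) x y
    have b := Metric.infDist_le_dist_of_mem (x := p (k + 1)) (hc x hx y hy)
    rw [← h k hk] at a
    linarith

end Pool.Agent.Work.MP_9d1ffa_al.Cu
end

-- merged part: Pool.Agent.Work.MP_9d1ffa_al.Cu.Act
section
/-! The action on points, completeness and counting of walls. -/

namespace Pool.Agent.Work.MP_9d1ffa_al.Cu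

open Set

variable {H : Type} [Poc H]

theorem isMd : IsMd (md : Pt H → Pt H → Pt H) where
  self a := sg_self a _
  cone a b a' b' := (sg_cone a b a' b' _).trans_eq (by ring)

/-- transport of chains -/
theorem ch_le_map {u u' : H → ℝ} {s s' : Set H} (b : H → H) (u1 : ∀ k, u' k ≤ 1)
    (hf : {k | k ∈ s' ∧ 0 < u' k}.Finite) (h1 : ∀ k ∈ s, 0 < u k → b k ∈ s' ∧ u k ≤ u' (b k))
    (h2 : ∀ k ∈ s, ∀ j ∈ s, 0 < u k → 0 < u j → k < j → b k < b j) : ch u s ≤ ch u' s' := by
  classical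
  refine ch_le fun t a c p => ?_
  have key : ∀ k ∈ t, ∀ j ∈ t, k ≠ j → b k < b j ∨ b j < b k := fun k hk j hj n =>
    (c hk hj n).imp (fun e => h2 k (a hk) j (a hj) (p k hk) (p j hj) (lt_of_le_of_ne e n))
      fun e => h2 j (a hj) k (a hk) (p j hj) (p k hk) (lt_of_le_of_ne e n.symm)
  refine (Finset.sum_le_sum fun k hk => (h1 k (a hk) (p k hk)).2).trans ?_
  rw [← Finset.sum_image (f := u') (g := b) fun k hk j hj e => by
    by_contra n
    exact (key k hk j hj n).elim (fun l => l.ne e) fun l => l.ne' e]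
  refine le_ch u1 hf ?_ ?_
  · rw [Finset.coe_image]
    rintro _ ⟨k, hk, rfl⟩
    exact (h1 k (a hk) (p k hk)).1
  · rw [Finset.coe_image]
    rintro _ ⟨k, hk, rfl⟩ _ ⟨j, hj, rfl⟩ n
    exact (key k hk j hj fun e => n (e ▸ rfl)).imp le_of_lt le_of_lt

/-- transverse sets are small -/
theorem encard_tr {s : Set H} (h : ∀ h ∈ s, ∀ k ∈ s, ¬ h < k ∧ ¬ h < st k ∧ ¬ st h < k) :
    s.encard ≤ (dm H : ℕ) := by
  by_contra n
  obtain ⟨t, a, e⟩ := exists_subset_encard_eq (k := (dm H + 1 : ℕ)) (s := s)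
    (by rw [Nat.cast_succ]; exact Order.add_one_le_of_lt (not_le.1 n))
  lift t to Finset H using finite_of_encard_eq_coe e
  rw [encard_coe_eq_coe_finsetCard, Nat.cast_inj] at e
  have := Poc.dim t fun i m j m' => h i (a m) j (a m')
  omega

theorem encard_fr (x : Pt H) : {h | 0 < x.f h ∧ x.f h < 1}.encard ≤ (dm H : ℕ) :=
  encard_tr fun h a k b => ⟨fun e => b.2.ne (x.up e a.1),
    fun e => by have := x.up e a.1; rw [x.cp] at this; linarith [b.1],
    fun e => by have := x.dn e b.2; rw [x.cp] at this; linarith [a.2]⟩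

/-- a chain with positive terms has at most two elements -/
theorem dist_le_two {x y : Pt H} {a : ℝ} (a0 : 0 ≤ a) (a1 : a < 1) (h : ∀ k, x.f k - y.f k ≤ a) :
    dist x y ≤ 2 * a := by
  refine dist_le fun t c p => ?_
  have no : ∀ {k j l}, k ∈ t → l ∈ t → k < j → j < l → False := fun {k j l} hk hl e e' => by
    have b1 := x.up e ((y.nn k).trans_lt (p k hk))
    have b2 := y.dn e' ((p l hl).trans_le (x.le1 l))
    linarith [h j]
  have key : ∀ {k j}, k ∈ t → j ∈ t → k ≠ j → k < j ∨ j < k := fun hk hj n =>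
    (c hk hj n).imp (fun e => lt_of_le_of_ne e n) fun e => lt_of_le_of_ne e n.symm
  have hc : t.card ≤ 2 := by
    by_contra n
    obtain ⟨i, j, k, hi, hj, hk, n1, n2, n3⟩ := Finset.two_lt_card_iff.1 (not_le.1 n)
    rcases key hi hj n1 with e1 | e1 <;> rcases key hj hk n3 with e3 | e3
    · exact no hi hk e1 e3
    · exact (key hi hk n2).elim (fun e2 => no hi hj e2 e3) fun e2 => no hk hj e2 e1
    · exact (key hi hk n2).elim (fun e2 => no hj hk e1 e2) fun e2 => no hj hi e3 e2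
    · exact no hk hi e3 e1
  refine (Finset.sum_le_card_nsmul t _ a fun k _ => h k).trans ?_
  rw [nsmul_eq_mul]
  exact mul_le_mul_of_nonneg_right (by exact_mod_cast hc) a0

/-- the level sets of `⌊ph b h⌋₊ ≤ ρ + 1` are transverse -/
theorem encard_lt {a b : Pt H} {ρ : ℕ} (h : dist a b ≤ ρ) :
    {k | a.f k < b.f k}.encard ≤ (dm H * (ρ + 2) : ℕ) := by
  have pos : ∀ k, a.f k < b.f k → 0 < b.f k ∧ a.f k < 1 := fun k e =>
    ⟨(a.nn k).trans_lt e, e.trans_le (b.le1 k)⟩
  have key : ∀ n : ℕ, {k | a.f k < b.f k ∧ ⌊ph b k⌋₊ < n}.encard ≤ (dm H * n : ℕ) := by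
    intro n
    induction n with
    | zero => simp
    | succ n ih =>
      have e : {k | a.f k < b.f k ∧ ⌊ph b k⌋₊ < n + 1} ⊆ {k | a.f k < b.f k ∧ ⌊ph b k⌋₊ < n} ∪
          {k | a.f k < b.f k ∧ ⌊ph b k⌋₊ = n} := fun k m =>
        (Nat.lt_succ_iff_lt_or_eq.1 m.2).imp (fun e => ⟨m.1, e⟩) fun e => ⟨m.1, e⟩
      refine (encard_le_encard e).trans ((encard_union_le _ _).trans ?_)
      rw [Nat.mul_succ, Nat.cast_add]
      refine add_le_add ih (encard_tr fun i m j m' => ⟨fun l => ?_, fun l => ?_, fun l => ?_⟩)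
      · have b1 := Nat.floor_le_floor ((dl_ph b).lt l)
        rw [Nat.floor_add_one ((pos i m.1).1.le.trans (le_ph (pos i m.1).1)), m.2, m'.2] at b1
        omega
      · have := b.up l (pos i m.1).1
        rw [b.cp] at this
        linarith [(pos j m'.1).1]
      · have := a.dn l (pos j m'.1).2
        rw [a.cp] at this
        linarith [(pos i m.1).2]
  refine le_trans (encard_le_encard fun k m => And.intro m ?_) (key (ρ + 2))
  have b1 := ph_lip b a k
  rw [dist_comm] at b1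
  refine (Nat.floor_lt' (by omega)).2 ?_
  push_cast
  linarith [ph_le (pos k m).2, (pos k m).2]

theorem cont_f (h : H) : Continuous fun x : Pt H => x.f h :=
  (LipschitzWith.mk_one fun x y => abs_le_dist x y h).continuous

instance : CompleteSpace (Pt H) := by
  refine Metric.complete_of_cauchySeq_tendsto fun u hu => ?_
  choose g hg using fun h => cauchySeq_tendsto_of_complete
    ((LipschitzWith.mk_one (f := fun x : Pt H => x.f h)
      fun x y => abs_le_dist x y h).uniformContinuous.comp_cauchySeq hu)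
  replace hg : ∀ h, Filter.Tendsto (fun n => (u n).f h) Filter.atTop (nhds (g h)) := hg
  have g0 : ∀ h, 0 ≤ g h := fun h => ge_of_tendsto' (hg h) fun n => (u n).nn h
  rw [Metric.cauchySeq_iff] at hu
  refine ⟨⟨g, g0, fun h => ?_, fun {k h} e => ?_, ?_⟩, Metric.tendsto_atTop.2 fun ε hε => ?_⟩
  · exact tendsto_nhds_unique (hg (st h))
      (((hg h).const_sub 1).congr fun n => ((u n).cp h).symm)
  · refine (g0 k).eq_or_lt.imp Eq.symm fun p => ?_
    exact tendsto_nhds_unique (hg h) (tendsto_const_nhds.congr'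
      (((hg k).eventually_const_lt p).mono fun n a => ((u n).up e a).symm))
  · obtain ⟨N, hN⟩ := hu 1 one_pos
    have f1 : {k | (u N).f k < g k}.Finite := by
      by_contra n
      obtain ⟨t, a, c⟩ := Set.Infinite.exists_subset_card_eq n (dm H * (1 + 2) + 1)
      obtain ⟨m, m1, m2⟩ := (((Filter.eventually_all_finset t).2 fun k e =>
        (hg k).eventually_const_lt (a e)).and (Filter.eventually_ge_atTop N)).exists
      have b1 := (encard_le_encard (s := (t : Set H)) m1).trans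
        (encard_lt (ρ := 1) (by simpa using (hN N le_rfl m m2).le))
      rw [encard_coe_eq_coe_finsetCard, Nat.cast_le] at b1
      omega
    refine (f1.union (u N).fin).subset fun k m => ?_
    rcases ((u N).nn k).eq_or_lt with e | e
    exacts [Or.inl (e.ge.trans_lt m.1), Or.inr ⟨e, m.2⟩]
  · obtain ⟨N, hN⟩ := hu (ε / 2) (half_pos hε)
    refine ⟨N, fun n hn => lt_of_le_of_lt (dist_le fun t c _ => ?_) (half_lt_self hε)⟩
    exact le_of_tendsto (tendsto_finsetSum t fun k _ => (hg k).const_sub ((u n).f k))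
      ((Filter.eventually_ge_atTop N).mono fun m hm => (le_dist _ _ c).trans (hN n hn m hm).le)

variable {W : ℕ} {p : ℕ → Pt H}

theorem StrM.ge (h : StrM md W p) {k : H} {θ : ℝ} (h0 : θ ≤ (p 0).f k) (h1 : θ ≤ (p W).f k)
    {j : ℕ} (hj : j ≤ W) : θ ≤ (p j).f k :=
  isMd.hull h (K := {x | θ ≤ x.f k}) (isClosed_le continuous_const (cont_f k))
    (fun _ a _ b => le_sg a b _) h0 h1 hj

theorem StrM.le (h : StrM md W p) {k : H} {θ : ℝ} (h0 : (p 0).f k ≤ θ) (h1 : (p W).f k ≤ θ)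
    {j : ℕ} (hj : j ≤ W) : (p j).f k ≤ θ := by
  have := h.ge (k := st k) (θ := 1 - θ) (by rw [Pt.cp]; linarith) (by rw [Pt.cp]; linarith) hj
  rw [Pt.cp] at this
  linarith

variable {G : Type} [Group G] [PocAct G H]

theorem smul_lt (g : G) {h k : H} (e : h < k) : g • h < g • k :=
  lt_of_le_of_ne (PocAct.smul_le g e.le) fun c => e.ne (MulAction.injective g c)

instance : MulAction G (Pt H) where
  smul g x :=
    { f := fun h => x.f (g⁻¹ • h)
      nn := fun _ => x.nn _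
      cp := fun h => by rw [PocAct.smul_st, x.cp]
      con := fun e => x.con (smul_lt _ e)
      fin := ((x.fin.preimage (MulAction.injective g⁻¹).injOn).union (PocAct.smul_ori g⁻¹)).subset
        fun h a => by
          by_cases e : ori (g⁻¹ • h)
          exacts [Or.inr ⟨e, a.2⟩, Or.inl ⟨a.1, e⟩] }
  one_smul x := Pt.ext (funext fun h => by change x.f ((1 : G)⁻¹ • h) = _; simp)
  mul_smul g g' x := Pt.ext (funext fun h => by
    change x.f ((g * g')⁻¹ • h) = x.f (g'⁻¹ • g⁻¹ • h)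
    rw [mul_inv_rev, mul_smul])

theorem smul_f (g : G) (x : Pt H) (h : H) : (g • x).f h = x.f (g⁻¹ • h) := rfl

theorem Act_dist (g : G) (x y : Pt H) : dist (g • x) (g • y) ≤ dist x y :=
  ch_le_map (u' := fun k => x.f k - y.f k) (fun k => g⁻¹ • k) (fun k => by linarith [x.le1 k, y.nn k])
    ((x.fin_lt y).subset fun _ a => sub_pos.1 a.2) (fun _ _ _ => ⟨trivial, le_rfl⟩)
    fun _ _ _ _ _ _ e => smul_lt _ e

theorem dist_smul' (g : G) (x y : Pt H) : dist (g • x) (g • y) = dist x y :=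
  le_antisymm (Act_dist g x y) (by simpa only [inv_smul_smul] using Act_dist g⁻¹ (g • x) (g • y))

theorem Act_Dp_le (g : G) (x : Pt H) (h : H) : Dp (g • x) h ≤ Dp x (g⁻¹ • h) :=
  ch_le_map (fun k => g⁻¹ • k) x.le1 (x.fin_bel _) (fun _ e _ => ⟨smul_lt _ e, le_rfl⟩)
    fun _ _ _ _ _ _ e => smul_lt _ e

theorem Act_Dp (g : G) (x : Pt H) (h : H) : Dp (g • x) h = Dp x (g⁻¹ • h) :=
  le_antisymm (Act_Dp_le g x h)
    (by simpa only [inv_smul_smul, inv_inv, smul_inv_smul] using Act_Dp_le g⁻¹ (g • x) (g⁻¹ • h))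

theorem ph_smul (g : G) (x : Pt H) (h : H) : ph (g • x) h = ph x (g⁻¹ • h) := by
  rw [ph, ph, Act_Dp, Act_Dp, PocAct.smul_st, smul_f]

theorem sg_smul (g : G) (a b : Pt H) (t : unitInterval) : g • sg a b t = sg (g • a) (g • b) t :=
  Pt.ext (funext fun h => by simp only [smul_f, sg_f, ph_smul])

theorem StrM.smul (h : StrM md W p) (g : G) : StrM md W fun j => g • p j := fun j e => by
  beta_reduce
  rw [h j e]
  exact sg_smul g _ _ _

end Pool.Agent.Work.MP_9d1ffa_al.Cu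
end

-- merged part: Pool.Agent.Work.MP_9d1ffa_al.Cu.Sm
section
/-! Samples and margins. -/

namespace Pool.Agent.Work.MP_9d1ffa_al.Cu

open Set

/-- samples: a family of cuts and a cell for every half space -/
def Sm (H : Type) [Poc H] : Type := Fin (dm H + 1) × (H → ℤ)

variable {H : Type} [Poc H]

/-- the cuts -/
noncomputable def cut (Q : ℕ) (γ : Fin (dm H + 1)) (k : ℤ) : ℝ :=
  (k + ((γ : ℕ) + 1 / 2) / (dm H + 1)) / (2 * Q)

/-- the cell of a number -/
noncomputable def cell (Q : ℕ) (γ : Fin (dm H + 1)) (a : ℝ) : ℤ :=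
  ⌊2 * Q * a - ((γ : ℕ) + 1 / 2) / (dm H + 1)⌋

/-- `a` lies in the cell `k` with margin `μ` -/
def Ins (Q : ℕ) (γ : Fin (dm H + 1)) (k : ℤ) (a μ : ℝ) : Prop :=
  cut Q γ k + μ ≤ a ∧ a + μ ≤ cut Q γ (k + 1)

/-- margins -/
noncomputable def mg (Q : ℕ) (c : Sm H) (x : Pt H) : ℝ :=
  sSup {μ | 0 ≤ μ ∧ μ ≤ 1 / (4 * (dm H + 1) * Q) ∧ ∀ h, Ins Q c.1 (c.2 h) (x.f h) μ}

variable {Q : ℕ} {c : Sm H} {x y : Pt H}

theorem mg_nonneg (Q : ℕ) (c : Sm H) (x : Pt H) : 0 ≤ mg Q c x :=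
  Real.sSup_nonneg fun _ h => h.1

theorem Sm_le {μ : ℝ} (h0 : 0 ≤ μ) (h1 : μ ≤ 1 / (4 * (dm H + 1) * Q))
    (h2 : ∀ h, Ins Q c.1 (c.2 h) (x.f h) μ) : μ ≤ mg Q c x :=
  le_csSup ⟨1 / (4 * (dm H + 1) * Q), fun _ a => a.2.1⟩ ⟨h0, h1, h2⟩

theorem Sm_pos (h : 0 < mg Q c x) : ∃ μ : ℝ, 0 < μ ∧ ∀ h, Ins Q c.1 (c.2 h) (x.f h) μ := by
  by_contra n
  refine absurd (Real.sSup_le (fun μ a => ?_) le_rfl) (not_le.2 h)
  by_contra e
  exact n ⟨μ, not_le.1 e, a.2.2⟩

theorem Sm_lip (Q : ℕ) (c : Sm H) (x y : Pt H) : mg Q c x ≤ mg Q c y + dist x y := by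
  have n0 := mg_nonneg Q c y
  have d0 : 0 ≤ dist x y := dist_nonneg
  refine Real.sSup_le (fun μ a => ?_) (by linarith)
  rcases le_total μ (dist x y) with e | e
  · linarith
  · have : μ - dist x y ≤ mg Q c y := Sm_le (by linarith) (by linarith [a.2.1]) fun h => by
      have b := a.2.2 h
      have b' := abs_le.1 (abs_le_dist x y h)
      exact ⟨by linarith [b.1, b'.2], by linarith [b.2, b'.1]⟩
    linarith

theorem mg_lip (Q : ℕ) (c : Sm H) (x y : Pt H) : |mg Q c x - mg Q c y| ≤ dist x y := by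
  have a := Sm_lip Q c x y
  have b := Sm_lip Q c y x
  rw [dist_comm] at b
  exact abs_sub_le_iff.2 ⟨by linarith, by linarith⟩

/-- the offset of a family of cuts -/
noncomputable def Sm_off (γ : Fin (dm H + 1)) : ℝ := ((γ : ℕ) + 1 / 2) / (dm H + 1)

theorem Sm_off_ge (γ : Fin (dm H + 1)) : 1 / (2 * (dm H + 1)) ≤ Sm_off γ := by
  have d : (0 : ℝ) < dm H + 1 := by positivity
  have g : (0 : ℝ) ≤ (γ : ℕ) := Nat.cast_nonneg _
  unfold Sm_off
  rw [div_le_div_iff₀ (by positivity) d]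
  nlinarith

theorem Sm_off_le (γ : Fin (dm H + 1)) : Sm_off γ ≤ 1 - 1 / (2 * (dm H + 1)) := by
  have d : (0 : ℝ) < dm H + 1 := by positivity
  have g : ((γ : ℕ) : ℝ) ≤ dm H := by exact_mod_cast Nat.lt_succ_iff.1 γ.2
  unfold Sm_off
  rw [div_le_iff₀ d]
  have : (1 - 1 / (2 * ((dm H : ℝ) + 1))) * (dm H + 1) = dm H + 1 / 2 := by field_simp; ring
  linarith

theorem Sm_off_pos (γ : Fin (dm H + 1)) : 0 < Sm_off γ :=
  lt_of_lt_of_le (by positivity) (Sm_off_ge γ)

theorem Sm_off_lt (γ : Fin (dm H + 1)) : Sm_off γ < 1 := by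
  have : (0 : ℝ) < 1 / (2 * (dm H + 1)) := by positivity
  linarith [Sm_off_le γ]

theorem Sm_ins (hQ : 0 < Q) {γ : Fin (dm H + 1)} {k : ℤ} {a μ : ℝ} :
    Ins Q γ k a μ ↔ k + Sm_off γ + 2 * Q * μ ≤ 2 * Q * a ∧
      2 * Q * a + 2 * Q * μ ≤ k + 1 + Sm_off γ := by
  have q : (0 : ℝ) < 2 * Q := by positivity
  unfold Ins cut
  rw [← le_sub_iff_add_le, div_le_iff₀ q, le_div_iff₀ q]
  push_cast
  unfold Sm_off
  constructor
  · rintro ⟨a1, a2⟩
    exact ⟨by linarith, by linarith⟩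
  · rintro ⟨a1, a2⟩
    exact ⟨by linarith, by linarith⟩

theorem Sm_cell (Q : ℕ) (γ : Fin (dm H + 1)) (a : ℝ) : cell Q γ a = ⌊2 * Q * a - Sm_off γ⌋ := rfl

theorem Sm_cap (hQ : 0 < Q) :
    2 * (Q : ℝ) * (1 / (4 * (dm H + 1) * Q)) = 1 / (2 * (dm H + 1)) := by
  have q : (0 : ℝ) < Q := by exact_mod_cast hQ
  field_simp
  ring

theorem mg_cell (hQ : 0 < Q) (h : 0 < mg Q c x) (k : H) : c.2 k = cell Q c.1 (x.f k) := by
  obtain ⟨μ, m, e⟩ := Sm_pos h
  have a := (Sm_ins hQ).1 (e k)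
  have q : (0 : ℝ) < 2 * Q * μ := by positivity
  rw [Sm_cell, eq_comm, Int.floor_eq_iff]
  exact ⟨by linarith [a.1], by linarith [a.2]⟩

theorem mg_dist (hQ : 0 < Q) (h : 0 < mg Q c x) (h' : 0 < mg Q c y) : dist x y ≤ 1 / Q := by
  obtain ⟨μ, m, e⟩ := Sm_pos h
  obtain ⟨μ', m', e'⟩ := Sm_pos h'
  have q : (1 : ℝ) ≤ Q := by exact_mod_cast hQ
  have a := dist_le_two (x := x) (y := y) (a := 1 / (2 * Q)) (by positivity)
    (by rw [div_lt_one (by positivity)]; linarith) fun k => by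
      have a := (Sm_ins hQ).1 (e k)
      have b := (Sm_ins hQ).1 (e' k)
      have q1 : (0 : ℝ) < 2 * Q * μ := by positivity
      have q2 : (0 : ℝ) < 2 * Q * μ' := by positivity
      rw [le_div_iff₀ (by positivity)]
      linarith [a.2, b.1]
  refine a.trans_eq ?_
  field_simp

theorem mg_card (hQ : 0 < Q) (x : Pt H) :
    {c : Sm H | 0 < mg Q c x}.encard ≤ (dm H + 1 : ℕ) := by
  have a : {c : Sm H | 0 < mg Q c x} ⊆
      (fun γ : Fin (dm H + 1) => ((γ, fun h => cell Q γ (x.f h)) : Sm H)) '' univ :=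
    fun c e => ⟨c.1, mem_univ _, Prod.ext rfl (funext fun k => (mg_cell hQ e k).symm)⟩
  refine (encard_le_encard a).trans ((encard_image_le _ _).trans (le_of_eq ?_))
  rw [encard_univ, ENat.card_eq_coe_fintype_card, Fintype.card_fin]

theorem Sm_cell_int (γ : Fin (dm H + 1)) {a : ℝ} {m : ℤ} (e : 2 * Q * a = m) :
    cell Q γ a = m - 1 := by
  rw [Sm_cell, e, Int.floor_eq_iff]
  push_cast
  exact ⟨by linarith [Sm_off_lt γ], by linarith [Sm_off_pos γ]⟩

/-- the values `0` and `1` have full margin -/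
theorem ins_int (hQ : 0 < Q) (γ : Fin (dm H + 1)) {a μ : ℝ} (ha : a = 0 ∨ a = 1)
    (hμ : μ ≤ 1 / (4 * (dm H + 1) * Q)) : Ins Q γ (cell Q γ a) a μ := by
  obtain ⟨m, e⟩ : ∃ m : ℤ, 2 * Q * a = m := by
    rcases ha with rfl | rfl
    · exact ⟨0, by simp⟩
    · exact ⟨2 * Q, by simp⟩
  have q : 2 * (Q : ℝ) * μ ≤ 1 / (2 * (dm H + 1)) := by
    rw [← Sm_cap hQ]
    gcongr
  rw [Sm_cell_int γ e, Sm_ins hQ, e]
  push_cast
  exact ⟨by linarith [Sm_off_le γ], by linarith [Sm_off_ge γ]⟩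

theorem Sm_near {γ : Fin (dm H + 1)} {k : ℤ} {b : ℝ}
    (h1 : k + Sm_off γ - 1 / (2 * (dm H + 1)) < b) (h2 : b < k + Sm_off γ + 1 / (2 * (dm H + 1))) :
    ⌊((dm H : ℝ) + 1) * b⌋ % (dm H + 1 : ℤ) = (γ : ℕ) := by
  have d : (0 : ℝ) < dm H + 1 := by positivity
  have e : ⌊((dm H : ℝ) + 1) * b⌋ = (γ : ℕ) + (dm H + 1 : ℤ) * k := by
    rw [Int.floor_eq_iff]
    push_cast
    have a1 := mul_lt_mul_of_pos_left h1 d
    have a2 := mul_lt_mul_of_pos_left h2 d
    have b1 : ((dm H : ℝ) + 1) * (k + Sm_off γ - 1 / (2 * (dm H + 1))) =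
        (γ : ℕ) + (dm H + 1) * k := by
      unfold Sm_off
      field_simp
      ring
    have b2 : ((dm H : ℝ) + 1) * (k + Sm_off γ + 1 / (2 * (dm H + 1))) =
        (γ : ℕ) + (dm H + 1) * k + 1 := by
      unfold Sm_off
      field_simp
      ring
    exact ⟨by linarith, by linarith⟩
  rw [e, Int.add_mul_emod_self_left]
  exact Int.emod_eq_of_lt (Int.natCast_nonneg _) (by exact_mod_cast γ.2)

theorem Sm_spoil (hQ : 0 < Q) {γ : Fin (dm H + 1)} {a : ℝ}
    (h : ¬ Ins Q γ (cell Q γ a) a (1 / (4 * (dm H + 1) * Q))) :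
    ⌊((dm H : ℝ) + 1) * (2 * Q * a)⌋ % (dm H + 1 : ℤ) = (γ : ℕ) := by
  rw [Sm_ins hQ, Sm_cap hQ, Sm_cell] at h
  have a1 := Int.floor_le (2 * Q * a - Sm_off γ)
  have a2 := Int.lt_floor_add_one (2 * Q * a - Sm_off γ)
  have p : (0 : ℝ) < 1 / (2 * (dm H + 1)) := by positivity
  rcases not_and_or.1 h with e | e
  · exact Sm_near (k := ⌊2 * Q * a - Sm_off γ⌋) (by linarith) (by linarith [not_le.1 e])
  · refine Sm_near (k := ⌊2 * Q * a - Sm_off γ⌋ + 1) ?_ ?_
    · push_cast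
      linarith [not_le.1 e]
    · push_cast
      linarith

/-- every fractional value spoils at most one family of cuts (`encard_fr`) -/
theorem mg_big (hQ : 0 < Q) (x : Pt H) : ∃ c : Sm H, 1 / (4 * (dm H + 1) * Q) ≤ mg Q c x := by
  classical
  have f := encard_fr x
  have F : {h | 0 < x.f h ∧ x.f h < 1}.Finite := finite_of_encard_le_coe f
  rw [F.encard_eq_coe_toFinset_card, Nat.cast_le] at f
  obtain ⟨g, g1, g2⟩ := Finset.exists_mem_notMem_of_card_lt_card
    (s := F.toFinset.image fun h => ⌊((dm H : ℝ) + 1) * (2 * Q * x.f h)⌋ % (dm H + 1 : ℤ))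
    (t := Finset.univ.image fun γ : Fin (dm H + 1) => ((γ : ℕ) : ℤ)) (by
      rw [Finset.card_image_of_injective Finset.univ fun a b e => Fin.ext (by exact_mod_cast e),
        Finset.card_univ, Fintype.card_fin]
      exact Nat.lt_succ_of_le (Finset.card_image_le.trans f))
  obtain ⟨γ, -, rfl⟩ := Finset.mem_image.1 g1
  refine ⟨(γ, fun h => cell Q γ (x.f h)), Sm_le (by positivity) le_rfl fun h => ?_⟩
  by_contra n
  refine g2 (Finset.mem_image.2 ⟨h, F.mem_toFinset.2 ⟨?_, ?_⟩, Sm_spoil hQ n⟩)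
  · exact lt_of_le_of_ne (x.nn h) fun e => n (ins_int hQ γ (Or.inl e.symm) le_rfl)
  · exact lt_of_le_of_ne (x.le1 h) fun e => n (ins_int hQ γ (Or.inr e) le_rfl)

theorem Sm_rng (Q : ℕ) (γ : Fin (dm H + 1)) {a : ℝ} (h0 : 0 ≤ a) (h1 : a ≤ 1) :
    -1 ≤ cell Q γ a ∧ cell Q γ a < 2 * Q := by
  have q : (0 : ℝ) ≤ 2 * Q := by positivity
  rw [Sm_cell, Int.le_floor, Int.floor_lt]
  push_cast
  exact ⟨by nlinarith [Sm_off_lt γ], by nlinarith [Sm_off_pos γ]⟩

/-- samples of the points that agree with `z` outside of `R`; cells lie in `[-1, 2 * Q - 1]` -/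
theorem mg_count (hQ : 0 < Q) (z : Pt H) {R : Set H} {N : ℕ} (hR : R.encard ≤ N) :
    {c : Sm H | ∃ x : Pt H, (∀ h, h ∉ R → x.f h = z.f h) ∧ 0 < mg Q c x}.encard ≤
      ((dm H + 1) * (2 * Q + 1) ^ N : ℕ) := by
  classical
  have F : R.Finite := finite_of_encard_le_coe hR
  rw [F.encard_eq_coe_toFinset_card, Nat.cast_le] at hR
  have a : {c : Sm H | ∃ x : Pt H, (∀ h, h ∉ R → x.f h = z.f h) ∧ 0 < mg Q c x} ⊆
      (fun s : Fin (dm H + 1) × (F.toFinset → Fin (2 * Q + 1)) =>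
        ((s.1, fun h => if e : h ∈ F.toFinset then ((s.2 ⟨h, e⟩ : ℕ) : ℤ) - 1
          else cell Q s.1 (z.f h)) : Sm H)) '' univ := by
    rintro c ⟨x, e, m⟩
    have r : ∀ h, -1 ≤ c.2 h ∧ c.2 h < 2 * Q := fun h => by
      rw [mg_cell hQ m]
      exact Sm_rng Q c.1 (x.nn h) (x.le1 h)
    refine ⟨(c.1, fun h => ⟨(c.2 h + 1).toNat, by have := r h; omega⟩), mem_univ _,
      Prod.ext rfl (funext fun k => ?_)⟩
    by_cases b : k ∈ F.toFinset
    · have := r k
      simp only [dif_pos b]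
      omega
    · simp only [dif_neg b]
      rw [mg_cell hQ m, e k fun n => b (F.mem_toFinset.2 n)]
  refine (encard_le_encard a).trans ((encard_image_le _ _).trans ?_)
  rw [encard_univ, ENat.card_eq_coe_fintype_card, Nat.cast_le, Fintype.card_prod,
    Fintype.card_fun, Fintype.card_fin, Fintype.card_fin, Fintype.card_coe]
  exact Nat.mul_le_mul_left _ (Nat.pow_le_pow_right (Nat.succ_pos _) hR)

/-- samples along a straight path (`encard_lt`, `StrM.ge`, `StrM.le`, `mg_count`) -/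
theorem mg_path (hQ : 0 < Q) {W ρ : ℕ} {p : ℕ → Pt H} (h : StrM md W p)
    (hρ : dist (p 0) (p W) ≤ ρ) : {c : Sm H | ∃ j ≤ W, 0 < mg Q c (p j)}.encard ≤
      ((dm H + 1) * (2 * Q + 1) ^ (2 * (dm H * (ρ + 2))) : ℕ) := by
  refine le_trans (encard_le_encard ?_) (mg_count hQ (p 0)
    (R := {k | (p 0).f k < (p W).f k} ∪ {k | (p W).f k < (p 0).f k}) ?_)
  · rintro c ⟨j, hj, m⟩
    refine ⟨p j, fun k n => ?_, m⟩
    have a1 : (p W).f k ≤ (p 0).f k := not_lt.1 fun e => n (Or.inl e)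
    have a2 : (p 0).f k ≤ (p W).f k := not_lt.1 fun e => n (Or.inr e)
    exact le_antisymm (h.le le_rfl a1 hj) (h.ge le_rfl a2 hj)
  · refine (encard_union_le _ _).trans ?_
    rw [two_mul, Nat.cast_add]
    exact add_le_add (encard_lt hρ) (encard_lt (by rwa [dist_comm]))

variable {G : Type} [Group G] [PocAct G H]

instance : MulAction G (Sm H) where
  smul g c := (c.1, fun h => c.2 (g⁻¹ • h))
  one_smul c := Prod.ext rfl (funext fun h => by change c.2 ((1 : G)⁻¹ • h) = _; simp)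
  mul_smul g g' c := Prod.ext rfl (funext fun h => by
    change c.2 ((g * g')⁻¹ • h) = c.2 (g'⁻¹ • g⁻¹ • h)
    rw [mul_inv_rev, mul_smul])

theorem smul_fst (g : G) (c : Sm H) : (g • c).1 = c.1 := rfl

theorem smul_snd (g : G) (c : Sm H) (h : H) : (g • c).2 h = c.2 (g⁻¹ • h) := rfl

theorem mg_smul (g : G) (Q : ℕ) (c : Sm H) (x : Pt H) : mg Q (g • c) (g • x) = mg Q c x := by
  refine congrArg sSup (Set.ext fun μ => and_congr_right fun _ => and_congr_right fun _ => ?_)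
  refine ⟨fun a h => ?_, fun a h => a (g⁻¹ • h)⟩
  have := a (g • h)
  rwa [smul_fst, smul_snd, smul_f, inv_smul_smul] at this

/-- small displacements fix a sample -/
theorem fix_sm {g : G} (h : dist (g • x) x < 1 / (4 * (dm H + 1))) :
    ∃ c : Sm H, 0 < mg 1 c x ∧ g • c = c := by
  obtain ⟨c, e⟩ := mg_big (Q := 1) one_pos x
  rw [Nat.cast_one, mul_one] at e
  have a1 : 0 < mg 1 c x := lt_of_lt_of_le (by positivity) e
  have a2 : 0 < mg 1 c (g • x) := by
    have := Sm_lip 1 c x (g • x)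
    rw [dist_comm] at this
    linarith
  have a3 : 0 < mg 1 (g • c) (g • x) := by rwa [mg_smul]
  refine ⟨c, a1, Prod.ext rfl (funext fun k => ?_)⟩
  rw [mg_cell one_pos a3, mg_cell one_pos a2, smul_fst]

/-- The vertex is `1` at `h` if `c.2 h = 2 * Q - 1` (the cell of `1`), `0` if `c.2 (st h) = 2 * Q - 1`,
and agrees with the base point at the finitely many other `h` (at these `x` is fractional). -/
theorem stab_vx (hQ : 0 < Q) (h : 0 < mg Q c x) : ∃ v : Pt H, v.Vx ∧ dist v x ≤ 1 ∧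
    {w | ∃ g : G, g • c = c ∧ w = g • v}.Finite := by
  classical
  have q : (1 : ℝ) ≤ Q := by exact_mod_cast hQ
  have A1 : ∀ k, c.2 k = 2 * Q - 1 → 1 / 2 < x.f k := fun k e => by
    rw [mg_cell hQ h, Sm_cell, Int.floor_eq_iff] at e
    have a := e.1
    push_cast at a
    by_contra n
    nlinarith [Sm_off_pos c.1, not_lt.1 n]
  have A2 : ∀ k, x.f k = 1 → c.2 k = 2 * Q - 1 := fun k e => by
    rw [mg_cell hQ h, Sm_cell_int c.1 (m := 2 * Q) (by rw [e]; simp)]
  have A3 : ∀ k, c.2 k = 2 * Q - 1 → ¬ c.2 (st k) = 2 * Q - 1 := fun k e e' => by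
    have a := A1 _ e'
    rw [x.cp] at a
    linarith [A1 k e]
  have A4 : ∀ k, x.f k = 0 → ¬ c.2 k = 2 * Q - 1 ∧ c.2 (st k) = 2 * Q - 1 := fun k e =>
    ⟨fun n => by linarith [A1 k n], A2 _ (by rw [x.cp, e, sub_zero])⟩
  have B : (bs H).Vx := fun k => by
    by_cases e : ori k
    exacts [Or.inr (if_pos e), Or.inl (if_neg e)]
  let v : Pt H :=
    { f := fun k => if c.2 k = 2 * Q - 1 then 1 else if c.2 (st k) = 2 * Q - 1 then 0 else (bs H).f k
      nn := fun k => by
        split_ifs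
        exacts [zero_le_one, le_rfl, (bs H).nn k]
      cp := fun k => by
        rw [st_st]
        by_cases e : c.2 k = 2 * Q - 1
        · rw [if_neg (A3 k e), if_pos e, if_pos e, sub_self]
        · by_cases e' : c.2 (st k) = 2 * Q - 1
          · rw [if_pos e', if_neg e, if_pos e', sub_zero]
          · rw [if_neg e', if_neg e, if_neg e, if_neg e', (bs H).cp]
      con := fun {k j} e => by
        rcases x.con e with a | a
        · exact Or.inl (by rw [if_neg (A4 k a).1, if_pos (A4 k a).2])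
        · exact Or.inr (if_pos (A2 j a))
      fin := x.fin.subset fun k a => by
        refine ⟨?_, a.2⟩
        have a1 := a.1
        by_cases e : c.2 k = 2 * Q - 1
        · linarith [A1 k e]
        · rw [if_neg e] at a1
          have : (bs H).f k = 0 := if_neg a.2
          rw [this, ite_self] at a1
          exact absurd a1 (lt_irrefl _) }
  have vf : ∀ k, v.f k = if c.2 k = 2 * Q - 1 then 1 else
      if c.2 (st k) = 2 * Q - 1 then 0 else (bs H).f k := fun _ => rfl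
  have V : v.Vx := fun k => by
    rw [vf]
    split_ifs
    exacts [Or.inr rfl, Or.inl rfl, B k]
  refine ⟨v, V, dist_le fun t ct p => ?_, ?_⟩
  · have fr : ∀ k ∈ t, 0 < x.f k ∧ x.f k < 1 := fun k m =>
      ⟨lt_of_le_of_ne (x.nn k) fun e => by
        have a := p k m
        rw [vf, if_neg (A4 k e.symm).1, if_pos (A4 k e.symm).2] at a
        exact absurd a e.not_gt, (p k m).trans_le (v.le1 k)⟩
    rcases t.eq_empty_or_nonempty with rfl | ⟨m, hm⟩
    · simp
    have e : t = {m} := Finset.eq_singleton_iff_unique_mem.2 ⟨hm, fun k hk => by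
      by_contra n
      rcases ct hk hm n with a | a
      · exact (fr m hm).2.ne (x.up (lt_of_le_of_ne a n) (fr k hk).1)
      · exact (fr k hk).2.ne (x.up (lt_of_le_of_ne a (Ne.symm n)) (fr m hm).1)⟩
    rw [e, Finset.sum_singleton]
    linarith [v.le1 m, x.nn m]
  · have F : {k | 0 < x.f k ∧ x.f k < 1}.Finite := finite_of_encard_le_coe (encard_fr x)
    have off : ∀ g : G, g • c = c → ∀ k, ¬ (0 < x.f k ∧ x.f k < 1) → (g • v).f k = v.f k :=
      fun g e k n => by
        have e1 : ∀ j, c.2 (g⁻¹ • j) = c.2 j := fun j => by rw [← smul_snd, e]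
        rw [smul_f, vf, vf, ← PocAct.smul_st, e1, e1]
        by_cases a : c.2 k = 2 * Q - 1
        · rw [if_pos a, if_pos a]
        · by_cases a' : c.2 (st k) = 2 * Q - 1
          · rw [if_neg a, if_neg a, if_pos a', if_pos a']
          · exact absurd ⟨lt_of_le_of_ne (x.nn k) fun b => a' (A4 k b.symm).2,
              lt_of_le_of_ne (x.le1 k) fun b => a (A2 k b)⟩ n
    refine Finite.of_finite_image
      (f := fun w : Pt H => {k | (0 < x.f k ∧ x.f k < 1) ∧ w.f k = 1})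
      (F.finite_subsets.subset ?_) ?_
    · rintro _ ⟨w, -, rfl⟩
      exact fun k a => a.1
    · rintro _ ⟨g, e, rfl⟩ _ ⟨g', e', rfl⟩ b
      refine Pt.ext (funext fun k => ?_)
      by_cases n : 0 < x.f k ∧ x.f k < 1
      · have b1 : (g • v).f k = 1 ↔ (g' • v).f k = 1 :=
          ⟨fun a => ((Set.ext_iff.1 b k).1 ⟨n, a⟩).2, fun a => ((Set.ext_iff.1 b k).2 ⟨n, a⟩).2⟩
        rcases V (g⁻¹ • k) with a | a
        · rcases V (g'⁻¹ • k) with a' | a'
          · exact a.trans a'.symm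
          · exact (b1.2 a').trans a'.symm
        · exact a.trans (b1.1 a).symm
      · rw [off g e k n, off g' e' k n]

end Pool.Agent.Work.MP_9d1ffa_al.Cu
end

-- merged part: Pool.Agent.Work.MP_9d1ffa_al.Cu.TyA
section
/-! Transfer of straight paths between pairs of points of the same type. -/

namespace Pool.Agent.Work.MP_9d1ffa_al.Cu

open Set

variable {H : Type} [Poc H]

/-- the half spaces that matter for the paths from `a` to `b` -/
def RR (a b : Pt H) : Set H := {h | ¬ (a.f h = 0 ∧ b.f h = 0) ∧ ¬ (a.f h = 1 ∧ b.f h = 1)}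

theorem RR_st {a b : Pt H} {h : H} (e : h ∈ RR a b) : st h ∈ RR a b := by
  simp only [RR, mem_setOf_eq, Pt.cp] at e ⊢
  exact ⟨fun c => e.2 ⟨by linarith [c.1], by linarith [c.2]⟩,
    fun c => e.1 ⟨by linarith [c.1], by linarith [c.2]⟩⟩

/-- `β` matches the pair `a`, `b` with the pair `a'`, `b'` -/
structure Mt (K : ℕ) (a b a' b' : Pt H) (β : H → H) : Prop where
  bij : BijOn β (RR a b) (RR a' b')
  st : ∀ h ∈ RR a b, β (st h) = st (β h)
  lt : ∀ h ∈ RR a b, ∀ k ∈ RR a b, β h < β k ↔ h < k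
  e0 : ∀ h ∈ RR a b, |a.f h - a'.f (β h)| ≤ 1 / (2 * K)
  e1 : ∀ h ∈ RR a b, |b.f h - b'.f (β h)| ≤ 1 / (2 * K)

theorem TyA_off {a b : Pt H} {k : H} (e : k ∉ RR a b) :
    (a.f k = 0 ∧ b.f k = 0) ∨ (a.f k = 1 ∧ b.f k = 1) := by
  by_contra n
  exact e ⟨fun c => n (Or.inl c), fun c => n (Or.inr c)⟩

theorem TyA_st {a b : Pt H} {k : H} (e : k ∉ RR a b) : st k ∉ RR a b := fun c =>
  e (by simpa only [st_st] using RR_st c)

theorem TyA_fin (a b : Pt H) : (RR a b).Finite :=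
  ((a.fin.union b.fin).union (a.fin'.union b.fin')).subset fun h e => by
    by_cases o : ori h
    · refine Or.inr ?_
      by_contra n
      simp only [mem_union, mem_ofPred_eq, o, and_true, not_or, not_lt] at n
      exact e.2 ⟨le_antisymm (a.le1 h) n.1, le_antisymm (b.le1 h) n.2⟩
    · refine Or.inl ?_
      by_contra n
      simp only [mem_union, mem_ofPred_eq, o, not_false_eq_true, and_true, not_or, not_lt] at n
      exact e.1 ⟨le_antisymm n.1 (a.nn h), le_antisymm n.2 (b.nn h)⟩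

theorem TyA_up {a b : Pt H} {k h : H} (e : k < h) (m : h ∈ RR a b) (n : k ∉ RR a b) :
    a.f k = 0 := by
  rcases TyA_off n with c | c
  · exact c.1
  · exact (m.2 ⟨a.up e (by rw [c.1]; exact one_pos), b.up e (by rw [c.2]; exact one_pos)⟩).elim

theorem TyA_const {W j : ℕ} {p : ℕ → Pt H} (h : StrM md W p) (hj : j ≤ W) {k : H}
    (e : k ∉ RR (p 0) (p W)) : (p j).f k = (p 0).f k := by
  rcases TyA_off e with c | c
  · rw [c.1]
    exact le_antisymm (h.le c.1.le c.2.le hj) ((p j).nn k)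
  · rw [c.1]
    exact le_antisymm ((p j).le1 k) (h.ge c.1.ge c.2.ge hj)

section
variable {K : ℕ} {a b a' b' : Pt H} {β : H → H}

/-- the inverse of the matching -/
noncomputable def TyA_inv (a b : Pt H) (β : H → H) (k : H) : H :=
  haveI : Nonempty H := ⟨k⟩
  Function.invFunOn β (RR a b) k

theorem TyA_inv_mem (M : Mt K a b a' b' β) {k : H} (e : k ∈ RR a' b') :
    TyA_inv a b β k ∈ RR a b ∧ β (TyA_inv a b β k) = k :=
  haveI : Nonempty H := ⟨k⟩
  Function.invFunOn_pos (M.bij.surjOn e)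

theorem TyA_inv_left (M : Mt K a b a' b' β) {h : H} (e : h ∈ RR a b) :
    TyA_inv a b β (β h) = h :=
  have c := TyA_inv_mem M (M.bij.mapsTo e)
  M.bij.injOn c.1 e c.2

theorem TyA_inv_lt (M : Mt K a b a' b' β) {k h : H} (e : k ∈ RR a' b') (e' : h ∈ RR a' b')
    (l : k < h) : TyA_inv a b β k < TyA_inv a b β h := by
  have c := TyA_inv_mem M e
  have c' := TyA_inv_mem M e'
  rw [← M.lt _ c.1 _ c'.1, c.2, c'.2]
  exact l

open Classical in
/-- the copy of a point -/
noncomputable def TyA_cp (M : Mt K a b a' b' β) (x : Pt H) : Pt H where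
  f k := if k ∈ RR a' b' then x.f (TyA_inv a b β k) else a'.f k
  nn k := by split_ifs; exacts [x.nn _, a'.nn _]
  cp k := by
    by_cases e : k ∈ RR a' b'
    · have c := TyA_inv_mem M e
      have d : TyA_inv a b β (st k) = st (TyA_inv a b β k) := by
        have := TyA_inv_left M (RR_st c.1)
        rwa [M.st _ c.1, c.2] at this
      rw [if_pos e, if_pos (RR_st e), d, x.cp]
    · rw [if_neg e, if_neg (TyA_st e), a'.cp]
  con {k h} l := by
    by_cases e : k ∈ RR a' b' <;> by_cases e' : h ∈ RR a' b'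
    · rw [if_pos e, if_pos e']
      exact x.con (TyA_inv_lt M e e' l)
    · rw [if_neg e']
      rcases TyA_off e' with c | c
      · exact (e.1 ⟨a'.dn l (by rw [c.1]; exact one_pos),
          b'.dn l (by rw [c.2]; exact one_pos)⟩).elim
      · exact Or.inr c.1
    · rw [if_neg e]
      exact Or.inl (TyA_up l e' e)
    · rw [if_neg e, if_neg e']
      exact a'.con l
  fin := ((TyA_fin a' b').union a'.fin).subset fun k m => by
    by_cases e : k ∈ RR a' b'
    · exact Or.inl e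
    · exact Or.inr ⟨by have := m.1; rwa [if_neg e] at this, m.2⟩

theorem TyA_cp_in (M : Mt K a b a' b' β) (x : Pt H) {k : H} (e : k ∈ RR a' b') :
    (TyA_cp M x).f k = x.f (TyA_inv a b β k) := if_pos e

theorem TyA_cp_out (M : Mt K a b a' b' β) (x : Pt H) {k : H} (e : k ∉ RR a' b') :
    (TyA_cp M x).f k = a'.f k := if_neg e

theorem TyA_cp_map (M : Mt K a b a' b' β) (x : Pt H) {h : H} (e : h ∈ RR a b) :
    (TyA_cp M x).f (β h) = x.f h := by
  rw [TyA_cp_in M x (M.bij.mapsTo e), TyA_inv_left M e]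

theorem TyA_Dp (M : Mt K a b a' b' β) {x : Pt H} (hx : ∀ k, k ∉ RR a b → x.f k = a.f k) {h : H}
    (e : h ∈ RR a b) : Dp (TyA_cp M x) (β h) = Dp x h := by
  have e' := M.bij.mapsTo e
  have k1 : ∀ k ∈ Iio h, 0 < x.f k → k ∈ RR a b := fun k l p => by
    by_contra n
    rw [hx k n, TyA_up l e n] at p
    exact lt_irrefl _ p
  have k2 : ∀ k ∈ Iio (β h), 0 < (TyA_cp M x).f k → k ∈ RR a' b' := fun k l p => by
    by_contra n
    rw [TyA_cp_out M x n, TyA_up l e' n] at p
    exact lt_irrefl _ p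
  refine le_antisymm (ch_le_map (TyA_inv a b β) x.le1 (x.fin_bel h) (fun k l p => ⟨?_, ?_⟩)
    fun k l j l' p p' c => TyA_inv_lt M (k2 k l p) (k2 j l' p') c)
    (ch_le_map β (TyA_cp M x).le1 ((TyA_cp M x).fin_bel (β h)) (fun k l p => ⟨?_, ?_⟩)
      fun k l j l' p p' c => (M.lt _ (k1 k l p) _ (k1 j l' p')).2 c)
  · have := TyA_inv_lt M (k2 k l p) e' l
    rwa [TyA_inv_left M e] at this
  · exact (TyA_cp_in M x (k2 k l p)).le
  · exact (M.lt _ (k1 k l p) _ e).2 l
  · exact (TyA_cp_map M x (k1 k l p)).ge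

theorem TyA_ph (M : Mt K a b a' b' β) {x : Pt H} (hx : ∀ k, k ∉ RR a b → x.f k = a.f k) {h : H}
    (e : h ∈ RR a b) : ph (TyA_cp M x) (β h) = ph x h := by
  unfold ph
  rw [TyA_Dp M hx e, TyA_cp_map M x e, ← M.st h e, TyA_Dp M hx (RR_st e)]

theorem TyA_md (M : Mt K a b a' b' β) {x y : Pt H} (hx : ∀ k, k ∉ RR a b → x.f k = a.f k)
    (hy : ∀ k, k ∉ RR a b → y.f k = a.f k) :
    TyA_cp M (md x y) = md (TyA_cp M x) (TyA_cp M y) := by
  have one : ∀ k, k ∉ RR a' b' → a'.f k = 1 → (md (TyA_cp M x) (TyA_cp M y)).f k = 1 :=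
    fun k e c => le_antisymm (Pt.le1 _ k) (le_sg (by rw [TyA_cp_out M x e, c])
      (by rw [TyA_cp_out M y e, c]) _)
  refine Pt.ext (funext fun k => ?_)
  by_cases e : k ∈ RR a' b'
  · obtain ⟨h, m, rfl⟩ := M.bij.surjOn e
    rw [TyA_cp_map M _ m]
    unfold md
    rw [sg_f, sg_f, TyA_ph M hx m, TyA_ph M hy m]
  · rw [TyA_cp_out M _ e]
    rcases TyA_off e with c | c
    · have := one (st k) (TyA_st e) (by rw [a'.cp, c.1, sub_zero])
      rw [Pt.cp] at this
      linarith [c.1]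
    · rw [one k e c.1, c.1]

theorem TyA_end (hK : 0 < K) (M : Mt K a b a' b' β) {x y : Pt H}
    (e : ∀ h ∈ RR a b, |x.f h - y.f (β h)| ≤ 1 / (2 * K))
    (o : ∀ k, k ∉ RR a' b' → a'.f k = y.f k) : dist (TyA_cp M x) y ≤ 1 / K := by
  have k1 : (1 : ℝ) ≤ K := by exact_mod_cast hK
  have p : (0 : ℝ) ≤ 1 / (2 * K) := by positivity
  refine (dist_le_two p ?_ fun k => ?_).trans_eq (by field_simp)
  · rw [div_lt_one (by positivity)]
    linarith
  by_cases m : k ∈ RR a' b'
  · obtain ⟨h, m', rfl⟩ := M.bij.surjOn m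
    rw [TyA_cp_map M _ m']
    exact (le_abs_self _).trans (e h m')
  · rw [TyA_cp_out M _ m, o k m, sub_self]
    exact p

end

/-- Let `R = RR (p 0) (p W)`, `R' = RR (p' 0) (p' W)`. For `j ≤ W` let `q j` be the point with
`(q j).f (β h) = (p j).f h` on `R` and `(q j).f = (p' 0).f` (values `0`, `1`) outside of `R'`.
If `k < h`, `h ∈ R`, `0 < (p j).f k` then `k ∈ R` (`StrM.ge`, `StrM.le`, `Pt.up`), the same for
`q j` and `R'`; so `ph (q j) (β h) = ph (p j) h` (`ch_le_map` in both directions) and `q` is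
straight (outside of `R'` use `le_sg`). `dist_le_two` at the ends and `IsMd.cvx`. -/
theorem exists_copy {K W : ℕ} (hK : 0 < K) {p p' : ℕ → Pt H} (h : StrM md W p) (h' : StrM md W p')
    {β : H → H} (M : Mt K (p 0) (p W) (p' 0) (p' W) β) :
    ∃ q : ℕ → Pt H, ∀ j ≤ W, dist (q j) (p' j) ≤ 1 / K ∧
      (∀ k ∈ RR (p 0) (p W), (q j).f (β k) = (p j).f k) ∧
      ∀ k, k ∉ RR (p' 0) (p' W) → (q j).f k = (p' 0).f k := by
  have hp : ∀ j ≤ W, ∀ k, k ∉ RR (p 0) (p W) → (p j).f k = (p 0).f k :=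
    fun j hj k e => TyA_const h hj e
  have s : StrM md W fun j => TyA_cp M (p j) := fun j e => by
    beta_reduce
    rw [h j e, TyA_md M (hp j (by omega)) (hp (j + 2) e)]
  have e0 := TyA_end hK M M.e0 fun _ _ => rfl
  have e1 := TyA_end hK M M.e1 fun k e => (TyA_const h' le_rfl e).symm
  refine ⟨fun j => TyA_cp M (p j), fun j hj => ⟨?_, fun k e => TyA_cp_map M _ e,
    fun k e => TyA_cp_out M _ e⟩⟩
  rcases Nat.eq_zero_or_pos W with rfl | hW
  · obtain rfl : j = 0 := by omega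
    exact e0
  refine (isMd.cvx s h' hW hj).trans ?_
  have w : (0 : ℝ) < W := by exact_mod_cast hW
  have w1 : (0 : ℝ) ≤ (W : ℝ) - j := sub_nonneg.2 (by exact_mod_cast hj)
  rw [div_le_iff₀ w]
  nlinarith [mul_le_mul_of_nonneg_left e0 w1,
    mul_le_mul_of_nonneg_left e1 (Nat.cast_nonneg (α := ℝ) j)]

/-- `c'.2 (β k) = c.2 k` on `R`, `c'.2 k = cell Q c.1 ((p' 0).f k)` outside of `R'`; then
`mg Q c (p j) = mg Q c' (q j)` by `ins_int` (outside of `R` the values of `p j` are those of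
`p j0`, they are `0` or `1`, and `mg_cell` applies), and `mg_lip`. -/
theorem transfer {Q K W : ℕ} (hQ : 0 < Q) (hK : 0 < K) {p p' : ℕ → Pt H} (h : StrM md W p)
    (h' : StrM md W p') {β : H → H} (M : Mt K (p 0) (p W) (p' 0) (p' W) β) (c : Sm H) {j0 : ℕ}
    (h0 : j0 ≤ W) (hc : 0 < mg Q c (p j0)) :
    ∃ c', ∀ j ≤ W, |mg Q c (p j) - mg Q c' (p' j)| ≤ 1 / K := by
  classical
  obtain ⟨q, hq⟩ := exists_copy hK h h' M
  let c' : Sm H := (c.1, fun k => if k ∈ RR (p' 0) (p' W) then c.2 (TyA_inv (p 0) (p W) β k)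
    else cell Q c.1 ((p' 0).f k))
  refine ⟨c', fun j hj => ?_⟩
  suffices E : mg Q c (p j) = mg Q c' (q j) by
    rw [E]
    exact (mg_lip Q c' (q j) (p' j)).trans (hq j hj).1
  refine congrArg sSup ?_
  ext μ
  refine and_congr_right fun _ => and_congr_right fun m => ⟨fun a k => ?_, fun a k => ?_⟩
  · by_cases e : k ∈ RR (p' 0) (p' W)
    · obtain ⟨l, m, rfl⟩ := M.bij.surjOn e
      simp only [c', if_pos e, TyA_inv_left M m, (hq j hj).2.1 l m]
      exact a l
    · simp only [c', if_neg e, (hq j hj).2.2 k e]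
      exact ins_int hQ _ ((TyA_off e).imp And.left And.left) m
  · by_cases e : k ∈ RR (p 0) (p W)
    · have := a (β k)
      simp only [c', if_pos (M.bij.mapsTo e), TyA_inv_left M e, (hq j hj).2.1 k e] at this
      exact this
    · rw [mg_cell hQ hc k, TyA_const h h0 e, TyA_const h hj e]
      exact ins_int hQ _ ((TyA_off e).imp And.left And.left) m

end Pool.Agent.Work.MP_9d1ffa_al.Cu
end

-- merged part: Pool.Agent.Work.MP_9d1ffa_al.Cu.TyB
section
/-! There are few types of pairs of points. -/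

namespace Pool.Agent.Work.MP_9d1ffa_al.Cu

open Set Gb

variable {H : Type} [Poc H]

/-- `encard_lt` twice and `encard_fr` -/
theorem encard_RR {a b : Pt H} {ρ : ℕ} (h : dist a b ≤ ρ) :
    (RR a b).encard ≤ (2 * (dm H * (ρ + 2)) + dm H : ℕ) := by
  have h1 := encard_lt h
  have h2 := encard_lt (a := b) (b := a) (ρ := ρ) (by rw [dist_comm]; exact h)
  have h3 := encard_fr a
  have s : RR a b ⊆ ({k | a.f k < b.f k} ∪ {k | b.f k < a.f k}) ∪
      {k | 0 < a.f k ∧ a.f k < 1} := by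
    intro k e
    rcases lt_trichotomy (a.f k) (b.f k) with c | c | c
    · exact Or.inl (Or.inl c)
    · exact Or.inr ⟨lt_of_le_of_ne (a.nn k) fun d => e.1 ⟨d.symm, c.symm.trans d.symm⟩,
        lt_of_le_of_ne (a.le1 k) fun d => e.2 ⟨d, c.symm.trans d⟩⟩
    · exact Or.inl (Or.inr c)
  refine (encard_le_encard s).trans ((encard_union_le _ _).trans ?_)
  refine (add_le_add ((encard_union_le _ _).trans (add_le_add h1 h2)) h3).trans (le_of_eq ?_)
  rw [two_mul, Nat.cast_add, Nat.cast_add]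

omit [Poc H] in
theorem TyB_tr {X Y : Type} {R R' : Set H} {ι ι' : H → X} {P P' : H → Prop} {g g' : H → Y}
    (i' : InjOn ι' R')
    (E : (fun h => (ι h, g h)) '' {h | h ∈ R ∧ P h} = (fun h => (ι' h, g' h)) '' {h | h ∈ R' ∧ P' h})
    {h k : H} (hh : h ∈ R) (hk : k ∈ R') (e : ι' k = ι h) (p : P h) : P' k ∧ g' k = g h := by
  have m : (ι h, g h) ∈ (fun h => (ι' h, g' h)) '' {h | h ∈ R' ∧ P' h} := by
    rw [← E]
    exact ⟨h, ⟨hh, p⟩, rfl⟩
  obtain ⟨j, ⟨j1, j2⟩, j3⟩ := m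
  obtain rfl : j = k := i' j1 hk ((congrArg Prod.fst j3).trans e.symm)
  exact ⟨j2, congrArg Prod.snd j3⟩

/-- rounding -/
noncomputable def TyB_fl (K : ℕ) (x : ℝ) : Fin (2 * K + 1) :=
  ⟨min ⌊2 * K * x⌋₊ (2 * K), Nat.lt_succ_of_le (min_le_right _ _)⟩

theorem TyB_fl_eq {K : ℕ} (hK : 0 < K) {x y : ℝ} (x0 : 0 ≤ x) (x1 : x ≤ 1) (y0 : 0 ≤ y)
    (y1 : y ≤ 1) (e : TyB_fl K x = TyB_fl K y) : |x - y| ≤ 1 / (2 * K) := by
  have k0 : (0 : ℝ) < 2 * K := by positivity
  have le : ∀ z : ℝ, z ≤ 1 → ⌊2 * K * z⌋₊ ≤ 2 * K := fun z z1 =>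
    Nat.floor_le_of_le (by push_cast; nlinarith)
  have e1 : ⌊2 * K * x⌋₊ = ⌊2 * K * y⌋₊ := by
    have := congrArg Fin.val e
    simp only [TyB_fl] at this
    rwa [min_eq_left (le x x1), min_eq_left (le y y1)] at this
  have a1 := Nat.floor_le (mul_nonneg k0.le x0)
  have a2 := Nat.floor_le (mul_nonneg k0.le y0)
  have a3 := Nat.lt_floor_add_one (2 * K * x)
  have a4 := Nat.lt_floor_add_one (2 * K * y)
  rw [e1] at a1 a3
  rw [le_div_iff₀ k0, ← abs_of_pos k0, ← abs_mul, abs_le]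
  constructor <;> nlinarith

/-- the indices with value one -/
def TyB_on {X : Type} (ι : H → X) (R : Set H) (a : Pt H) : Set (X × Unit) :=
  (fun h => (ι h, ())) '' {h | h ∈ R ∧ a.f h = 1}

/-- the indices with a fractional value, with the rounded value -/
def TyB_fr {X : Type} (K : ℕ) (ι : H → X) (R : Set H) (a : Pt H) : Set (X × Fin (2 * K + 1)) :=
  (fun h => (ι h, TyB_fl K (a.f h))) '' {h | h ∈ R ∧ (0 < a.f h ∧ a.f h < 1)}

theorem TyB_fr_le {X : Type} (K : ℕ) (ι : H → X) (R : Set H) (a : Pt H) :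
    (TyB_fr K ι R a).encard ≤ (dm H : ℕ) :=
  (encard_image_le _ _).trans ((encard_le_encard fun _ e => e.2).trans (encard_fr a))

theorem TyB_val {X : Type} {K : ℕ} (hK : 0 < K) {R R' : Set H} {ι ι' : H → X} {a a' : Pt H}
    (i : InjOn ι R) (i' : InjOn ι' R') (E1 : TyB_on ι R a = TyB_on ι' R' a')
    (E2 : TyB_fr K ι R a = TyB_fr K ι' R' a') {h k : H} (hh : h ∈ R) (hk : k ∈ R')
    (e : ι' k = ι h) : |a.f h - a'.f k| ≤ 1 / (2 * K) := by
  have k0 : (0 : ℝ) ≤ 1 / (2 * K) := by positivity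
  rcases (a.le1 h).eq_or_lt with c | c
  · rw [c, (TyB_tr i' E1 hh hk e c).1]
    simp
  rcases (a.nn h).eq_or_lt with d | d
  · rcases (a'.le1 k).eq_or_lt with c' | c'
    · exact absurd (TyB_tr i E1.symm hk hh e.symm c').1 c.ne
    rcases (a'.nn k).eq_or_lt with d' | d'
    · rw [← d, ← d']
      simp
    · exact absurd (TyB_tr i E2.symm hk hh e.symm ⟨d', c'⟩).1.1 (by rw [← d]; exact lt_irrefl _)
  · exact TyB_fl_eq hK (a.nn h) (a.le1 h) (a'.nn k) (a'.le1 k)
      (TyB_tr i' E2 hh hk e ⟨d, c⟩).2.symm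

/-- the graph of the involution -/
def TyB_st {X : Type} (ι : H → X) (R : Set H) : Set (X × X) :=
  (fun h => (ι h, ι (st h))) '' {h | h ∈ R ∧ True}

/-- the graph of the order -/
def TyB_lt {X : Type} (ι : H → X) (R : Set H) : Set (X × X) :=
  (fun p : H × H => (ι p.1, ι p.2)) '' {p | p.1 ∈ R ∧ p.2 ∈ R ∧ p.1 < p.2}

theorem TyB_ltr {X : Type} {R R' : Set H} {ι ι' : H → X} (i' : InjOn ι' R')
    (E : TyB_lt ι R = TyB_lt ι' R') {h k h' k' : H} (hh : h ∈ R) (hk : k ∈ R) (hh' : h' ∈ R')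
    (hk' : k' ∈ R') (e1 : ι' h' = ι h) (e2 : ι' k' = ι k) (l : h < k) : h' < k' := by
  have m : (ι h, ι k) ∈ TyB_lt ι' R' := by
    rw [← E]
    exact ⟨(h, k), ⟨hh, hk, l⟩, rfl⟩
  obtain ⟨⟨x, y⟩, ⟨j1, j2, j3⟩, j4⟩ := m
  obtain rfl : x = h' := i' j1 hh' ((congrArg Prod.fst j4).trans e1.symm)
  obtain rfl : y = k' := i' j2 hk' ((congrArg Prod.snd j4).trans e2.symm)
  exact j3

theorem TyB_mt {X : Type} {K : ℕ} (hK : 0 < K) {ι ι' : H → X} {a b a' b' : Pt H}
    (i : InjOn ι (RR a b)) (i' : InjOn ι' (RR a' b'))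
    (S : TyB_st ι (RR a b) = TyB_st ι' (RR a' b')) (L : TyB_lt ι (RR a b) = TyB_lt ι' (RR a' b'))
    (A1 : TyB_on ι (RR a b) a = TyB_on ι' (RR a' b') a')
    (B1 : TyB_on ι (RR a b) b = TyB_on ι' (RR a' b') b')
    (A2 : TyB_fr K ι (RR a b) a = TyB_fr K ι' (RR a' b') a')
    (B2 : TyB_fr K ι (RR a b) b = TyB_fr K ι' (RR a' b') b') : ∃ β, Mt K a b a' b' β := by
  classical
  have ex : ∀ h, ∃ k, h ∈ RR a b → k ∈ RR a' b' ∧ ι' k = ι h := fun h => by
    by_cases hh : h ∈ RR a b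
    · have m : (ι h, ι (st h)) ∈ TyB_st ι' (RR a' b') := by
        rw [← S]
        exact ⟨h, ⟨hh, trivial⟩, rfl⟩
      obtain ⟨j, ⟨j1, -⟩, j3⟩ := m
      exact ⟨j, fun _ => ⟨j1, congrArg Prod.fst j3⟩⟩
    · exact ⟨h, fun c => absurd c hh⟩
  choose β hβ using ex
  refine ⟨β, ⟨fun h hh => (hβ h hh).1, fun h hh k hk e => i hh hk ?_, fun k hk => ?_⟩,
    fun h hh => ?_, fun h hh k hk => ⟨fun l => ?_, fun l => ?_⟩, fun h hh => ?_, fun h hh => ?_⟩
  · rw [← (hβ h hh).2, ← (hβ k hk).2, e]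
  · have m : (ι' k, ι' (st k)) ∈ TyB_st ι (RR a b) := by
      rw [S]
      exact ⟨k, ⟨hk, trivial⟩, rfl⟩
    obtain ⟨j, ⟨j1, -⟩, j3⟩ := m
    exact ⟨j, j1, i' (hβ j j1).1 hk ((hβ j j1).2.trans (congrArg Prod.fst j3))⟩
  · refine i' (hβ _ (RR_st hh)).1 (RR_st (hβ h hh).1) ?_
    rw [(hβ _ (RR_st hh)).2]
    exact (TyB_tr i' S hh (hβ h hh).1 (hβ h hh).2 trivial).2.symm
  · exact TyB_ltr i L.symm (hβ h hh).1 (hβ k hk).1 hh hk (hβ h hh).2.symm (hβ k hk).2.symm l
  · exact TyB_ltr i' L hh hk (hβ h hh).1 (hβ k hk).1 (hβ h hh).2 (hβ k hk).2 l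
  · exact TyB_val hK i i' A1 A2 hh (hβ h hh).1 (hβ h hh).2
  · exact TyB_val hK i i' B1 B2 hh (hβ h hh).1 (hβ h hh).2

omit [Poc H] in
theorem TyB_inj (M : ℕ) (R : Set H) : ∃ ι : H → Fin (M + 1), R.encard ≤ M → InjOn ι R := by
  by_cases h : R.encard ≤ M
  · obtain ⟨f, -, e⟩ := (finite_of_encard_le_coe h).exists_injOn_of_encard_le
      (t := (univ : Set (Fin (M + 1)))) (h.trans (by
        rw [encard_univ, ENat.card_eq_coe_fintype_card, Fintype.card_fin]
        exact_mod_cast Nat.le_succ M))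
    exact ⟨f, fun _ => e⟩
  · exact ⟨fun _ => 0, fun c => absurd c h⟩

theorem TyB_code (M K : ℕ) (hK : 0 < K) : ∃ cd : Pt H → Pt H → ℕ,
    (∀ a b, cd a b < 2 ^ ((M + 1) * (M + 1)) * (2 ^ ((M + 1) * (M + 1)) * (2 ^ (M + 1) * 2 ^ (M + 1))) *
      (4 * (M + 1)) ^ (2 * dm H) * K ^ (2 * dm H)) ∧
    ∀ a b a' b' : Pt H, (RR a b).encard ≤ M → (RR a' b').encard ≤ M →
      cd a b = cd a' b' → ∃ β, Mt K a b a' b' β := by
  classical
  choose ι hι using TyB_inj (H := H) M
  obtain ⟨c, c1, c2⟩ := code_sets (Fin (M + 1) × Fin (2 * K + 1)) (dm H)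
  let N := (Fintype.card (Fin (M + 1) × Fin (2 * K + 1)) + 1) ^ dm H
  let T := (Set (Fin (M + 1) × Fin (M + 1)) × Set (Fin (M + 1) × Fin (M + 1)) ×
    Set (Fin (M + 1) × Unit) × Set (Fin (M + 1) × Unit)) × Fin N × Fin N
  let F : Pt H → Pt H → T := fun a b =>
    ((TyB_st (ι (RR a b)) (RR a b), TyB_lt (ι (RR a b)) (RR a b), TyB_on (ι (RR a b)) (RR a b) a,
      TyB_on (ι (RR a b)) (RR a b) b), ⟨c (TyB_fr K (ι (RR a b)) (RR a b) a), c1 _⟩,
      ⟨c (TyB_fr K (ι (RR a b)) (RR a b) b), c1 _⟩)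
  refine ⟨fun a b => Fintype.equivFin T (F a b), fun a b => ?_, fun a b a' b' h h' e => ?_⟩
  · refine (Fintype.equivFin T (F a b)).2.trans_le ?_
    have n : N ≤ (4 * (M + 1) * K) ^ dm H := by
      refine Nat.pow_le_pow_left ?_ _
      rw [Fintype.card_prod, Fintype.card_fin, Fintype.card_fin]
      nlinarith [Nat.zero_le M, Nat.mul_le_mul_left M hK]
    have t : Fintype.card T = 2 ^ ((M + 1) * (M + 1)) * (2 ^ ((M + 1) * (M + 1)) *
        (2 ^ (M + 1) * 2 ^ (M + 1))) * (N * N) := by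
      simp only [T, Fintype.card_prod, Fintype.card_set, Fintype.card_fin, Fintype.card_unit, mul_one]
    rw [t, mul_assoc _ ((4 * (M + 1)) ^ (2 * dm H)), ← mul_pow (4 * (M + 1)) K, two_mul (dm H),
      pow_add (4 * (M + 1) * K)]
    exact Nat.mul_le_mul_left _ (Nat.mul_le_mul n n)
  · have e1 : F a b = F a' b' := (Fintype.equivFin T).injective (Fin.ext e)
    exact TyB_mt hK (hι _ h) (hι _ h') (congrArg (fun x : T => x.1.1) e1)
      (congrArg (fun x : T => x.1.2.1) e1) (congrArg (fun x : T => x.1.2.2.1) e1)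
      (congrArg (fun x : T => x.1.2.2.2) e1)
      (c2 _ _ (TyB_fr_le _ _ _ _) (TyB_fr_le _ _ _ _) (congrArg (fun x : T => x.2.1.val) e1))
      (c2 _ _ (TyB_fr_le _ _ _ _) (TyB_fr_le _ _ _ _) (congrArg (fun x : T => x.2.2.val) e1))

/-- Enumerate `RR a b` by `Fin r`, `r ≤ M = 2 * (dm H * (ρ + 2)) + dm H`. The code consists of `r`,
of `st` and `<` transported to `Fin M`, and for each of `a`, `b` of the set of the indices where the
value is `1` and of the set of the pairs `(i, ⌊2 * K * value⌋₊)` for the at most `dm H` indices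
with a fractional value (`encard_fr`, `Gb.code_sets (Fin M × Fin (2 * K + 1)) (dm H)`, and
`M * (2 * K + 1) + 1 ≤ 3 * (M + 1) * K`). -/
theorem exists_code : ∃ Us : ℕ → ℕ, El Us ∧ ∀ ρ K : ℕ, 0 < K → ∃ cd : Pt H → Pt H → ℕ,
    (∀ a b, cd a b < Us ρ * K ^ (2 * dm H)) ∧ ∀ a b a' b' : Pt H, dist a b ≤ ρ → dist a' b' ≤ ρ →
      cd a b = cd a' b' → ∃ β, Mt K a b a' b' β := by
  have m : El fun ρ => 2 * (dm H * (ρ + 2)) + dm H + 1 :=
    (((El.const 2).mul ((El.const (dm H)).mul (El.id.add (El.const 2)))).add (El.const (dm H))).add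
      (El.const 1)
  refine ⟨_, ((m.mul m).two_pow.mul ((m.mul m).two_pow.mul (m.two_pow.mul m.two_pow))).mul
    (((El.const 4).mul m).pow (El.const (2 * dm H))), fun ρ K hK => ?_⟩
  obtain ⟨cd, c1, c2⟩ := TyB_code (H := H) (2 * (dm H * (ρ + 2)) + dm H) K hK
  exact ⟨cd, c1, fun a b a' b' h h' e => c2 a b a' b' (encard_RR h) (encard_RR h') e⟩

end Pool.Agent.Work.MP_9d1ffa_al.Cu
end

-- merged part: Pool.Agent.Work.MP_9d1ffa_al.Cu.Ln
section
/-! Almost translations along a long path for acylindrical actions. -/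

namespace Pool.Agent.Work.MP_9d1ffa_al.Cu

open Set

variable {G X : Type} [Group G] [MetricSpace X] [MulAction G X]

/-- pairs of points at distance at least `D` -/
def far (iso : ∀ (g : G) (x y : X), dist (g • x) (g • y) = dist x y) (D : ℕ) :
    SubMulAction G (X × X) where
  carrier := {p | (D : ℝ) ≤ dist p.1 p.2}
  smul_mem' g p h := by
    change (D : ℝ) ≤ dist (g • p.1) (g • p.2)
    rwa [iso]

theorem line_pair (iso : ∀ (g : G) (x y : X), dist (g • x) (g • y) = dist x y) {c0 : ℝ}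
    (c00 : 0 < c0) {D : ℕ} (disc : ∀ (g : G) (x y : X), (D : ℝ) ≤ dist x y →
      dist (g • x) x ≤ c0 → dist (g • y) y ≤ c0 → g = 1) (q : ℕ) {Γ : ℕ} (hΓ : 0 < Γ) :
    ∃ Q J : ℕ, 8 * Γ ≤ Q ∧ q + 1 ≤ J ∧ ∀ Y : ℕ, 0 < Y → ∀ (s : ℕ → X) (v : ℝ),
      1 / ((Γ : ℝ) * Y) ≤ v → v ≤ 1 / Y →
      (∀ i ≤ J * Y, ∀ j ≤ J * Y, dist (s i) (s j) = |(i : ℝ) - j| * v) →
      ∃ a : G, ∀ (g : G) (τ : ℤ), |τ| ≤ q * Y + 1 → (∀ l l' : ℕ, l ≤ J * Y → l' ≤ J * Y →
        (l' : ℤ) = l + τ → dist (g • s l) (s l') ≤ 2 / Q) → g ∈ Subgroup.zpowers a := by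
  obtain ⟨A, hA⟩ := exists_nat_gt (4 * (q + 1) / c0)
  obtain ⟨Q, hQ⟩ := exists_nat_gt (8 * Γ + 8 * 3 ^ A / c0)
  have p1 : (0 : ℝ) < 8 * 3 ^ A / c0 := by positivity
  have p2 : (0 : ℝ) < Γ := by exact_mod_cast hΓ
  have Q0 : (0 : ℝ) < Q := by linarith
  refine ⟨Q, 2 * 3 ^ A * (q + 1) + D * Γ, by exact_mod_cast (by linarith : 8 * (Γ : ℝ) ≤ Q),
    (Nat.le_mul_of_pos_left _ (by positivity)).trans (Nat.le_add_right _ _),
    fun Y hY s v v0 v1 hs => ?_⟩
  have Y0 : (0 : ℝ) < Y := by exact_mod_cast hY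
  have v2 : 0 ≤ v := le_trans (by positivity) v0
  obtain ⟨J, hJ⟩ : ∃ J, J = 2 * 3 ^ A * (q + 1) * Y := ⟨_, rfl⟩
  obtain ⟨L, hL⟩ : ∃ L, L = D * Γ * Y := ⟨_, rfl⟩
  rw [add_mul, ← hJ, ← hL] at hs ⊢
  have fr : ∀ l ≤ J, (s l, s (l + L)) ∈ far iso D := fun l hl => by
    change (D : ℝ) ≤ dist (s l) (s (l + L))
    rw [hs _ (by omega) _ (by omega), Nat.cast_add, sub_add_cancel_left, abs_neg, Nat.abs_cast, hL]
    rw [div_le_iff₀ (by positivity)] at v0
    push_cast
    nlinarith [Nat.cast_nonneg (α := ℝ) D]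
  let t : ℤ → far iso D := fun l => ⟨_, fr (min l.toNat J) (min_le_right _ _)⟩
  have ht : ∀ l : ℕ, l ≤ J → (t l).1 = (s l, s (l + L)) := fun l hl => by
    simp only [t, Int.toNat_natCast, min_eq_left hl]
  obtain ⟨a, ha⟩ := Gb.cyc_of_path (G := G) (X := far iso D) (c0 := c0)
    (fun g x y => congrArg₂ max (iso g _ _) (iso g _ _))
    (fun g x h => disc g _ _ x.2 (max_le_iff.1 h).1 (max_le_iff.1 h).2) t (J := J)
    (r := q * Y + 1) (A := A) (v := v) (b := 2 / Q) (fun i j a b c d => by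
      lift i to ℕ using a
      lift j to ℕ using c
      rw [Subtype.dist_eq, ht i (by omega), ht j (by omega), Prod.dist_eq,
        hs _ (by omega) _ (by omega), hs _ (by omega) _ (by omega)]
      push_cast
      rw [add_sub_add_right_eq_sub, max_self]) v2 (by positivity) (by
      rw [div_lt_iff₀ c00] at hA
      rw [le_div_iff₀ Y0] at v1
      have : (1 : ℝ) ≤ Y := by exact_mod_cast hY
      push_cast
      nlinarith [Nat.cast_nonneg (α := ℝ) q]) (by
      have : 8 * 3 ^ A / c0 ≤ Q := by linarith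
      rw [div_le_iff₀ c00] at this
      rw [← mul_div_assoc, div_le_iff₀ Q0]
      linarith) (by
      rw [hJ, mul_assoc _ (q + 1)]
      exact Nat.mul_le_mul_left _ (by nlinarith))
  refine ⟨a, fun g τ h1 h2 => ha g τ (by exact_mod_cast h1) fun l x y => ?_⟩
  have h3 := abs_le.1 h1
  push_cast at x y
  obtain ⟨l', e⟩ : ∃ l' : ℕ, (l' : ℤ) = l + τ := ⟨(l + τ).toNat, by omega⟩
  lift l to ℕ using (by nlinarith [Int.natCast_nonneg q, Int.natCast_nonneg Y])
  have b1 : l ≤ J := by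
    have := Int.natCast_nonneg (q * Y)
    push_cast at this
    omega
  rw [← e, Subtype.dist_eq, ht l' (by omega), SubMulAction.val_smul, ht l b1]
  exact max_le (h2 _ _ (by omega) (by omega) e) (h2 _ _ (by omega) (by omega) (by omega))

end Pool.Agent.Work.MP_9d1ffa_al.Cu
end

-- merged part: Pool.Agent.Work.MP_9d1ffa_al.Cu.MgA
section
/-! Median graphs and their half spaces. -/

namespace Pool.Agent.Work.MP_9d1ffa_al.Cu

open Set

variable {V : Type}

/-- `z` lies on a geodesic from `x` to `y` -/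
def Btw (Γ : SimpleGraph V) (x y z : V) : Prop := Γ.dist x z + Γ.dist z y = Γ.dist x y

/-- median graphs: connected graphs in which every three vertices have a unique median -/
def IsMedian (Γ : SimpleGraph V) : Prop :=
  Γ.Connected ∧ ∀ x y z, ∃! m, Btw Γ x y m ∧ Btw Γ y z m ∧ Btw Γ x z m

/-- the graph contains a cube of dimension `n` -/
def HasCube (Γ : SimpleGraph V) (n : ℕ) : Prop :=
  ∃ f : (Fin n → Bool) → V, Function.Injective f ∧
    ∀ s i, Γ.Adj (f s) (f (Function.update s i (!s i)))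

/-- the half space of an oriented edge -/
def hs (Γ : SimpleGraph V) (a b : V) : Set V := {x | Γ.dist x a < Γ.dist x b}

/-- half spaces -/
def IsHs (Γ : SimpleGraph V) (h : Set V) : Prop := ∃ a b, Γ.Adj a b ∧ h = hs Γ a b

variable {Γ : SimpleGraph V} {a b u v x y z : V} {h : Set V}

theorem MgA_one (e : Γ.Adj a b) : Γ.dist a b = 1 := SimpleGraph.dist_eq_one_iff_adj.2 e

theorem MgA_comm (x y : V) : Γ.dist x y = Γ.dist y x := SimpleGraph.dist_comm

theorem MgA_self (x : V) : Γ.dist x x = 0 := SimpleGraph.dist_self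

theorem MgA_zero (M : IsMedian Γ) (e : Γ.dist x y = 0) : x = y := M.1.dist_eq_zero_iff.1 e

theorem MgA_tri (M : IsMedian Γ) (x y z : V) : Γ.dist x z ≤ Γ.dist x y + Γ.dist y z :=
  M.1.dist_triangle

theorem MgA_left (e : Γ.Adj a b) : a ∈ hs Γ a b := by
  show Γ.dist a a < Γ.dist a b
  rw [MgA_self, MgA_one e]
  exact Nat.one_pos

theorem MgA_right : b ∉ hs Γ a b := by
  show ¬Γ.dist b a < Γ.dist b b
  rw [MgA_self]
  exact Nat.not_lt_zero _

/-- the median of `x`, `a`, `b` is `a` or `b` -/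
theorem IsMedian.step (M : IsMedian Γ) (e : Γ.Adj a b) (x : V) :
    Γ.dist x a + 1 = Γ.dist x b ∨ Γ.dist x b + 1 = Γ.dist x a := by
  obtain ⟨m, ⟨h1, h2, h3⟩, -⟩ := M.2 x a b
  unfold Btw at h1 h2 h3
  have e1 := MgA_one e
  have e2 := MgA_one e.symm
  by_cases k : Γ.dist a m = 0
  · obtain rfl := MgA_zero M k
    omega
  · obtain rfl : m = b := MgA_zero M (by omega)
    omega

theorem IsMedian.compl (M : IsMedian Γ) (e : Γ.Adj a b) : (hs Γ a b)ᶜ = hs Γ b a := by
  ext x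
  have := M.step e x
  show ¬Γ.dist x a < Γ.dist x b ↔ Γ.dist x b < Γ.dist x a
  omega

theorem IsMedian.isHs_compl (M : IsMedian Γ) (k : IsHs Γ h) : IsHs Γ hᶜ := by
  obtain ⟨a, b, e, rfl⟩ := k
  exact ⟨b, a, e.symm, M.compl e⟩

theorem IsHs.nonempty (k : IsHs Γ h) : h.Nonempty := by
  obtain ⟨a, b, e, rfl⟩ := k
  exact ⟨a, MgA_left e⟩

/-- a neighbour of `x` that is closer to `y` -/
theorem IsMedian.next (M : IsMedian Γ) (e : x ≠ y) :
    ∃ z, Γ.Adj x z ∧ Γ.dist z y + 1 = Γ.dist x y := by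
  obtain ⟨p, hp⟩ := M.1.exists_walk_length_eq_dist x y
  cases p with
  | nil => exact absurd rfl e
  | @cons _ z _ k q =>
    have h1 := SimpleGraph.dist_le q
    have h2 := MgA_tri M x z y
    have h3 := MgA_one k
    rw [SimpleGraph.Walk.length_cons] at hp
    exact ⟨z, k, by omega⟩

theorem MgA_two (M : IsMedian Γ) (e : Γ.Adj x y) (e' : Γ.Adj y z) (k : x ≠ z) :
    Γ.dist x z = 2 := by
  have h1 := M.step e' x
  have h2 := MgA_one e
  have h3 : Γ.dist x z ≠ 0 := fun h => k (MgA_zero M h)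
  omega

theorem MgA_sq_sub (M : IsMedian Γ) {a' b' : V} (e1 : Γ.Adj a b) (e2 : Γ.Adj b b')
    (e3 : Γ.Adj a' b') (e4 : Γ.Adj a a') (n1 : a' ≠ b) (n2 : a ≠ b') :
    hs Γ a b ⊆ hs Γ a' b' := by
  intro x hx
  by_contra hc
  change Γ.dist x a < Γ.dist x b at hx
  change ¬Γ.dist x a' < Γ.dist x b' at hc
  have s1 := M.step e1 x
  have s2 := M.step e2 x
  have s3 := M.step e3 x
  have s4 := M.step e4 x
  have d := MgA_two M e4.symm e1 n1
  have d1 := MgA_one e1
  have d2 := MgA_one e2.symm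
  have d3 := MgA_one e3
  have d4 := MgA_one e3.symm
  have d5 := MgA_one e4
  have d6 := MgA_one e4.symm
  refine n2 ((M.2 x a' b).unique ⟨?_, ?_, ?_⟩ ⟨?_, ?_, ?_⟩) <;> unfold Btw <;> omega

theorem MgA_sq (M : IsMedian Γ) {a' b' : V} (e1 : Γ.Adj a b) (e2 : Γ.Adj b b')
    (e3 : Γ.Adj a' b') (e4 : Γ.Adj a a') (n1 : a' ≠ b) (n2 : a ≠ b') :
    hs Γ a b = hs Γ a' b' :=
  (MgA_sq_sub M e1 e2 e3 e4 n1 n2).antisymm (MgA_sq_sub M e3 e2.symm e1 e4.symm n2 n1)

/-- Induction on `Γ.dist a u`: let `a'` be a neighbour of `a` that is closer to `u` and `b'` the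
median of `a'`, `b`, `v`; then `a b b' a'` is a square, and `hs Γ a b = hs Γ a' b'` for squares by
the uniqueness of the medians of `x`, `a'`, `b` and of `x`, `a`, `b'`. -/
theorem IsMedian.eq_hs (M : IsMedian Γ) (k : IsHs Γ h) (e : Γ.Adj u v) (hu : u ∈ h) (hv : v ∉ h) :
    h = hs Γ u v := by
  obtain ⟨a, b, k, rfl⟩ := k
  induction hn : Γ.dist a u generalizing a b with
  | zero =>
    obtain rfl := MgA_zero M hn
    change ¬Γ.dist v a < Γ.dist v b at hv
    have s1 := M.step k v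
    have d1 := MgA_one e.symm
    obtain rfl : v = b := MgA_zero M (by omega)
    rfl
  | succ n ih =>
    have ne : a ≠ u := by
      rintro rfl
      rw [MgA_self] at hn
      omega
    obtain ⟨a', k1, k2⟩ := M.next ne
    have hu' : Γ.dist u a < Γ.dist u b := hu
    have hv' : ¬Γ.dist v a < Γ.dist v b := hv
    have s1 := M.step k u
    have s2 := M.step k v
    have s3 := M.step e a
    have s4 := M.step e b
    have s5 := M.step e a'
    have s6 := M.step k1 v
    have c1 := MgA_comm (Γ := Γ) u a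
    have c2 := MgA_comm (Γ := Γ) u b
    have c3 := MgA_comm (Γ := Γ) v a
    have c4 := MgA_comm (Γ := Γ) v b
    have c5 := MgA_comm (Γ := Γ) v a'
    have n1 : a' ≠ b := by
      rintro rfl
      omega
    have d := MgA_two M k1.symm k n1
    obtain ⟨b', ⟨h1, h2, h3⟩, -⟩ := M.2 a' b v
    unfold Btw at h1 h2 h3
    have c6 := MgA_comm (Γ := Γ) b b'
    have e2 : Γ.Adj b b' := SimpleGraph.dist_eq_one_iff_adj.1 (by omega)
    have e3 : Γ.Adj a' b' := SimpleGraph.dist_eq_one_iff_adj.1 (by omega)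
    have n2 : a ≠ b' := by
      rintro rfl
      omega
    have q := MgA_sq M k e2 e3 k1 n1 n2
    rw [q] at hu hv ⊢
    exact ih a' b' e3 hu hv (by omega)

/-- half spaces are convex -/
theorem IsMedian.convex (M : IsMedian Γ) (k : IsHs Γ h) (hx : x ∈ h) (hy : y ∈ h)
    (e : Btw Γ x y z) : z ∈ h := by
  unfold Btw at e
  induction hn : Γ.dist x z generalizing x with
  | zero => exact MgA_zero M hn ▸ hx
  | succ n ih =>
    have ne : x ≠ z := by
      rintro rfl
      rw [MgA_self] at hn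
      omega
    obtain ⟨x', k1, k2⟩ := M.next ne
    have t1 := MgA_tri M x' z y
    have t2 := MgA_tri M x x' y
    have d := MgA_one k1
    by_cases hx' : x' ∈ h
    · exact ih hx' (by omega) (by omega)
    · rw [M.eq_hs k k1 hx hx'] at hy
      change Γ.dist y x < Γ.dist y x' at hy
      rw [MgA_comm y, MgA_comm y] at hy
      omega

theorem IsMedian.sep_le (M : IsMedian Γ) (x y : V) :
    {h | IsHs Γ h ∧ x ∈ h ∧ y ∉ h}.encard ≤ Γ.dist x y := by
  induction hn : Γ.dist x y generalizing x with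
  | zero =>
    obtain rfl := MgA_zero M hn
    rw [eq_empty_of_forall_notMem (s := {h | IsHs Γ h ∧ x ∈ h ∧ x ∉ h})
      fun h k => k.2.2 k.2.1, encard_empty]
    exact zero_le
  | succ n ih =>
    have ne : x ≠ y := by
      rintro rfl
      rw [MgA_self] at hn
      omega
    obtain ⟨x', k1, k2⟩ := M.next ne
    have s : {h | IsHs Γ h ∧ x ∈ h ∧ y ∉ h} ⊆
        insert (hs Γ x x') {h | IsHs Γ h ∧ x' ∈ h ∧ y ∉ h} := by
      rintro h ⟨h1, h2, h3⟩
      by_cases hx' : x' ∈ h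
      · exact Or.inr ⟨h1, hx', h3⟩
      · exact Or.inl (M.eq_hs h1 k1 h2 hx')
    refine (encard_le_encard s).trans ((encard_insert_le _ _).trans ?_)
    rw [Nat.cast_succ]
    exact add_le_add (ih x' (by omega)) le_rfl

theorem MgA_far (e : Γ.dist z y + 1 = Γ.dist x y) : y ∉ hs Γ x z := by
  show ¬Γ.dist y x < Γ.dist y z
  rw [MgA_comm y, MgA_comm y]
  omega

theorem IsMedian.eq_of (M : IsMedian Γ) (e : ∀ h, IsHs Γ h → x ∈ h → y ∈ h) : x = y := by
  by_contra ne
  obtain ⟨z, k1, k2⟩ := M.next ne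
  exact MgA_far k2 (e _ ⟨x, z, k1, rfl⟩ (MgA_left k1))

theorem IsMedian.adj_of (M : IsMedian Γ) (e : x ≠ y)
    (e' : {h | IsHs Γ h ∧ x ∈ h ∧ y ∉ h}.Subsingleton) : Γ.Adj x y := by
  obtain ⟨z, k1, k2⟩ := M.next e
  by_cases ne : z = y
  · exact ne ▸ k1
  obtain ⟨w, k3, k4⟩ := M.next ne
  have h1 : x ∈ hs Γ z w := by
    show Γ.dist x z < Γ.dist x w
    have := MgA_tri M x w y
    have := MgA_one k1
    omega
  have h2 : hs Γ x z = hs Γ z w :=
    e' ⟨⟨x, z, k1, rfl⟩, MgA_left k1, MgA_far k2⟩ ⟨⟨z, w, k3, rfl⟩, h1, MgA_far k4⟩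
  exact absurd (h2 ▸ MgA_left k3) MgA_right

/-- a neighbour of `x` that is closer to all points of `h` -/
theorem MgA_gate (M : IsMedian Γ) (k : IsHs Γ h) (hx : x ∉ h) :
    ∃ x', Γ.Adj x x' ∧ h ⊆ hs Γ x' x := by
  obtain ⟨y, hy, hm⟩ := (measure (Γ.dist x)).wf.has_min h k.nonempty
  obtain ⟨x', k1, k2⟩ := M.next (x := x) (y := y) fun e => hx (e ▸ hy)
  refine ⟨x', k1, fun z hz => ?_⟩
  obtain ⟨m, ⟨h1, h2, h3⟩, -⟩ := M.2 x y z
  have h4 : ¬Γ.dist x m < Γ.dist x y := hm m (M.convex k hy hz h2)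
  unfold Btw at h1 h3
  obtain rfl : m = y := MgA_zero M (by omega)
  have t := MgA_tri M x' m z
  show Γ.dist z x' < Γ.dist z x
  rw [MgA_comm z, MgA_comm z]
  omega

/-- Induction on the number of members of `σ` that do not contain `x`: take such a member `h` and
`y ∈ h` with the least `Γ.dist x y` (over all such `h`, `y`), and a neighbour `x'` of `x` that is
closer to `y`. Then `y` lies between `x` and every point of `h` (median, `convex`), so
`h ⊆ hs Γ x' x`, which therefore is a member of `σ`; pass to `x'` (`eq_hs`). -/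
theorem IsMedian.realise (M : IsMedian Γ) {σ : Set (Set V)} (h1 : ∀ h ∈ σ, IsHs Γ h)
    (h2 : ∀ h, IsHs Γ h → h ∈ σ ∨ hᶜ ∈ σ) (h3 : ∀ h ∈ σ, ∀ k ∈ σ, (h ∩ k).Nonempty) {x : V}
    (h4 : {h | h ∈ σ ∧ x ∉ h}.Finite) : ∃ v, ∀ h ∈ σ, v ∈ h := by
  induction hn : {h | h ∈ σ ∧ x ∉ h}.ncard using Nat.strong_induction_on generalizing x with
  | _ n ih =>
    by_cases hx : ∀ h ∈ σ, x ∈ h
    · exact ⟨x, hx⟩
    push Not at hx
    obtain ⟨h, k1, k2⟩ := hx
    obtain ⟨x', e, s⟩ := MgA_gate M (h1 h k1) k2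
    have m : hs Γ x' x ∈ σ := by
      refine (h2 _ ⟨x', x, e.symm, rfl⟩).resolve_right fun c => ?_
      obtain ⟨z, z1, z2⟩ := h3 h k1 _ c
      exact z2 (s z1)
    have ss : {h | h ∈ σ ∧ x' ∉ h} ⊂ {h | h ∈ σ ∧ x ∉ h} := by
      refine ⟨fun k hk => ⟨hk.1, fun c => ?_⟩, fun c => (c ⟨m, MgA_right⟩).2 (MgA_left e.symm)⟩
      obtain ⟨z, z1, z2⟩ := h3 k hk.1 _ m
      rw [M.eq_hs (h1 k hk.1) e c hk.2, ← M.compl e.symm] at z1
      exact z1 z2
    exact ih _ (hn ▸ ncard_lt_ncard ss h4) (h4.subset ss.1) rfl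

end Pool.Agent.Work.MP_9d1ffa_al.Cu
end

-- merged part: Pool.Agent.Work.MP_9d1ffa_al.Cu.MgB
section
/-! The half spaces of a median graph of finite dimension. -/

namespace Pool.Agent.Work.MP_9d1ffa_al.Cu

open Set

variable {V : Type}

/-- the finiteness form of `sep_le` -/
theorem MgB_fin {Γ : SimpleGraph V} (M : IsMedian Γ) (x y : V) :
    {h | IsHs Γ h ∧ x ∈ h ∧ y ∉ h}.Finite := finite_of_encard_le_coe (M.sep_le x y)

/-- cubes from a family of pairs of complementary half spaces that cross -/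
theorem MgB_cube {Γ : SimpleGraph V} (M : IsMedian Γ) {n : ℕ} (g : Fin n → Bool → Set V)
    (g1 : ∀ i b, IsHs Γ (g i b)) (g2 : ∀ i b c, b ≠ c → g i c = (g i b)ᶜ)
    (g3 : ∀ i j b c, i ≠ j → (g i b ∩ g j c).Nonempty) : HasCube Γ n := by
  classical
  obtain ⟨o⟩ := M.1.nonempty
  let D : Set V → Prop := fun k => ∃ i b, g i b ⊆ k
  let P : (Fin n → Bool) → Set V → Prop := fun s k =>
    ∃ i b, g i b ⊆ k ∧ (b = s i ∨ ¬ k ⊆ g i b)
  let σ : (Fin n → Bool) → Set (Set V) := fun s =>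
    {k | IsHs Γ k ∧ (P s k ∨ (o ∈ k ∧ ¬ D k ∧ ¬ D kᶜ))}
  have dP : ∀ s k, D k → P s k ∨ P s kᶜ := by
    rintro s k ⟨i, b, e⟩
    by_cases c : b = s i ∨ ¬ k ⊆ g i b
    · exact Or.inl ⟨i, b, e, c⟩
    · rw [not_or, not_not] at c
      refine Or.inr ⟨i, s i, ?_, Or.inl rfl⟩
      rw [g2 i b (s i) c.1]
      exact compl_subset_compl.2 c.2
  have s2 : ∀ s k, IsHs Γ k → k ∈ σ s ∨ kᶜ ∈ σ s := by
    intro s k hk
    have hk' := M.isHs_compl hk
    by_cases d1 : D k
    · exact (dP s k d1).imp (fun e => ⟨hk, Or.inl e⟩) fun e => ⟨hk', Or.inl e⟩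
    by_cases d2 : D kᶜ
    · refine (dP s kᶜ d2).symm.imp (fun e => ⟨hk, Or.inl ?_⟩) fun e => ⟨hk', Or.inl e⟩
      rwa [compl_compl] at e
    by_cases e : o ∈ k
    · exact Or.inl ⟨hk, Or.inr ⟨e, d1, d2⟩⟩
    · exact Or.inr ⟨hk', Or.inr ⟨e, d2, by rwa [compl_compl]⟩⟩
  have pc : ∀ s k k', P s k → ¬ D k'ᶜ → (k ∩ k').Nonempty := by
    rintro s k k' ⟨i, b, e, -⟩ d
    by_contra c
    exact d ⟨i, b, fun z hz hz' => c ⟨z, e hz, hz'⟩⟩
  have s3 : ∀ s, ∀ k ∈ σ s, ∀ k' ∈ σ s, (k ∩ k').Nonempty := by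
    rintro s k ⟨-, a | a⟩ k' ⟨-, a' | a'⟩
    · obtain ⟨i, b, e, c⟩ := a
      obtain ⟨j, b', e', c'⟩ := a'
      by_cases ij : i = j
      · subst ij
        by_cases bb : b = b'
        · subst bb
          exact (g1 i b).nonempty.mono (subset_inter e e')
        rcases c with c | c
        · rcases c' with c' | c'
          · exact absurd (c.trans c'.symm) bb
          · obtain ⟨z, z1, z2⟩ := not_subset.1 c'
            refine ⟨z, e ?_, z1⟩
            rw [g2 i b' b (Ne.symm bb)]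
            exact z2
        · obtain ⟨z, z1, z2⟩ := not_subset.1 c
          refine ⟨z, z1, e' ?_⟩
          rw [g2 i b b' bb]
          exact z2
      · exact (g3 i j b b' ij).mono (inter_subset_inter e e')
    · exact pc s k k' a a'.2.2
    · rw [inter_comm]
      exact pc s k' k a' a.2.2
    · exact ⟨o, a.1, a'.1⟩
  choose p hp using fun i b => (g1 i b).nonempty
  have s4 : ∀ s, {k | k ∈ σ s ∧ o ∉ k}.Finite := fun s =>
    (finite_iUnion fun i => finite_iUnion fun b => MgB_fin M (p i b) o).subset <| by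
      rintro k ⟨⟨hk, ⟨i, b, e, -⟩ | a⟩, no⟩
      · exact mem_iUnion.2 ⟨i, mem_iUnion.2 ⟨b, hk, e (hp i b), no⟩⟩
      · exact absurd a.1 no
  choose f hf using fun s => M.realise (σ := σ s) (fun _ a => a.1) (s2 s) (s3 s) (s4 s)
  have fg : ∀ s i, f s ∈ g i (s i) := fun s i =>
    hf s _ ⟨g1 _ _, Or.inl ⟨i, s i, subset_rfl, Or.inl rfl⟩⟩
  have inj : Function.Injective f := fun s t e => funext fun i => by
    by_contra c
    have a := fg t i
    rw [g2 i _ _ c, ← e] at a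
    exact a (fg s i)
  refine ⟨f, inj, fun s i => M.adj_of (fun e => ?_) ?_⟩
  · have a := congrFun (inj e) i
    rw [Function.update_self] at a
    exact (Bool.not_ne_self _) a.symm
  have key : ∀ k, IsHs Γ k → f s ∈ k → f (Function.update s i (!s i)) ∉ k → k = g i (s i) := by
    intro k hk a1 a2
    have m1 : k ∈ σ s := (s2 s k hk).resolve_right fun c => hf s _ c a1
    have m2 : k ∉ σ (Function.update s i (!s i)) := fun c => a2 (hf _ _ c)
    obtain ⟨j, b, e, c⟩ := m1.2.resolve_right fun c => m2 ⟨hk, Or.inr c⟩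
    have c' : ¬ (b = Function.update s i (!s i) j ∨ ¬ k ⊆ g j b) := fun c' =>
      m2 ⟨hk, Or.inl ⟨j, b, e, c'⟩⟩
    rw [not_or, not_not] at c'
    have c1 : b = s j := c.resolve_right (not_not.2 c'.2)
    have ji : j = i := by
      by_contra ji
      rw [Function.update_of_ne ji] at c'
      exact c'.1 c1
    rw [← ji, ← c1]
    exact c'.2.antisymm e
  intro k a k' a'
  rw [key k a.1 a.2.1 a.2.2, key k' a'.1 a'.2.1 a'.2.2]

/-- For `s : Fin n → Bool` let `σ s` consist of `h i` or `(h i)ᶜ` (according to `s i`), of all half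
spaces that properly contain some `h i` or `(h i)ᶜ`, and of those half spaces `k ∋ o` that are not
decided yet (neither `k` nor `kᶜ` contains some `h i` or `(h i)ᶜ`). `realise` gives a vertex
`f s`; `adj_of`. -/
theorem IsMedian.cube {Γ : SimpleGraph V} (M : IsMedian Γ) {n : ℕ} (h : Fin n → Set V)
    (h1 : ∀ i, IsHs Γ (h i)) (h2 : ∀ i j, i ≠ j → (h i ∩ h j).Nonempty ∧ (h i ∩ (h j)ᶜ).Nonempty ∧
      ((h i)ᶜ ∩ (h j)ᶜ).Nonempty) : HasCube Γ n := by
  refine MgB_cube M (fun i b => cond b (h i) (h i)ᶜ) (fun i b => ?_) (fun i b c e => ?_)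
    fun i j b c e => ?_
  · cases b
    exacts [M.isHs_compl (h1 i), h1 i]
  · cases b <;> cases c
    exacts [absurd rfl e, (compl_compl _).symm, rfl, absurd rfl e]
  · cases b <;> cases c
    · exact (h2 i j e).2.2
    · rw [inter_comm]
      exact (h2 j i e.symm).2.1
    · exact (h2 i j e).2.1
    · exact (h2 i j e).1

/-- pointed median graphs of finite dimension -/
structure MG (V : Type) where
  Γ : SimpleGraph V
  med : IsMedian Γ
  n : ℕ
  dim : ¬ HasCube Γ (n + 1)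
  o : V

namespace MG

variable (M : MG V)

/-- the half spaces -/
def HS : Type := {h : Set V // IsHs M.Γ h}

instance : PartialOrder M.HS := Subtype.partialOrder _

theorem le_iff {h k : M.HS} : h ≤ k ↔ h.1 ⊆ k.1 := Iff.rfl

/-- `sep_le` for `o` and a point outside of `h` -/
theorem dcc' (h : M.HS) : {k : M.HS | k < h ∧ M.o ∈ k.1}.Finite := by
  obtain ⟨y, hy⟩ := (M.med.isHs_compl h.2).nonempty
  exact ((MgB_fin M.med M.o y).preimage Subtype.val_injective.injOn).subset fun k a =>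
    ⟨k.2, a.2, fun c => hy (M.le_iff.1 a.1.le c)⟩

/-- transverse sets on one side of the base point -/
theorem MgB_dim (s : Finset M.HS) (h : ∀ h ∈ s, ∀ k ∈ s, ¬ h < k ∧
    ¬ h < ⟨k.1ᶜ, M.med.isHs_compl k.2⟩ ∧ ¬ (⟨h.1ᶜ, M.med.isHs_compl h.2⟩ : M.HS) < k)
    (e : ∀ h ∈ s, ∀ k ∈ s, (M.o ∈ h.1 ↔ M.o ∈ k.1)) : s.card ≤ M.n := by
  by_contra c
  obtain ⟨t, ts, tc⟩ := Finset.exists_subset_card_eq (s := s) (n := M.n + 1) (by omega)
  let q := (Finset.equivFinOfCardEq tc).symm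
  have m : ∀ i, (q i).1 ∈ s := fun i => ts (q i).2
  refine M.dim (M.med.cube (fun i => (q i).1.1) (fun i => (q i).1.2) fun i j ij => ?_)
  have a := h _ (m i) _ (m j)
  have b := e _ (m i) _ (m j)
  refine ⟨?_, ?_, ?_⟩ <;> by_contra d
  · refine a.2.1 (lt_of_le_of_ne (M.le_iff.2 fun z z1 z2 => d ⟨z, z1, z2⟩) fun r => ?_)
    have r' : (q i).1.1 = ((q j).1.1)ᶜ := congrArg Subtype.val r
    rw [r'] at b
    exact not_iff_self b
  · refine a.1 (lt_of_le_of_ne (M.le_iff.2 fun z z1 => by_contra fun z2 => d ⟨z, z1, z2⟩)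
      fun r => ij (q.injective (Subtype.ext r)))
  · refine a.2.2 (lt_of_le_of_ne (M.le_iff.2 fun z z1 => by_contra fun z2 => d ⟨z, z1, z2⟩)
      fun r => ?_)
    have r' : ((q i).1.1)ᶜ = (q j).1.1 := congrArg Subtype.val r
    rw [← r'] at b
    exact not_iff_self b.symm

/-- the members that contain `o` cross pairwise, and so do the others; `cube` -/
theorem dim' (s : Finset M.HS) (h : ∀ h ∈ s, ∀ k ∈ s, ¬ h < k ∧
    ¬ h < ⟨k.1ᶜ, M.med.isHs_compl k.2⟩ ∧ ¬ (⟨h.1ᶜ, M.med.isHs_compl h.2⟩ : M.HS) < k) :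
    s.card ≤ 2 * M.n := by
  classical
  have a := M.MgB_dim (s.filter fun k => M.o ∈ k.1)
    (fun i m j m' => h i (Finset.mem_filter.1 m).1 j (Finset.mem_filter.1 m').1)
    fun i m j m' => iff_of_true (Finset.mem_filter.1 m).2 (Finset.mem_filter.1 m').2
  have b := M.MgB_dim (s.filter fun k => ¬ M.o ∈ k.1)
    (fun i m j m' => h i (Finset.mem_filter.1 m).1 j (Finset.mem_filter.1 m').1)
    fun i m j m' => iff_of_false (Finset.mem_filter.1 m).2 (Finset.mem_filter.1 m').2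
  have c := Finset.card_filter_add_card_filter_not (s := s) fun k => M.o ∈ k.1
  omega

instance : Poc M.HS where
  st h := ⟨h.1ᶜ, M.med.isHs_compl h.2⟩
  st_st _ := Subtype.ext (compl_compl _)
  st_le e := compl_subset_compl.2 e
  ori h := M.o ∈ h.1
  ori_st _ := Iff.rfl
  ori_le e a := e a
  dcc := M.dcc'
  dm := 2 * M.n
  dim := M.dim'

open Classical in
/-- the point of a vertex -/
noncomputable def vx (x : V) : Pt M.HS where
  f h := if x ∈ h.1 then 1 else 0
  nn h := by split_ifs <;> norm_num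
  cp h := by
    have k : x ∈ (st h).1 ↔ x ∉ h.1 := Iff.rfl
    by_cases e : x ∈ h.1 <;> simp [e, k]
  con {k h} e := by
    by_cases a : x ∈ k.1
    · exact Or.inr (if_pos (e.le a))
    · exact Or.inl (if_neg a)
  fin := ((finite_of_encard_le_coe (M.med.sep_le x M.o)).preimage
    Subtype.val_injective.injOn).subset fun h a => 
      ⟨h.2, by_contra fun e => (by have := a.1; simp [e] at this), a.2⟩

theorem MgB_in {x : V} {h : M.HS} (e : x ∈ h.1) : (M.vx x).f h = 1 := if_pos e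

theorem MgB_out {x : V} {h : M.HS} (e : x ∉ h.1) : (M.vx x).f h = 0 := if_neg e

theorem vx_inj : Function.Injective M.vx := by
  intro x y e
  refine M.med.eq_of fun h k a => by_contra fun c => ?_
  have a1 := M.MgB_in (h := ⟨h, k⟩) a
  rw [e, M.MgB_out (h := ⟨h, k⟩) c] at a1
  exact zero_ne_one a1

theorem vx_surj {v : Pt M.HS} (h : v.Vx) : ∃ x, v = M.vx x := by
  have z : ∀ k : M.HS, v.f k = 0 → v.f (st k) = 1 := fun k e => by rw [v.cp, e, sub_zero]
  obtain ⟨x, hx⟩ := M.med.realise (σ := (fun k : M.HS => k.1) '' {k : M.HS | v.f k = 1}) (x := M.o)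
    (by rintro _ ⟨k, -, rfl⟩; exact k.2)
    (fun k hk => (h ⟨k, hk⟩).symm.imp (fun e => ⟨⟨k, hk⟩, e, rfl⟩)
      fun e => ⟨st (H := M.HS) ⟨k, hk⟩, z _ e, rfl⟩)
    (by
      rintro _ ⟨k, a, rfl⟩ _ ⟨j, b, rfl⟩
      by_contra c
      have a' : v.f k = 1 := a
      have b' : v.f (st j) = 0 := by rw [v.cp, show v.f j = 1 from b, sub_self]
      have l : k ≤ st j := M.le_iff.2 fun y y1 y2 => c ⟨y, y1, y2⟩
      rcases l.eq_or_lt with l | l
      · rw [l, b'] at a'
        exact zero_ne_one a'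
      · rw [v.up l (by rw [a']; exact one_pos)] at b'
        exact one_ne_zero b')
    ((v.fin.image fun k : M.HS => k.1).subset <| by
      rintro _ ⟨⟨k, a, rfl⟩, b⟩
      exact ⟨k, ⟨by rw [show v.f k = 1 from a]; exact one_pos, b⟩, rfl⟩)
  refine ⟨x, Pt.ext (funext fun k => ?_)⟩
  rcases h k with e | e
  · rw [e, M.MgB_out (hx _ ⟨st k, z k e, rfl⟩)]
  · rw [e, M.MgB_in (hx _ ⟨k, e, rfl⟩)]

theorem dist_vx (x y : V) : dist (M.vx x) (M.vx y) ≤ M.Γ.dist x y := by
  refine dist_le fun t _ p => ?_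
  have a : (fun k : M.HS => k.1) '' (t : Set M.HS) ⊆ {h | IsHs M.Γ h ∧ x ∈ h ∧ y ∉ h} := by
    rintro _ ⟨k, m, rfl⟩
    have b := p k m
    refine ⟨k.2, by_contra fun c => ?_, fun c => ?_⟩
    · rw [M.MgB_out c] at b
      exact not_lt.2 ((M.vx y).nn k) b
    · rw [M.MgB_in c] at b
      exact not_lt.2 ((M.vx x).le1 k) b
  have b := (encard_le_encard a).trans (M.med.sep_le x y)
  have i : Function.Injective fun k : M.HS => k.1 := Subtype.val_injective
  rw [i.encard_image, encard_coe_eq_coe_finsetCard, Nat.cast_le] at b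
  refine (Finset.sum_le_card_nsmul t _ 1 fun k _ => ?_).trans ?_
  · linarith [(M.vx x).le1 k, (M.vx y).nn k]
  · rw [nsmul_eq_mul, mul_one]
    exact_mod_cast b

/-- automorphisms do not increase distances -/
theorem MgB_dist_le {G : Type} [Group G] [MulAction G V]
    (adj : ∀ (g : G) x y, M.Γ.Adj x y → M.Γ.Adj (g • x) (g • y)) (g : G) (x y : V) :
    M.Γ.dist (g • x) (g • y) ≤ M.Γ.dist x y := by
  obtain ⟨p, hp⟩ := M.med.1.exists_walk_length_eq_dist x y
  have a := SimpleGraph.dist_le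
    (p.map (⟨fun z => g • z, fun e => adj g _ _ e⟩ : M.Γ →g M.Γ))
  rw [SimpleGraph.Walk.length_map, hp] at a
  exact a

theorem MgB_dist {G : Type} [Group G] [MulAction G V]
    (adj : ∀ (g : G) x y, M.Γ.Adj x y → M.Γ.Adj (g • x) (g • y)) (g : G) (x y : V) :
    M.Γ.dist (g⁻¹ • x) y = M.Γ.dist x (g • y) :=
  le_antisymm (by simpa only [inv_smul_smul] using M.MgB_dist_le adj g⁻¹ x (g • y))
    (by simpa only [smul_inv_smul] using M.MgB_dist_le adj g (g⁻¹ • x) y)

theorem MgB_hs {G : Type} [Group G] [MulAction G V]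
    (adj : ∀ (g : G) x y, M.Γ.Adj x y → M.Γ.Adj (g • x) (g • y)) (g : G) (h : M.HS) :
    IsHs M.Γ {x | g⁻¹ • x ∈ h.1} := by
  obtain ⟨h, a, b, e, rfl⟩ := h
  refine ⟨g • a, g • b, adj g a b e, Set.ext fun x => ?_⟩
  show M.Γ.dist (g⁻¹ • x) a < M.Γ.dist (g⁻¹ • x) b ↔ M.Γ.dist x (g • a) < M.Γ.dist x (g • b)
  rw [M.MgB_dist adj, M.MgB_dist adj]

/-- the action on the half spaces: `(g • h).1 = {x | g⁻¹ • x ∈ h.1}` -/
theorem exists_act {G : Type} [Group G] [MulAction G V]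
    (adj : ∀ (g : G) x y, M.Γ.Adj x y → M.Γ.Adj (g • x) (g • y)) :
    ∃ _ : PocAct G M.HS, ∀ (g : G) (x : V), g • M.vx x = M.vx (g • x) := by
  let A : PocAct G M.HS :=
    { smul := fun g h => ⟨{x | g⁻¹ • x ∈ h.1}, M.MgB_hs adj g h⟩
      one_smul := fun h => Subtype.ext (Set.ext fun x => by
        show (1 : G)⁻¹ • x ∈ h.1 ↔ x ∈ h.1
        rw [inv_one, one_smul])
      mul_smul := fun g g' h => Subtype.ext (Set.ext fun x => by
        show (g * g')⁻¹ • x ∈ h.1 ↔ g'⁻¹ • g⁻¹ • x ∈ h.1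
        rw [mul_inv_rev, mul_smul])
      smul_le := fun g _ _ e _ a => e a
      smul_st := fun g h => rfl
      smul_ori := fun g => ((MgB_fin M.med (g⁻¹ • M.o) M.o).preimage
        Subtype.val_injective.injOn).subset fun k a => ⟨k.2, a.1, a.2⟩ }
  refine ⟨A, fun g x => Pt.ext (funext fun h => ?_)⟩
  rw [smul_f]
  by_cases e : g • x ∈ h.1
  · rw [M.MgB_in e]
    exact M.MgB_in (show g⁻¹⁻¹ • x ∈ h.1 by rwa [inv_inv])
  · rw [M.MgB_out e]
    exact M.MgB_out (show g⁻¹⁻¹ • x ∉ h.1 by rwa [inv_inv])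

end MG

end Pool.Agent.Work.MP_9d1ffa_al.Cu
end
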