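import Mathlib
import Pool.Agent.Work.MP_9d1ffa_al.Ga.Zc
import Pool.Agent.Work.MP_9d1ffa_al.WL.En
import Pool.Agent.Work.MP_9d1ffa_al.Cu.MgB

-- merged part: Pool.Agent.Work.MP_9d1ffa_al.Gd.Cy
section
/-! Almost translations along a path generate a cyclic group modulo a subgroup. -/

namespace Pool.Agent.Work.MP_9d1ffa_al.Gd

open Set

theorem cyc_mod {G X : Type*} [Group G] [PseudoMetricSpace X] [MulAction G X]
    (iso : ∀ (g : G) (x y : X), dist (g • x) (g • y) = dist x y) (V : Subgroup G) {c0 : ℝ}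
    (s : ℤ → X) {J r A : ℕ} {v b : ℝ}
    (hs : ∀ i j : ℤ, 0 ≤ i → i ≤ J → 0 ≤ j → j ≤ J → dist (s i) (s j) = |(i : ℝ) - j| * v)
    (disc : ∀ g : G, (∀ l : ℤ, (3 ^ A : ℕ) * r ≤ l → l + (3 ^ A : ℕ) * r ≤ J →
      dist (g • s l) (s l) ≤ c0) → g ∈ V)
    (tr : ∀ w ∈ V, ∀ (δ : ℤ) (e : ℝ), |δ| ≤ 2 * r → (∀ l : ℤ, (3 ^ A : ℕ) * r ≤ l →
      l + (3 ^ A : ℕ) * r ≤ J → dist (w • s l) (s (l + δ)) ≤ e) → |(δ : ℝ)| * v ≤ c0 / 2 + e)
    (v0 : 0 ≤ v) (b0 : 0 ≤ b) (h1 : 4 * r * v < A * c0) (h2 : 8 * 3 ^ A * b ≤ c0) :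
    ∃ a : G, ∀ (g : G) (τ : ℤ), |τ| ≤ r →
      (∀ l : ℤ, r ≤ l → l + r ≤ J → dist (g • s l) (s (l + τ)) ≤ b) →
        g ∈ Subgroup.zpowers a ⊔ V := by
  classical
  obtain ⟨W, hW⟩ : ∃ W : ℕ → G → ℤ → Prop, ∀ k g τ, W k g τ ↔ |τ| ≤ r ∧
      ∀ l : ℤ, k * r ≤ l → l + k * r ≤ J → dist (g • s l) (s (l + τ)) ≤ k * b :=
    ⟨_, fun _ _ _ => Iff.rfl⟩
  have r0 : (0 : ℤ) ≤ r := Int.natCast_nonneg r
  have c00 : 0 < c0 := by
    have : 0 ≤ 4 * r * v := by positivity
    exact lt_of_not_ge fun e => by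
      have := mul_nonpos_of_nonneg_of_nonpos (Nat.cast_nonneg (α := ℝ) A) e
      linarith
  have mono : ∀ {k k' g τ}, k ≤ k' → W k g τ → W k' g τ := fun {k k' g τ} e h => by
    rw [hW] at h ⊢
    have e1 : (k : ℤ) * r ≤ k' * r := mul_le_mul_of_nonneg_right (by exact_mod_cast e) r0
    have e2 : (k : ℝ) * b ≤ k' * b := mul_le_mul_of_nonneg_right (by exact_mod_cast e) b0
    exact ⟨h.1, fun l a c => (h.2 l (by omega) (by omega)).trans e2⟩
  have rg : ∀ {k : ℕ}, 1 ≤ k → k ≤ 3 ^ A →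
      (r : ℤ) ≤ k * r ∧ (k : ℤ) * r ≤ (3 ^ A : ℕ) * r ∧ 8 * (k * b) ≤ c0 := fun {k} a c => by
    have e1 : r ≤ k * r := Nat.le_mul_of_pos_left _ a
    have e3 : (k : ℝ) * b ≤ 3 ^ A * b := mul_le_mul_of_nonneg_right (by exact_mod_cast c) b0
    exact ⟨by exact_mod_cast e1, mul_le_mul_of_nonneg_right (Int.ofNat_le.2 c) r0, by linarith⟩
  have cmp : ∀ {l τ τ' : ℤ}, r ≤ l → l + r ≤ J → |τ| ≤ r → |τ'| ≤ r →
      dist (s (l + τ)) (s (l + τ')) = |(τ : ℝ) - τ'| * v := fun {k τ τ'} a c d e => by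
    have d1 := abs_le.1 d
    have d2 := abs_le.1 e
    rw [hs _ _ (by omega) (by omega) (by omega) (by omega)]
    push_cast
    rw [add_sub_add_left_eq_sub]
  have card : ∀ k, 1 ≤ k → k ≤ 3 ^ A → {z : G ⧸ V | ∃ g τ, W k g τ ∧ g = z}.encard ≤ A :=
    fun k a c => by
    choose! u t ht hu using fun z (h : z ∈ {z : G ⧸ V | ∃ g τ, W k g τ ∧ g = z}) => h
    obtain ⟨e1, e2, e3⟩ := rg a c
    have tb : ∀ g ∈ {z : G ⧸ V | ∃ g τ, W k g τ ∧ g = z}, -(r : ℝ) ≤ t g ∧ (t g : ℝ) ≤ r :=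
      fun g h => by exact_mod_cast abs_le.1 ((hW _ _ _).1 (ht g h)).1
    have k1 := encard_le_encard_of_injOn (s := {z : G ⧸ V | ∃ g τ, W k g τ ∧ g = z})
      (t := (Finset.range A : Set ℕ)) (f := fun g => ⌊(t g + r) * v / (c0 / 2)⌋₊) (fun g h => by
        have := tb g h
        rw [Finset.coe_range, mem_Iio, Nat.floor_lt (div_nonneg (mul_nonneg (by linarith) v0)
          (by positivity)), div_lt_iff₀ (by positivity)]
        nlinarith) fun g h g' h' e => by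
        have a1 := tb g h
        have a2 := tb g' h'
        have n1 : 0 ≤ (t g + r) * v / (c0 / 2) := div_nonneg (mul_nonneg (by linarith) v0) (by positivity)
        have n2 : 0 ≤ (t g' + r) * v / (c0 / 2) :=
          div_nonneg (mul_nonneg (by linarith) v0) (by positivity)
        have p1 := Nat.floor_le n1
        have p2 := Nat.floor_le n2
        have p3 := Nat.lt_floor_add_one ((t g + r) * v / (c0 / 2))
        have p4 := Nat.lt_floor_add_one ((t g' + r) * v / (c0 / 2))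
        have e' : ⌊(t g + r) * v / (c0 / 2)⌋₊ = ⌊(t g' + r) * v / (c0 / 2)⌋₊ := e
        rw [e'] at p1 p3
        have p5 : |(t g + r) * v / (c0 / 2) - (t g' + r) * v / (c0 / 2)| ≤ 1 :=
          abs_le.2 ⟨by linarith, by linarith⟩
        rw [← sub_div, ← sub_mul, add_sub_add_right_eq_sub, abs_div, abs_mul, abs_of_nonneg v0,
          abs_of_pos (by positivity : 0 < c0 / 2), div_le_one (by positivity)] at p5
        have w := (hW _ _ _).1 (ht g h)
        have w' := (hW _ _ _).1 (ht g' h')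
        rw [← hu g h, ← hu g' h', eq_comm, QuotientGroup.eq]
        refine disc _ fun l l1 l2 => ?_
        have q1 := w.2 l (by omega) (by omega)
        have q2 := w'.2 l (by omega) (by omega)
        have q3 := cmp (l := l) (by omega) (by omega) w.1 w'.1
        have q4 := dist_triangle4_right (u g • s l) (u g' • s l) (s (l + t g)) (s (l + t g'))
        rw [← iso (u g'), ← mul_smul, mul_inv_cancel_left]
        have := mul_nonneg (Nat.cast_nonneg (α := ℝ) k) b0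
        linarith
    rwa [encard_coe_eq_coe_finsetCard, Finset.card_range] at k1
  obtain ⟨k, k1, k2, k3⟩ : ∃ k, 1 ≤ k ∧ 3 * k ≤ 3 ^ A ∧
      ∀ g τ, W (3 * k) g τ → ∃ g' τ', W k g' τ' ∧ (g' : G ⧸ V) = g := by
    by_contra e
    push Not at e
    have st : ∀ j, j ≤ A →
        ((j + 1 : ℕ) : ℕ∞) ≤ {z : G ⧸ V | ∃ g τ, W (3 ^ j) g τ ∧ g = z}.encard := fun j => by
      induction j with
      | zero =>
        refine fun _ => one_le_encard_iff_nonempty.2
          ⟨_, 1, 0, (hW _ _ _).2 ⟨by simp, fun l _ _ => ?_⟩, rfl⟩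
        simpa using b0
      | succ j ih =>
        intro hj
        obtain ⟨g, τ, a, c⟩ := e (3 ^ j) (Nat.one_le_pow _ _ (by norm_num))
          (by rw [← pow_succ']; exact Nat.pow_le_pow_right (by norm_num) hj)
        rw [← pow_succ'] at a
        have d : insert (g : G ⧸ V) {z : G ⧸ V | ∃ g τ, W (3 ^ j) g τ ∧ g = z} ⊆
            {z : G ⧸ V | ∃ g τ, W (3 ^ (j + 1)) g τ ∧ g = z} :=
          insert_subset ⟨g, τ, a, rfl⟩ fun _ ⟨g', τ', h, h'⟩ =>
            ⟨g', τ', mono (Nat.pow_le_pow_right (by norm_num) (by omega)) h, h'⟩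
        refine le_trans ?_ (encard_le_encard d)
        have n : (g : G ⧸ V) ∉ {z : G ⧸ V | ∃ g τ, W (3 ^ j) g τ ∧ g = z} :=
          fun ⟨g', τ', h, h'⟩ => c g' τ' h h'
        rw [encard_insert_of_notMem n, Nat.cast_add (j + 1), Nat.cast_one]
        exact add_le_add_left (ih (by omega)) 1
    have := (st A le_rfl).trans (card _ (Nat.one_le_pow _ _ (by norm_num)) le_rfl)
    norm_cast at this
    omega
  suffices h : ∃ a : G, ∀ (g : G) (τ : ℤ), W k g τ → g ∈ Subgroup.zpowers a ⊔ V by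
    refine h.imp fun a ha g τ x y => ha g τ (mono k1 ((hW _ _ _).2 ⟨x, ?_⟩))
    simpa using y
  by_cases hx : ∃ n : ℕ, ∃ (a : G) (τ : ℤ), a ∉ V ∧ W k a τ ∧ τ.natAbs = n
  swap
  · exact ⟨1, fun g τ h => Subgroup.mem_sup_right (by_contra fun e => hx ⟨_, g, τ, e, h, rfl⟩)⟩
  obtain ⟨a, ta, a1, a2, a3⟩ := Nat.find_spec hx
  have am : ∀ g τ, g ∉ V → W k g τ → ta.natAbs ≤ τ.natAbs := fun g τ x y =>
    a3 ▸ Nat.find_min' hx ⟨g, τ, x, y, rfl⟩
  obtain ⟨e1, -, e3⟩ := rg k1 (by omega)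
  obtain ⟨-, f2, -⟩ := rg (k := 3 * k) (by omega) k2
  have k3r : ((3 * k : ℕ) : ℤ) * r = k * r + k * r + k * r := by push_cast; ring
  rw [k3r] at f2
  have wa := (hW _ _ _).1 a2
  have big : c0 - k * b < |(ta : ℝ)| * v := lt_of_not_ge fun e => a1 (disc _ fun l l1 l2 => by
    have q1 := wa.2 l (by omega) (by omega)
    have q2 := cmp (l := l) (τ := ta) (τ' := 0) (by omega) (by omega) wa.1 (by simp)
    have q4 := dist_triangle (a • s l) (s (l + ta)) (s l)
    rw [add_zero, Int.cast_zero, sub_zero] at q2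
    linarith)
  refine ⟨a, fun g τ h => ?_⟩
  induction hn : τ.natAbs using Nat.strong_induction_on generalizing g τ with
  | _ n ih =>
    by_cases g1 : g ∈ V
    · exact Subgroup.mem_sup_right g1
    have m1 := am g τ g1 h
    have w := (hW _ _ _).1 h
    have w1 := abs_le.1 w.1
    have w2 := abs_le.1 wa.1
    have kk : ((2 * k : ℕ) : ℤ) * r = k * r + k * r := by push_cast; ring
    have kb : ((2 * k : ℕ) : ℝ) * b = k * b + k * b := by push_cast; ring
    obtain ⟨u, t1, u1, u2, u3⟩ : ∃ (u : G) (t1 : ℤ), u ∈ Subgroup.zpowers a ∧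
        W (2 * k) (u * g) t1 ∧ t1.natAbs + ta.natAbs = τ.natAbs := by
      by_cases sg : (0 ≤ τ ∧ 0 ≤ ta) ∨ (τ ≤ 0 ∧ ta ≤ 0)
      · refine ⟨a⁻¹, τ - ta, inv_mem (Subgroup.mem_zpowers a),
          (hW _ _ _).2 ⟨abs_le.2 ⟨by omega, by omega⟩, fun l x y => ?_⟩, by omega⟩
        rw [kk] at x y
        have q1 := w.2 l (by omega) (by omega)
        have q2 := wa.2 (l + (τ - ta)) (by omega) (by omega)
        rw [add_assoc, sub_add_cancel] at q2
        rw [← iso a, ← mul_smul, mul_inv_cancel_left, kb]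
        exact (dist_triangle_right _ _ _).trans (add_le_add q1 q2)
      · refine ⟨a, τ + ta, Subgroup.mem_zpowers a,
          (hW _ _ _).2 ⟨abs_le.2 ⟨by omega, by omega⟩, fun l x y => ?_⟩, by omega⟩
        rw [kk] at x y
        have q1 := w.2 l (by omega) (by omega)
        have q2 := wa.2 (l + τ) (by omega) (by omega)
        rw [← iso a] at q1
        rw [mul_smul, ← add_assoc, kb]
        exact (dist_triangle _ _ _).trans (add_le_add q1 q2)
    obtain ⟨g', t2, u4, u5⟩ := k3 _ _ (mono (by omega) u2)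
    rw [QuotientGroup.eq] at u5
    have z1 := (hW _ _ _).1 u2
    have z2 := (hW _ _ _).1 u4
    have z3 := abs_le.1 z1.1
    have z4 := abs_le.1 z2.1
    rw [kk, kb] at z1
    have q3 := tr _ u5 (t1 - t2) (3 * (k * b)) (abs_le.2 ⟨by omega, by omega⟩) fun l l1 l2 => by
      have q1 := z1.2 l (by omega) (by omega)
      have q2 := z2.2 (l + (t1 - t2)) (by omega) (by omega)
      rw [add_assoc, sub_add_cancel] at q2
      rw [← iso g', ← mul_smul, mul_inv_cancel_left]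
      linarith [dist_triangle_right ((u * g) • s l) (g' • s (l + (t1 - t2))) (s (l + t1))]
    have q5 : |((t1 - t2 : ℤ) : ℝ)| < |(ta : ℝ)| := lt_of_mul_lt_mul_right (by linarith) v0
    have q6 : |t1 - t2| < |ta| := by exact_mod_cast q5
    rw [Int.abs_eq_natAbs, Int.abs_eq_natAbs] at q6
    have q7 := mul_mem (ih t2.natAbs (by omega) _ _ u4 rfl) (Subgroup.mem_sup_right u5)
    rw [mul_inv_cancel_left] at q7
    exact (Subgroup.mul_mem_cancel_left _ (Subgroup.mem_sup_left u1)).1 q7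

end Pool.Agent.Work.MP_9d1ffa_al.Gd
end

-- merged part: Pool.Agent.Work.MP_9d1ffa_al.Gd.Ht
section
/-! The isotropy of actions whose pointwise stabilisers form chains of bounded length. -/

namespace Pool.Agent.Work.MP_9d1ffa_al.Gd

open Set Subgroup MulAction Ga

variable {G X Sm : Type} [Group G] [MetricSpace X] [MulAction G X] [MulAction G Sm]

theorem tr_fix (iso : ∀ (g : G) (x y : X), dist (g • x) (g • y) = dist x y) (s : ℤ → X) {w : G}
    {p : X} (hp : w • p = p) {l δ : ℤ} {e P : ℝ} (h : dist p (s l) ≤ P) (M : ℕ)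
    (k : ∀ j < M, dist (w • s (l + j * δ)) (s (l + j * δ + δ)) ≤ e) :
    dist (s l) (s (l + M * δ)) ≤ 2 * P + M * e := by
  have a : ∀ j ≤ M, dist ((w ^ j) • s l) (s (l + j * δ)) ≤ j * e := fun j hj => by
    induction j with
    | zero => simp
    | succ j ih =>
      have b := ih (by omega)
      have c := k j hj
      rw [← iso w, ← mul_smul, ← pow_succ'] at b
      push_cast
      rw [add_one_mul, ← add_assoc, add_one_mul]
      exact (dist_triangle _ _ _).trans (add_le_add b c)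
  have b := iso (w ^ M) p (s l)
  rw [show w ^ M • p = p from pow_mem (show w ∈ stabilizer G p from hp) M] at b
  linarith [a M le_rfl, dist_triangle (s l) ((w ^ M) • s l) (s (l + M * δ)),
    dist_triangle_left (s l) ((w ^ M) • s l) p]

theorem gd_ht (A : Geo G X Sm) {Z : Set X} (hZ : ∀ g : G, ∀ p ∈ Z, g • p ∈ Z) {N P R h : ℕ}
    (hN : 0 < N)
    (disc : ∀ x, ∃ p ∈ Z, dist p x ≤ P ∧ ∀ g : G, dist (g • x) x ≤ 2 / N → g • p = p)
    (ht : ∀ F : ℕ → Set X, Monotone F → (∀ k, F k ⊆ Z) → (∃ x ∈ F 0, ∃ y ∈ F 0, (R : ℝ) ≤ dist x y) →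
      ∃ k ≤ h, fixingSubgroup G (F k) = fixingSubgroup G (F (k + 1)))
    {Good : Subgroup G → Prop} (mono : ∀ H H' : Subgroup G, H ≤ H' → Good H' → Good H)
    (fi : ∀ H H' : Subgroup G, H' ≤ H → H'.relIndex H ≠ 0 → Good H' → Good H)
    (st : ∀ p ∈ Z, Good (stabilizer G p))
    (ln : ∀ F ⊆ Z, (∃ x ∈ F, ∃ y ∈ F, (R : ℝ) ≤ dist x y) → ∀ a : G,
      (∀ x ∈ F, a • x ∈ F ∧ a⁻¹ • x ∈ F) → Good (zpowers a ⊔ fixingSubgroup G F)) : A.Gd Good := by
  have n0 : (0 : ℝ) < N := by exact_mod_cast hN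
  have n1 : (1 : ℝ) / N ≤ 2 / N := by gcongr; norm_num
  refine ⟨mono, fi, ⟨N, hN, fun c x k => ?_⟩, fun q Γ hΓ => ?_⟩
  · obtain ⟨p, p1, -, p2⟩ := disc x
    exact mono _ _ (fun g hg => p2 g ((A.mg_dist hN
      (by rwa [← A.mg_smul g, show g • c = c from hg] at k) k).trans n1)) (st p p1)
  obtain ⟨a, ha⟩ : ∃ a, a = N * (4 * q + 2) := ⟨_, rfl⟩
  obtain ⟨M, hM⟩ : ∃ M, M = 4 * P * N + 1 := ⟨_, rfl⟩
  obtain ⟨Q, hQ⟩ : ∃ Q, Q = 8 * Γ + 16 * N * (3 ^ a + (h + 1)) := ⟨_, rfl⟩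
  obtain ⟨J', hJ'⟩ : ∃ J', J' = (3 ^ a + (h + 1) + 2 * M) * (q + 1) + (R + 2 * P) * Γ := ⟨_, rfl⟩
  have t0 : 0 < 3 ^ a := by positivity
  refine ⟨Q, 2 * J', hQ ▸ Nat.le_add_right _ _, by rw [hJ']; nlinarith [Nat.zero_le (M * q), Nat.zero_le (h * q)], fun Y hY s' v _ v1 v2 d => ?_⟩
  have y1 : (4 : ℝ) ≤ Y := by exact_mod_cast hY
  have v0 : 0 ≤ v := le_trans (by positivity) v1
  obtain ⟨r, hr⟩ : ∃ r, r = q * Y + 1 := ⟨_, rfl⟩
  obtain ⟨L, hL⟩ : ∃ L, L = J' * Y := ⟨_, rfl⟩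
  obtain ⟨D, hD⟩ : ∃ D, D = (R + 2 * P) * Γ * Y := ⟨_, rfl⟩
  obtain ⟨b, hb⟩ : ∃ b : ℝ, b = 2 / Q := ⟨_, rfl⟩
  obtain ⟨s, hs'⟩ : ∃ s : ℤ → X, s = fun l => s' l.toNat := ⟨_, rfl⟩
  rw [mul_assoc, ← hL] at d ⊢
  rw [← hr, ← hb]
  have b0 : 0 ≤ b := by rw [hb]; positivity
  have b1 : 8 * (3 ^ a + (h + 1)) * b ≤ 1 / N := by
    have : (0 : ℝ) < Q := by rw [hQ]; positivity
    rw [hb, ← mul_div_assoc, div_le_div_iff₀ this n0, hQ]
    push_cast
    nlinarith [Nat.cast_nonneg (α := ℝ) Γ]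
  have t1 : (0 : ℝ) ≤ 3 ^ a * b := by positivity
  have t2 : (0 : ℝ) ≤ (h + 1) * b := by positivity
  have L0 : 3 ^ a * r + (h + 1) * r + 2 * M * r + D ≤ L := by
    rw [← add_mul, ← add_mul, hL, hJ', add_mul _ _ Y, hD, mul_assoc _ (q + 1)]
    exact Nat.add_le_add_right (Nat.mul_le_mul_left _ (by rw [hr, add_one_mul]; omega)) _
  have L1 : ((3 ^ a : ℕ) : ℤ) * r + (h + 1 : ℕ) * r + 2 * (M * r) + D ≤ L := by
    rw [← mul_assoc]; exact_mod_cast L0
  have r0 : (0 : ℤ) ≤ r := Int.natCast_nonneg r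
  have m0 : ∀ m : ℕ, (0 : ℤ) ≤ m * r := fun m => mul_nonneg (Int.natCast_nonneg m) r0
  have m1 := m0 (3 ^ a)
  have m2 := m0 M
  have m3 := m0 (h + 1)
  have D0 : (0 : ℤ) ≤ D := Int.natCast_nonneg D
  have J2 : ((2 * L : ℕ) : ℤ) = L + L := by push_cast; ring
  have hs : ∀ i j : ℤ, 0 ≤ i → i ≤ (2 * L : ℕ) → 0 ≤ j → j ≤ (2 * L : ℕ) →
      dist (s i) (s j) = |(i : ℝ) - j| * v := fun i i' a1 a2 a3 a4 => by
    obtain ⟨i, rfl⟩ := Int.eq_ofNat_of_zero_le a1
    obtain ⟨i', rfl⟩ := Int.eq_ofNat_of_zero_le a3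
    simp only [hs', Int.toNat_natCast]
    rw [d _ (by omega) _ (by omega)]
    push_cast
    rfl
  have gen : ∀ g ∈ Mv G s' (2 * L) r b, ∃ τ : ℤ, |τ| ≤ r ∧
      (∀ l : ℤ, r ≤ l → l + r ≤ (2 * L : ℕ) → dist (g • s l) (s (l + τ)) ≤ b) ∧
      ∀ l : ℤ, r ≤ l → l + r ≤ (2 * L : ℕ) → dist (g⁻¹ • s l) (s (l + -τ)) ≤ b := by
    rintro g ⟨τ, e, k⟩
    have e' := abs_le.1 e
    refine ⟨τ, e, fun l a1 a2 => ?_, fun l a1 a2 => ?_⟩
    · rw [hs']
      exact k _ _ (by omega) (by omega) (by omega)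
    · rw [← A.iso g, smul_inv_smul, dist_comm, hs']
      exact k _ _ (by omega) (by omega) (by omega)
  obtain ⟨E, hE⟩ : ∃ E : ℕ → Set X, ∀ m p, p ∈ E m ↔ p ∈ Z ∧ ∃ l : ℤ, (3 ^ a : ℕ) * r + m * r ≤ l ∧
      l + ((3 ^ a : ℕ) * r + m * r) ≤ (2 * L : ℕ) ∧
      ∀ g : G, dist (g • s l) (s l) ≤ 1 / N + 2 * (m * b) → g • p = p :=
    ⟨fun m => {p | _}, fun _ _ => Iff.rfl⟩
  have an : Antitone E := fun m m' e p hp => by
    obtain ⟨p1, l, l1, l2, l3⟩ := (hE _ _).1 hp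
    have e1 : (m : ℤ) * r ≤ m' * r := mul_le_mul_of_nonneg_right (by exact_mod_cast e) r0
    have e2 : (m : ℝ) * b ≤ m' * b := mul_le_mul_of_nonneg_right (by exact_mod_cast e) b0
    exact (hE _ _).2 ⟨p1, l, by omega, by omega, fun g k => l3 g (by linarith)⟩
  have ex : ∀ l : ℤ, L ≤ l → l ≤ L + D → ∃ p ∈ E (h + 1), dist p (s l) ≤ P := fun l l1 l2 => by
    obtain ⟨p, p1, p2, p3⟩ := disc (s l)
    refine ⟨p, (hE _ _).2 ⟨p1, l, by omega, by omega, fun g k => p3 g (k.trans ?_)⟩, p2⟩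
    have : (2 : ℝ) / N = 1 / N + 1 / N := by ring
    push_cast
    linarith
  obtain ⟨p, p1, p2⟩ := ex L le_rfl (by omega)
  obtain ⟨p', p3, p4⟩ := ex (L + D) (by omega) le_rfl
  have wd : (R : ℝ) ≤ dist p p' := by
    have c := hs L (L + D) (by omega) (by omega) (by omega) (by omega)
    have c1 := dist_triangle4_left p p' (s L) (s (L + D))
    push_cast at c
    rw [sub_add_cancel_left, abs_neg, Nat.abs_cast] at c
    rw [div_le_iff₀ (by positivity)] at v1
    have c2 := mul_le_mul_of_nonneg_left v1 (by positivity : (0 : ℝ) ≤ R + 2 * P)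
    have c3 : (D : ℝ) * v = (R + 2 * P) * (v * (Γ * Y)) := by rw [hD]; push_cast; ring
    linarith
  obtain ⟨k, k1, k2⟩ := ht (fun k => E (h + 1 - k)) (fun _ _ e => an (by omega))
    (fun _ x hx => ((hE _ _).1 hx).1) ⟨p, p1, p', p3, wd⟩
  obtain ⟨m, hm⟩ : ∃ m, m = h - k := ⟨_, rfl⟩
  rw [show h + 1 - k = m + 1 by omega, show h + 1 - (k + 1) = m by omega] at k2
  have m4 := m0 m
  obtain ⟨V, hV⟩ : ∃ V, V = fixingSubgroup G (E m) := ⟨_, rfl⟩
  have mV : ∀ g, g ∈ V ↔ ∀ x ∈ E m, g • x = x := fun g => by rw [hV, mem_fixingSubgroup_iff]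
  have nr : ∀ (g : G) (τ : ℤ), |τ| ≤ r →
      (∀ l : ℤ, r ≤ l → l + r ≤ (2 * L : ℕ) → dist (g • s l) (s (l + τ)) ≤ b) →
      ∀ w ∈ V, g⁻¹ * w * g ∈ V := fun g τ e k w hw => by
    rw [hV, ← k2, mem_fixingSubgroup_iff]
    intro x hx
    obtain ⟨x1, l, l1, l2, l3⟩ := (hE _ _).1 hx
    have e' := abs_le.1 e
    have e1 : ((m + 1 : ℕ) : ℤ) * r = m * r + r := by push_cast; ring
    rw [e1] at l1 l2
    have c := k l (by omega) (by omega)
    rw [mul_smul, mul_smul, (mV w).1 hw _ ((hE _ _).2 ⟨hZ g x x1, l + τ, by omega, by omega,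
      fun u hu => ?_⟩), inv_smul_smul]
    rw [← smul_left_cancel_iff g⁻¹, inv_smul_smul, ← mul_smul, ← mul_smul]
    refine l3 _ ?_
    rw [← A.iso g, mul_smul, mul_smul, smul_inv_smul]
    have c1 := dist_triangle4_right (u • g • s l) (g • s l) (u • s (l + τ)) (s (l + τ))
    rw [A.iso] at c1
    push_cast
    linarith
  have gn : ∀ g ∈ Mv G s' (2 * L) r b, g ∈ normalizer (V : Set G) := fun g hg => by
    obtain ⟨τ, e, c1, c2⟩ := gen g hg
    refine mem_normalizer_iff''.2 fun w => ⟨nr g τ e c1 w, fun hw => ?_⟩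
    simpa [mul_assoc] using nr g⁻¹ (-τ) (by rwa [abs_neg]) c2 _ hw
  obtain ⟨x, hx⟩ := cyc_mod (G := normalizer (V : Set G)) (fun g => A.iso g) (V.subgroupOf _) s
    (c0 := 1 / N) (J := 2 * L) (r := r) (A := a) (b := b) hs (fun g k => (mV g).2 fun x hx => by
      obtain ⟨-, l, l1, l2, l3⟩ := (hE _ _).1 hx
      exact l3 _ ((k l (by omega) (by omega)).trans (le_add_of_nonneg_right (by positivity))))
    (fun w hw δ e e1 k => by
      have e' := abs_le.1 e1
      have jd : ∀ j ≤ M, -(2 * (M * r : ℤ)) ≤ j * δ ∧ (j : ℤ) * δ ≤ 2 * (M * r) := fun j hj => by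
        have j0 : (0 : ℤ) ≤ j := Int.natCast_nonneg j
        have j1 : (j : ℤ) * r ≤ M * r := mul_le_mul_of_nonneg_right (by exact_mod_cast hj) r0
        constructor <;> nlinarith [e'.1, e'.2]
      have c := tr_fix A.iso s ((mV w).1 hw p (an (by omega) p1)) p2 M (δ := δ) (e := e) fun j hj => by
        have := jd j hj.le
        exact k _ (by omega) (by omega)
      have := jd M le_rfl
      rw [hs _ _ (by omega) (by omega) (by omega) (by omega)] at c
      push_cast at c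
      rw [sub_add_cancel_left, abs_neg, abs_mul, Nat.abs_cast] at c
      have M0 : (0 : ℝ) < M := by rw [hM]; positivity
      have M1 : 2 * (P : ℝ) ≤ M * (1 / N / 2) := by
        rw [hM]
        push_cast
        have : (N : ℝ) * (1 / N) = 1 := by field_simp
        nlinarith [one_div_pos.2 n0, Nat.cast_nonneg (α := ℝ) P]
      exact le_of_mul_le_mul_left (by linarith) M0) v0 b0 (by
        rw [le_div_iff₀ (by linarith)] at v2
        have a2 : v ≤ 1 / 4 := by nlinarith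
        have a3 := mul_le_mul_of_nonneg_left v2 (Nat.cast_nonneg (α := ℝ) q)
        rw [ha, hr]
        push_cast
        rw [mul_comm (N : ℝ), mul_assoc _ (N : ℝ), mul_one_div_cancel n0.ne']
        linarith) (by linarith)
  have sb : E m ⊆ {z | z ∈ Z ∧ ∀ w ∈ V, w • z = z} := fun z hz =>
    ⟨((hE _ _).1 hz).1, fun w hw => (mV w).1 hw z hz⟩
  have iv : ∀ u ∈ normalizer (V : Set G), ∀ z ∈ {z | z ∈ Z ∧ ∀ w ∈ V, w • z = z},
      u • z ∈ {z | z ∈ Z ∧ ∀ w ∈ V, w • z = z} := fun u hu z hz => ⟨hZ u z hz.1, fun w hw => by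
    rw [← smul_left_cancel_iff u⁻¹, inv_smul_smul, ← mul_smul, ← mul_smul]
    exact hz.2 _ ((mem_normalizer_iff''.1 hu w).1 hw)⟩
  refine mono _ _ ((closure_le _).2 fun g hg => ?_) (ln _ (fun _ hz => hz.1)
    ⟨p, sb (an (by omega) p1), p', sb (an (by omega) p3), wd⟩ x
    fun z hz => ⟨iv _ x.2 z hz, iv _ (inv_mem x.2) z hz⟩)
  obtain ⟨τ, e, c1, -⟩ := gen g hg
  refine mem_subgroupOf.1 ((sup_le ?_ ?_ : _ ≤ Subgroup.subgroupOf _ _) (hx ⟨g, gn g hg⟩ τ e c1))
  · exact (zpowers_le).2 (mem_sup_left (mem_zpowers _))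
  · exact fun w hw => mem_sup_right ((mem_fixingSubgroup_iff _).2 fun z hz => hz.2 _ hw)

end Pool.Agent.Work.MP_9d1ffa_al.Gd
end

-- merged part: Pool.Agent.Work.MP_9d1ffa_al.Gd.Star
section
/-! The cone on a finite set is a grid. -/

namespace Pool.Agent.Work.MP_9d1ffa_al.Gd

open WL

/-- functions with values in `[0,1]` and at most one non-zero value -/
def StarS (B : Type) : Set (B → ℝ) :=
  {s | (∀ b, 0 ≤ s b ∧ s b ≤ 1) ∧ ∀ a b, a ≠ b → s a = 0 ∨ s b = 0}

variable {B : Type} [Fintype B]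

omit [Fintype B] in
theorem star_compact : IsCompact (StarS B) := by
  refine (isCompact_univ_pi fun _ : B => (isCompact_Icc : IsCompact (Set.Icc (0 : ℝ) 1))).of_isClosed_subset
    ?_ fun s hs b _ => hs.1 b
  simp only [StarS, Set.ofPred_and, Set.ofPred_forall, Set.ofPred_or]
  refine IsClosed.inter (isClosed_iInter fun b => IsClosed.inter
    (isClosed_le continuous_const (continuous_apply b))
    (isClosed_le (continuous_apply b) continuous_const))
    (isClosed_iInter fun a => isClosed_iInter fun b => isClosed_iInter fun _ => IsClosed.union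
      (isClosed_eq (continuous_apply a) continuous_const)
      (isClosed_eq (continuous_apply b) continuous_const))

theorem star_le (s : StarS B) (a : B) : s.1 a ≤ ∑ b, s.1 b :=
  Finset.single_le_sum (fun b _ => (s.2.1 b).1) (Finset.mem_univ a)

theorem star_add (s : StarS B) {a b : B} (h : a ≠ b) : s.1 a + s.1 b ≤ ∑ c, s.1 c := by
  rcases s.2.2 a b h with k | k
  · rw [k, zero_add]; exact star_le s b
  · rw [k, add_zero]; exact star_le s a

theorem star_max (s : StarS B) (a : B) : max 0 (2 * s.1 a - ∑ b, s.1 b) = s.1 a := by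
  by_cases h : s.1 a = 0
  · rw [h, max_eq_left]
    have := star_le s a
    linarith
  · have : ∑ b, s.1 b = s.1 a :=
      Finset.sum_eq_single a (fun b _ hb => (s.2.2 b a hb).resolve_right h) fun k =>
        absurd (Finset.mem_univ a) k
    rw [this, max_eq_right] <;> linarith [(s.2.1 a).1]

/-- segments in the cone -/
noncomputable def starSg (x y : StarS B) (t : unitInterval) : StarS B :=
  ⟨fun a => max 0 ((1 - t) * (2 * x.1 a - ∑ b, x.1 b) + t * (2 * y.1 a - ∑ b, y.1 b)), fun a =>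
    ⟨le_max_left _ _, max_le zero_le_one (by
      have h1 := star_le x a
      have h2 := star_le y a
      have h3 := (x.2.1 a).2
      have h4 := (y.2.1 a).2
      have h5 := t.2.1
      have h6 := t.2.2
      nlinarith)⟩, fun a b hab => by
    by_contra k
    push Not at k
    have h1 := star_add x hab
    have h2 := star_add y hab
    have h5 := t.2.1
    have h6 := t.2.2
    have h7 := not_le.1 fun h => k.1 (max_eq_left h)
    have h8 := not_le.1 fun h => k.2 (max_eq_left h)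
    nlinarith⟩

omit [Fintype B] in
theorem star_one (s : StarS B) [Nonempty B] : ∃ a, ∀ b, b ≠ a → s.1 b = 0 := by
  by_cases h : ∃ a, s.1 a ≠ 0
  · obtain ⟨a, ha⟩ := h
    exact ⟨a, fun b hb => (s.2.2 b a hb).resolve_right ha⟩
  · push Not at h
    exact ⟨Classical.arbitrary B, fun b _ => h b⟩

theorem grid_star [Nonempty B] : Grid 2 (StarS B) := by
  have := isCompact_iff_compactSpace.1 (star_compact (B := B))
  refine ⟨this, ⟨⟨0, fun _ => ⟨le_rfl, zero_le_one⟩, fun _ _ _ => Or.inl rfl⟩⟩,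
    ⟨starSg, ?_, fun x y => Subtype.ext (funext fun a => ?_), fun x y => Subtype.ext (funext fun a => ?_),
      fun x t => Subtype.ext (funext fun a => ?_)⟩, fun δ hδ => ?_⟩
  · refine Continuous.subtype_mk (continuous_pi fun a => ?_) _
    have e : ∀ b : B, Continuous fun s : StarS B => s.1 b := fun b =>
      (continuous_apply b).comp continuous_subtype_val
    have e' : Continuous fun s : StarS B => 2 * s.1 a - ∑ b, s.1 b :=
      (continuous_const.mul (e a)).sub (continuous_finsetSum _ fun b _ => e b)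
    have t : Continuous fun p : StarS B × StarS B × unitInterval => (p.2.2 : ℝ) := by fun_prop
    exact continuous_const.max (((continuous_const.sub t).mul (e'.comp continuous_fst)).add
      (t.mul (e'.comp (continuous_fst.comp continuous_snd))))
  · simpa [starSg] using star_max x a
  · simpa [starSg] using star_max y a
  · have := star_max x a
    simp only [starSg]
    rw [← this]
    congr 1
    rw [this]
    ring
  have e : ∀ b : B, Continuous fun s : StarS B => s.1 b := fun b =>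
    (continuous_apply b).comp continuous_subtype_val
  have h0 : 0 < δ / 2 := half_pos hδ
  refine ⟨Option (B × ℕ), fun a => match a with
    | none => {s | ∀ b, s.1 b < δ / 2}
    | some (b, k) => {s | |s.1 b / (δ / 2) - (k + 1)| < 1}, ?_, fun s => ?_, fun s => ?_, ?_⟩
  · rintro (_ | ⟨b, k⟩)
    · simp only [Set.ofPred_forall]
      exact isOpen_iInter_of_finite fun b => isOpen_lt (e b) continuous_const
    · exact isOpen_lt (((e b).div_const _).sub continuous_const).abs continuous_const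
  · by_cases h : ∀ b, s.1 b < δ / 2
    · exact ⟨none, h⟩
    · push Not at h
      obtain ⟨b, hb⟩ := h
      have h1 : 1 ≤ s.1 b / (δ / 2) := (one_le_div h0).2 hb
      have h2 : 1 ≤ ⌊s.1 b / (δ / 2)⌋₊ := Nat.le_floor (by simpa using h1)
      refine ⟨some (b, ⌊s.1 b / (δ / 2)⌋₊ - 1), (abs_lt.2 ⟨?_, ?_⟩ :
        |s.1 b / (δ / 2) - ((⌊s.1 b / (δ / 2)⌋₊ - 1 : ℕ) + 1)| < 1)⟩ <;> rw [Nat.cast_sub h2] <;>
        linarith [Nat.floor_le (zero_le_one.trans h1), Nat.lt_floor_add_one (s.1 b / (δ / 2)),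
          Nat.cast_one (R := ℝ)]
  · obtain ⟨a, ha⟩ := star_one s
    refine (Set.encard_le_encard (t := {none, some (a, ⌊s.1 a / (δ / 2)⌋₊),
      some (a, ⌊s.1 a / (δ / 2)⌋₊ - 1)}) ?_).trans ?_
    · rintro (_ | ⟨b, k⟩) h
      · exact Or.inl rfl
      · obtain ⟨h1, h2⟩ := abs_lt.1 (show |s.1 b / (δ / 2) - (k + 1)| < 1 from h)
        have h3 : (0 : ℝ) ≤ k := Nat.cast_nonneg k
        have h4 : b = a := by
          by_contra k
          rw [ha b k, zero_div] at h1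
          linarith
        subst h4
        have h5 : k ≤ ⌊s.1 b / (δ / 2)⌋₊ := Nat.le_floor (by linarith)
        have h6 : ⌊s.1 b / (δ / 2)⌋₊ < k + 2 :=
          (Nat.floor_lt (by linarith)).2 (by push_cast; linarith)
        have h7 : k = ⌊s.1 b / (δ / 2)⌋₊ ∨ k = ⌊s.1 b / (δ / 2)⌋₊ - 1 := by omega
        rcases h7 with h7 | h7
        · exact Or.inr (Or.inl (by rw [← h7]))
        · exact Or.inr (Or.inr (by rw [← h7]; rfl))
    · refine (Set.encard_insert_le _ _).trans ?_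
      refine (add_le_add_left (Set.encard_insert_le _ _) 1).trans ?_
      rw [Set.encard_singleton]
      rfl
  · rintro (_ | ⟨b, k⟩) x hx y hy
    · refine (dist_pi_le_iff hδ.le).2 fun b => ?_
      rw [Real.dist_eq]
      exact abs_le.2 ⟨by linarith [hy b, (x.2.1 b).1], by linarith [hx b, (y.2.1 b).1]⟩
    · obtain ⟨h1, h2⟩ := abs_lt.1 (show |x.1 b / (δ / 2) - (k + 1)| < 1 from hx)
      obtain ⟨h3, h4⟩ := abs_lt.1 (show |y.1 b / (δ / 2) - (k + 1)| < 1 from hy)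
      have h5 : (0 : ℝ) ≤ k := Nat.cast_nonneg k
      have h6 : x.1 b ≠ 0 := fun k => by rw [k, zero_div] at h1; linarith
      have h7 : y.1 b ≠ 0 := fun k => by rw [k, zero_div] at h3; linarith
      refine (dist_pi_le_iff hδ.le).2 fun a => ?_
      by_cases hab : a = b
      · subst hab
        have h8 : |x.1 a / (δ / 2) - y.1 a / (δ / 2)| < 2 := abs_lt.2 ⟨by linarith, by linarith⟩
        rw [← sub_div, abs_div, abs_of_pos h0, div_lt_iff₀ h0] at h8
        rw [Real.dist_eq]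
        linarith
      · rw [(x.2.2 a b hab).resolve_right h6, (y.2.2 a b hab).resolve_right h7, dist_self]
        exact hδ.le

end Pool.Agent.Work.MP_9d1ffa_al.Gd
end

-- merged part: Pool.Agent.Work.MP_9d1ffa_al.Gd.Cov
section
/-! Totally bounded sets that are invariant under contracted joins. -/

namespace Pool.Agent.Work.MP_9d1ffa_al.Gd

open Set

variable {X : Type} [MetricSpace X]

/-- continuous segments that do not increase distances -/
structure Bi (jn : X → X → ℝ → X) : Prop where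
  zero : ∀ x y, jn x y 0 = x
  one : ∀ x y, jn x y 1 = y
  lip : ∀ x y x' y', ∀ t ∈ Icc (0 : ℝ) 1, dist (jn x y t) (jn x' y' t) ≤ max (dist x x') (dist y y')
  tim : ∀ x y, ∀ t ∈ Icc (0 : ℝ) 1, ∀ t' ∈ Icc (0 : ℝ) 1,
    dist (jn x y t) (jn x y t') ≤ |t - t'| * dist x y

/-- `A` is covered by `N` balls of radius `r` with centres in the ball of radius `R` -/
def Cov (o : X) (R r : ℝ) (N : ℕ) (A : Set X) : Prop :=
  ∃ F : Finset X, F.card ≤ N ∧ (∀ f ∈ F, dist f o ≤ R) ∧ ∀ a ∈ A, ∃ f ∈ F, dist a f ≤ r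

/-- the union of the segments between points of `A` -/
def Jn (jn : X → X → ℝ → X) (A : Set X) : Set X :=
  {w | ∃ a ∈ A, ∃ b ∈ A, ∃ t ∈ Icc (0 : ℝ) 1, w = jn a b t}

variable {jn : X → X → ℝ → X} {o : X} {R R' r r' : ℝ} {N N' : ℕ} {A B : Set X}

theorem Bi.self (h : Bi jn) (x : X) {t : ℝ} (ht : t ∈ Icc (0 : ℝ) 1) : jn x x t = x := by
  have := h.tim x x t ht 0 ⟨le_rfl, zero_le_one⟩
  rw [dist_self, mul_zero, h.zero] at this
  exact dist_le_zero.1 this

theorem Bi.ball (h : Bi jn) {x y c : X} {ρ t : ℝ} (ht : t ∈ Icc (0 : ℝ) 1) (hx : dist x c ≤ ρ)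
    (hy : dist y c ≤ ρ) : dist (jn x y t) c ≤ ρ := by
  have := h.lip x y c c t ht
  rw [h.self c ht] at this
  exact this.trans (max_le hx hy)

theorem Bi.cont (h : Bi jn) {Y : Type} [TopologicalSpace Y] {a b : Y → X} {s : Y → ℝ}
    (ha : Continuous a) (hb : Continuous b) (hs : Continuous s) (h1 : ∀ y, s y ∈ Icc (0 : ℝ) 1) :
    Continuous fun y => jn (a y) (b y) (s y) := by
  refine continuous_iff_continuousAt.2 fun y0 => tendsto_iff_dist_tendsto_zero.2 ?_
  have k : Continuous fun y => max (dist (a y) (a y0)) (dist (b y) (b y0)) +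
      |s y - s y0| * dist (a y0) (b y0) := by fun_prop
  refine squeeze_zero (fun _ => dist_nonneg) (fun y => (dist_triangle _ (jn (a y0) (b y0) (s y)) _).trans
    (add_le_add (h.lip _ _ _ _ _ (h1 y)) (h.tim _ _ _ (h1 y) _ (h1 y0)))) ?_
  simpa using k.tendsto y0

theorem Cov.mono (h : Cov o R r N A) (h1 : R ≤ R') (h2 : r ≤ r') (h3 : N ≤ N') (h4 : B ⊆ A) :
    Cov o R' r' N' B :=
  let ⟨F, f1, f2, f3⟩ := h
  ⟨F, f1.trans h3, fun f hf => (f2 f hf).trans h1, fun a ha =>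
    let ⟨f, hf, k⟩ := f3 a (h4 ha)
    ⟨f, hf, k.trans h2⟩⟩

theorem Cov.ins (h : Cov o R r N A) (h1 : 0 ≤ R) (h2 : 0 ≤ r) : Cov o R r (N + 1) (insert o A) := by
  classical
  obtain ⟨F, f1, f2, f3⟩ := h
  refine ⟨insert o F, (Finset.card_insert_le _ _).trans (by omega), fun f hf => ?_, ?_⟩
  · rcases Finset.mem_insert.1 hf with rfl | hf
    · simpa using h1
    · exact f2 f hf
  · rintro a (rfl | ha)
    · exact ⟨a, Finset.mem_insert_self _ _, by simpa using h2⟩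
    · obtain ⟨f, hf, k⟩ := f3 a ha
      exact ⟨f, Finset.mem_insert_of_mem hf, k⟩

/-- images under a finite family of maps -/
theorem Cov.fam {ι : Type} (h : Cov o R r N A) (I : Finset ι) (u : ι → X → X)
    (h1 : ∀ i ∈ I, ∀ x, dist x o ≤ R → dist (u i x) o ≤ R')
    (h2 : ∀ i ∈ I, ∀ x y, dist x y ≤ r → dist (u i x) (u i y) ≤ r') :
    Cov o R' r' (I.card * N) {w | ∃ i ∈ I, ∃ a ∈ A, w = u i a} := by
  classical
  obtain ⟨F, f1, f2, f3⟩ := h
  refine ⟨(I ×ˢ F).image fun p => u p.1 p.2, Finset.card_image_le.trans ?_, fun f hf => ?_, ?_⟩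
  · rw [Finset.card_product]
    exact Nat.mul_le_mul_left _ f1
  · obtain ⟨p, hp, rfl⟩ := Finset.mem_image.1 hf
    obtain ⟨k1, k2⟩ := Finset.mem_product.1 hp
    exact h1 _ k1 _ (f2 _ k2)
  · rintro _ ⟨i, hi, a, ha, rfl⟩
    obtain ⟨f, hf, k⟩ := f3 a ha
    exact ⟨u i f, Finset.mem_image.2 ⟨(i, f), Finset.mem_product.2 ⟨hi, hf⟩, rfl⟩, h2 i hi _ _ k⟩

theorem Cov.join (hj : Bi jn) (h : Cov o R r N A) {D : ℕ} (hD : 0 < D) :
    Cov o R (r + 2 * R / D) (N ^ 2 * (D + 1)) (Jn jn A) := by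
  classical
  obtain ⟨F, f1, f2, f3⟩ := h
  have D0 : (0 : ℝ) < D := Nat.cast_pos.2 hD
  have hm : ∀ k ∈ Finset.range (D + 1), (k : ℝ) / D ∈ Icc (0 : ℝ) 1 := fun k hk =>
    ⟨by positivity, (div_le_one D0).2 (Nat.cast_le.2 (Nat.lt_succ_iff.1 (Finset.mem_range.1 hk)))⟩
  refine ⟨((F ×ˢ F) ×ˢ Finset.range (D + 1)).image fun p => jn p.1.1 p.1.2 (p.2 / D),
    Finset.card_image_le.trans ?_, fun f hf => ?_, ?_⟩
  · rw [Finset.card_product, Finset.card_product, Finset.card_range, sq]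
    exact Nat.mul_le_mul_right _ (Nat.mul_le_mul f1 f1)
  · obtain ⟨p, hp, rfl⟩ := Finset.mem_image.1 hf
    obtain ⟨k1, k2⟩ := Finset.mem_product.1 hp
    obtain ⟨k3, k4⟩ := Finset.mem_product.1 k1
    exact hj.ball (hm _ k2) (f2 _ k3) (f2 _ k4)
  · rintro _ ⟨a, ha, b, hb, t, ht, rfl⟩
    obtain ⟨f, hf, k⟩ := f3 a ha
    obtain ⟨g, hg, k'⟩ := f3 b hb
    have t0 : 0 ≤ t * D := mul_nonneg ht.1 D0.le
    have hk : ⌊t * D⌋₊ ∈ Finset.range (D + 1) := Finset.mem_range.2 (Nat.lt_succ_iff.2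
      (Nat.floor_le_of_le (by nlinarith [ht.2])))
    refine ⟨jn f g (⌊t * D⌋₊ / D), Finset.mem_image.2 ⟨((f, g), ⌊t * D⌋₊),
      Finset.mem_product.2 ⟨Finset.mem_product.2 ⟨hf, hg⟩, hk⟩, rfl⟩,
      (dist_triangle _ (jn f g t) _).trans (add_le_add ((hj.lip _ _ _ _ t ht).trans (max_le k k'))
        ((hj.tim _ _ t ht _ (hm _ hk)).trans ?_))⟩
    have h1 : |t - ⌊t * D⌋₊ / D| ≤ 1 / D := by
      have e : t - ⌊t * D⌋₊ / D = (t * D - ⌊t * D⌋₊) / D := by field_simp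
      rw [e, abs_div, abs_of_pos D0]
      exact div_le_div_of_nonneg_right (abs_le.2 ⟨by linarith [Nat.floor_le t0],
        by linarith [Nat.lt_floor_add_one (t * D)]⟩) D0.le
    have h2 : dist f g ≤ 2 * R := by linarith [dist_triangle_right f g o, f2 f hf, f2 g hg]
    calc _ ≤ 1 / D * (2 * R) := mul_le_mul h1 h2 dist_nonneg (by positivity)
      _ = _ := by ring

theorem Cov.iter (hj : Bi jn) (h : Cov o R r N A) {D : ℕ} (hD : 0 < D) (k : ℕ) :
    Cov o R (r + k * (2 * R / D)) ((fun M => M ^ 2 * (D + 1))^[k] N) ((Jn jn)^[k] A) := by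
  induction k with
  | zero => simpa using h
  | succ k ih =>
    rw [Function.iterate_succ_apply', Function.iterate_succ_apply']
    exact (ih.join hj hD).mono le_rfl (le_of_eq (by push_cast; ring)) le_rfl subset_rfl

omit [MetricSpace X] in
theorem jn_mono : Monotone (Jn jn) := fun _ _ h _ ⟨a, ha, b, hb, t, ht, e⟩ =>
  ⟨a, h ha, b, h hb, t, ht, e⟩

theorem Bi.sub (hj : Bi jn) (A : Set X) : A ⊆ Jn jn A := fun a ha =>
  ⟨a, ha, a, ha, 0, ⟨le_rfl, zero_le_one⟩, (hj.zero a a).symm⟩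

theorem Bi.sub_iter (hj : Bi jn) (A : Set X) (k : ℕ) : A ⊆ (Jn jn)^[k] A := by
  induction k with
  | zero => exact subset_rfl
  | succ k ih =>
    rw [Function.iterate_succ_apply']
    exact ih.trans (hj.sub _)

theorem Bi.jn_ball (hj : Bi jn) (h : ∀ a ∈ A, dist a o ≤ R) : ∀ a ∈ Jn jn A, dist a o ≤ R := by
  rintro _ ⟨a, ha, b, hb, t, ht, rfl⟩
  exact hj.ball ht (h a ha) (h b hb)

theorem Bi.iter_ball (hj : Bi jn) (h : ∀ a ∈ A, dist a o ≤ R) (k : ℕ) :
    ∀ a ∈ (Jn jn)^[k] A, dist a o ≤ R := by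
  induction k with
  | zero => exact h
  | succ k ih =>
    rw [Function.iterate_succ_apply']
    exact hj.jn_ball ih

/-- one step for the covering numbers -/
def stp (a D n N : ℕ) : ℕ := (fun M => M ^ 2 * (D + 1))^[n] ((a * N) ^ 2 * (D + 1) + 1)

/-- A bounded set `K` that contains the contracted joins of its images, with its covering
numbers. -/
theorem exists_inv (hj : Bi jn) {ι : Type} (I : Finset ι) (u : ι → X → X) (c : X → X) (n : ℕ)
    {T T' lam : ℝ} (T0 : 0 ≤ T) (T1 : 0 ≤ T') (l0 : 0 ≤ lam) (l1 : lam < 1) (hT : lam * T' ≤ T)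
    (h1 : ∀ i ∈ I, ∀ x, dist x o ≤ T → dist (u i x) o ≤ T')
    (h2 : ∀ i ∈ I, ∀ x y, dist (u i x) (u i y) ≤ dist x y) (c0 : c o = o)
    (c1 : ∀ x y, dist (c x) (c y) ≤ lam * dist x y) :
    ∃ K : Set X, (∀ y ∈ K, dist y o ≤ T) ∧
      (∀ w ∈ (Jn jn)^[n] (insert o (Jn jn {w | ∃ i ∈ I, ∃ a ∈ K, w = u i a})), c w ∈ K) ∧
      ∀ D j : ℕ, 0 < D → Cov o T (lam ^ j * T + (n + 1) * (2 * T' / D) / (1 - lam))
        ((stp I.card D n)^[j] 1) K := by
  let H : Set X →o Set X :=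
    ⟨fun A => c '' (Jn jn)^[n] (insert o (Jn jn {w | ∃ i ∈ I, ∃ a ∈ A, w = u i a})),
      fun A B h => image_mono ((jn_mono.iterate n) (insert_subset_insert (jn_mono
        fun _ ⟨i, hi, a, ha, e⟩ => ⟨i, hi, a, h ha, e⟩)))⟩
  have cb : ∀ x, dist x o ≤ T' → dist (c x) o ≤ T := fun x hx => by
    have := c1 x o
    rw [c0] at this
    exact this.trans ((mul_le_mul_of_nonneg_left hx l0).trans hT)
  have hb : H.lfp ≤ {y | dist y o ≤ T} := by
    refine H.lfp_le ?_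
    rintro _ ⟨w, hw, rfl⟩
    refine cb w (hj.iter_ball ?_ n w hw)
    rintro a (rfl | ha)
    · simpa using T1
    · refine hj.jn_ball ?_ a ha
      rintro _ ⟨i, hi, a, ha, rfl⟩
      exact h1 i hi a ha
  refine ⟨H.lfp, hb, fun w hw => ?_, fun D j hD => ?_⟩
  · rw [← H.map_lfp]
    exact ⟨w, hw, rfl⟩
  have D0 : (0 : ℝ) < D := Nat.cast_pos.2 hD
  have l2 : 0 < 1 - lam := sub_pos.2 l1
  have b0 : 0 ≤ 2 * T' / D := by positivity
  induction j with
  | zero =>
    refine ⟨{o}, by simp, by simpa using T0, fun a ha => ⟨o, by simp, (hb ha).trans ?_⟩⟩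
    have : 0 ≤ (n + 1) * (2 * T' / D) / (1 - lam) := by positivity
    simpa using this
  | succ j ih =>
    set r := lam ^ j * T + (n + 1) * (2 * T' / D) / (1 - lam) with hr
    have r0 : 0 ≤ r := by positivity
    have k1 := (((ih.fam I u (r' := r) h1 fun i hi x y k => (h2 i hi x y).trans k).join hj hD).ins T1
      (by positivity)).iter hj hD n
    have k2 := k1.fam (R' := T) (r' := lam * (r + 2 * T' / D + n * (2 * T' / D))) ({()} : Finset Unit)
      (fun _ => c) (fun _ _ => cb) fun _ _ x y k => (c1 x y).trans (mul_le_mul_of_nonneg_left k l0)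
    rw [Function.iterate_succ_apply']
    refine k2.mono le_rfl ?_ (by simp [stp]) fun w hw => ?_
    · have e : (n + 1) * (2 * T' / D) / (1 - lam) =
          lam * ((n + 1) * (2 * T' / D) / (1 - lam)) + (n + 1) * (2 * T' / D) := by
        field_simp
        ring
      have e2 : lam * ((n + 1) * (2 * T' / D)) ≤ (n + 1) * (2 * T' / D) :=
        mul_le_of_le_one_left (by positivity) l1.le
      rw [hr, pow_succ]
      nlinarith
    · rw [← H.map_lfp] at hw
      obtain ⟨w, hw, rfl⟩ := hw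
      exact ⟨(), by simp, w, hw, rfl⟩

end Pool.Agent.Work.MP_9d1ffa_al.Gd
end

-- merged part: Pool.Agent.Work.MP_9d1ffa_al.Gd.Blk
section
/-! A product of cones that dominates a totally bounded set. -/

namespace Pool.Agent.Work.MP_9d1ffa_al.Gd

open Set WL

variable {X : Type} [MetricSpace X] {jn : X → X → ℝ → X} {o : X}

/-- a gap in a finite family of numbers -/
theorem exists_gap {A : Type} [Fintype A] [DecidableEq A] (u : A → ℝ) {n : ℕ} {μ : ℝ} (hμ : 0 < μ)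
    (h1 : {c | 0 < u c}.encard ≤ (n + 1 : ℕ)) {c0 : A} (h2 : μ ≤ u c0) (h3 : ∀ c, 0 ≤ u c) :
    ∃ (k : Fin (n + 1)) (σ : Finset A), σ.card = k + 1 ∧
      ∀ c ∈ σ, μ / (n + 1) ≤ u c ∧ ∀ c' ∉ σ, μ / (n + 1) ≤ u c - u c' := by
  have d0 : 0 < μ / (n + 1) := by positivity
  have hP : (Finset.univ.filter fun c => 0 < u c).card ≤ n + 1 := by
    have : ((Finset.univ.filter fun c => 0 < u c : Finset A) : Set A) = {c | 0 < u c} := by simp
    rw [← this, encard_coe_eq_coe_finsetCard] at h1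
    exact_mod_cast h1
  have m0 : c0 ∈ Finset.univ.filter fun c => 0 < u c := by simpa using hμ.trans_le h2
  obtain ⟨j, hj, hj'⟩ : ∃ j ∈ Finset.range (n + 1), j ∉ ((Finset.univ.filter fun c => 0 < u c).erase
      c0).image fun c => ⌊u c / (μ / (n + 1))⌋₊ := by
    refine Finset.exists_mem_notMem_of_card_lt_card (Finset.card_image_le.trans_lt ?_)
    rw [Finset.card_erase_of_mem m0, Finset.card_range]
    omega
  have jn : (j : ℝ) + 1 ≤ n + 1 := by exact_mod_cast Finset.mem_range.1 hj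
  have j0 : (0 : ℝ) ≤ j * (μ / (n + 1)) := by positivity
  have e : (n + 1) * (μ / (n + 1)) = μ := by field_simp
  have a0 : (j + 1) * (μ / (n + 1)) ≤ u c0 := by nlinarith
  set σ := Finset.univ.filter fun c => (j + 1) * (μ / (n + 1)) ≤ u c with hσ
  have s1 : 0 < σ.card := Finset.card_pos.2 ⟨c0, by simpa [hσ] using a0⟩
  have s2 : σ.card ≤ n + 1 := (Finset.card_le_card fun c hc => by
    simp only [hσ, Finset.mem_filter, Finset.mem_univ, true_and] at hc ⊢
    linarith).trans hP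
  refine ⟨⟨σ.card - 1, by omega⟩, σ, by simp only; omega, fun c hc => ?_⟩
  simp only [hσ, Finset.mem_filter, Finset.mem_univ, true_and, not_le] at hc ⊢
  refine ⟨by linarith, fun c' hc' => ?_⟩
  suffices u c' ≤ j * (μ / (n + 1)) by linarith
  by_contra k
  push Not at k
  refine hj' (Finset.mem_image.2 ⟨c', Finset.mem_erase.2 ⟨fun e => ?_, by simpa using j0.trans_lt k⟩,
    (Nat.floor_eq_iff (div_nonneg (h3 _) d0.le)).2 ⟨(le_div_iff₀ d0).2 k.le, (div_lt_iff₀ d0).2 hc'⟩⟩)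
  rw [e] at hc'
  linarith

theorem dominate (hj : Bi jn) {Sm : Type} (mg : Sm → X → ℝ) {n N : ℕ} {μ η R : ℝ} (hμ : 0 < μ)
    (m0 : ∀ c x, 0 ≤ mg c x) (m1 : ∀ c x y, |mg c x - mg c y| ≤ dist x y)
    (m2 : ∀ x, {c | 0 < mg c x}.encard ≤ (n + 1 : ℕ)) (m3 : ∀ x, ∃ c, μ ≤ mg c x)
    (m4 : ∀ c x y, 0 < mg c x → 0 < mg c y → dist x y ≤ η) {K : Set X}
    (hK : Cov o R (μ / 2) N K) :
    ∃ (Z : Type) (_ : MetricSpace Z) (p : Z → X) (i : X → Z), Grid (3 ^ (n + 1)) Z ∧ Continuous p ∧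
      Continuous i ∧ (∀ z, p z ∈ (Jn jn)^[n + 1] (insert o K)) ∧ ∀ w ∈ K, dist (p (i w)) w ≤ η := by
  classical
  obtain ⟨F, -, f2, f3⟩ := hK
  have fin : {c | ∃ w ∈ K, μ ≤ mg c w}.Finite := by
    refine (F.finite_toSet.biUnion fun f _ => finite_of_encard_le_coe (m2 f)).subset ?_
    rintro c ⟨w, hw, hc⟩
    obtain ⟨f, hf, k⟩ := f3 w hw
    refine mem_biUnion hf ?_
    have := (abs_le.1 (m1 c w f)).2
    show 0 < mg c f
    linarith
  have := fin.fintype
  set A := {c | ∃ w ∈ K, μ ≤ mg c w}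
  have mc : ∀ c, Continuous (mg c) := fun c =>
    (LipschitzWith.of_dist_le_mul (K := 1) fun x y => by simpa [Real.dist_eq] using m1 c x y).continuous
  obtain ⟨cl, c1, c2, c3, c4⟩ : ∃ cl : ℝ → ℝ, Continuous cl ∧ (∀ r, 0 ≤ cl r ∧ cl r ≤ 1) ∧
      (∀ r, cl r ≠ 0 → 0 < r) ∧ ∀ r, μ / (n + 1) ≤ r → cl r = 1 := by
    have d0 : 0 < μ / (n + 1) := by positivity
    refine ⟨fun r => max 0 (min 1 (r / (μ / (n + 1)))), by fun_prop,
      fun r => ⟨le_max_left _ _, max_le zero_le_one (min_le_left _ _)⟩, fun r h => ?_, fun r h => ?_⟩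
    · by_contra k
      exact h (max_eq_left ((min_le_right _ _).trans (div_nonpos_of_nonpos_of_nonneg (not_lt.1 k) d0.le)))
    · simp only
      rw [min_eq_left ((one_le_div d0).2 h), max_eq_right zero_le_one]
  obtain ⟨t, t1, t2, t3, t4⟩ : ∃ t : Finset A → X → ℝ, (∀ σ, Continuous (t σ)) ∧
      (∀ σ x, 0 ≤ t σ x ∧ t σ x ≤ 1) ∧
      (∀ σ x, t σ x ≠ 0 → ∀ c ∈ σ, 0 < mg c.1 x ∧ ∀ c' ∉ σ, mg c'.1 x < mg c.1 x) ∧
      ∀ σ x, (∀ c ∈ σ, μ / (n + 1) ≤ mg c.1 x ∧ ∀ c' ∉ σ, μ / (n + 1) ≤ mg c.1 x - mg c'.1 x) →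
        t σ x = 1 := by
    refine ⟨fun σ x => ∏ c ∈ σ, (cl (mg c x) * ∏ c' ∈ σᶜ, cl (mg c x - mg c' x)), fun σ =>
      continuous_finsetProd _ fun c _ => (c1.comp (mc _)).mul
        (continuous_finsetProd _ fun c' _ => c1.comp ((mc _).sub (mc _))), fun σ x => ?_,
      fun σ x h c hc => ?_, fun σ x h => Finset.prod_eq_one fun c hc => ?_⟩
    · have k : ∀ c : A, 0 ≤ ∏ c' ∈ σᶜ, cl (mg c x - mg c' x) := fun c =>
        Finset.prod_nonneg fun _ _ => (c2 _).1
      exact ⟨Finset.prod_nonneg fun c _ => mul_nonneg (c2 _).1 (k c), Finset.prod_le_one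
        (fun c _ => mul_nonneg (c2 _).1 (k c)) fun c _ => mul_le_one₀ (c2 _).2 (k c)
          (Finset.prod_le_one (fun _ _ => (c2 _).1) fun _ _ => (c2 _).2)⟩
    · have k := mul_ne_zero_iff.1 (Finset.prod_ne_zero_iff.1 h c hc)
      exact ⟨c3 _ k.1, fun c' hc' => sub_pos.1 (c3 _ (Finset.prod_ne_zero_iff.1 k.2 c'
        (Finset.mem_compl.2 hc')))⟩
    · rw [c4 _ (h c hc).1, one_mul]
      exact Finset.prod_eq_one fun c' hc' => c4 _ ((h c hc).2 c' (Finset.mem_compl.1 hc'))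
  obtain ⟨xs, x1, x2⟩ : ∃ xs : Finset A → X, (∀ σ, xs σ ∈ insert o K) ∧
      ∀ σ, σ.Nonempty → ∀ w ∈ K, t σ w ≠ 0 → dist (xs σ) w ≤ η := by
    refine ⟨fun σ => if h : ∃ w ∈ K, t σ w ≠ 0 then h.choose else o, fun σ => ?_,
      fun σ ⟨c, hc⟩ w hw k => ?_⟩
    · by_cases h : ∃ w ∈ K, t σ w ≠ 0
      · simp only [dif_pos h]
        exact Or.inr h.choose_spec.1
      · simp only [dif_neg h]
        exact Or.inl rfl
    · have h : ∃ w ∈ K, t σ w ≠ 0 := ⟨w, hw, k⟩
      simp only [dif_pos h]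
      exact m4 c _ _ (t3 _ _ h.choose_spec.2 c hc).1 (t3 _ _ k c hc).1
  choose top htop using fun s : StarS (Finset A) => star_one s
  obtain ⟨M, hM⟩ : ∃ M : ℝ, ∀ σ, dist (xs σ) o ≤ M :=
    (Set.finite_range fun σ => dist (xs σ) o).bddAbove.imp fun M h σ => h ⟨σ, rfl⟩
  have sI : ∀ (s : StarS (Finset A)) σ, s.1 σ ∈ Icc (0 : ℝ) 1 := fun s σ => s.2.1 σ
  have z1 : (0 : ℝ) ∈ Icc (0 : ℝ) 1 := ⟨le_rfl, zero_le_one⟩
  have est : ∀ (x x' : X) (s s' : StarS (Finset A)), dist (jn x (xs (top s)) (s.1 (top s)))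
      (jn x' (xs (top s')) (s'.1 (top s'))) ≤
        dist x x' + dist s s' * (dist x o + dist x' o + 2 * M) := fun x x' s s' => by
    have k : ∀ σ, |s.1 σ - s'.1 σ| ≤ dist s s' := fun σ => dist_le_pi_dist s.1 s'.1 σ
    have k0 : 0 ≤ dist s s' := dist_nonneg
    have k1 : ∀ y σ, dist y (xs σ) ≤ dist y o + M := fun y σ => by
      linarith [dist_triangle_right y (xs σ) o, hM σ]
    have k2 : 0 ≤ M := dist_nonneg.trans (hM ∅)
    have k3 : 0 ≤ dist x o := dist_nonneg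
    have k4 : 0 ≤ dist x' o := dist_nonneg
    by_cases h : top s = top s'
    · rw [← h]
      have a1 := hj.lip x (xs (top s)) x' (xs (top s)) _ (sI s (top s))
      have a2 := (hj.tim x' (xs (top s)) _ (sI s (top s)) _ (sI s' (top s))).trans
        (mul_le_mul (k _) (k1 _ _) dist_nonneg k0)
      rw [dist_self, max_eq_left dist_nonneg] at a1
      have a3 := dist_triangle (jn x (xs (top s)) (s.1 (top s))) (jn x' (xs (top s)) (s.1 (top s)))
        (jn x' (xs (top s)) (s'.1 (top s)))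
      nlinarith
    · have b1 := k (top s)
      have b2 := k (top s')
      rw [htop s' _ h] at b1
      rw [htop s _ (Ne.symm h), abs_sub_comm] at b2
      have a1 := (hj.tim x (xs (top s)) _ (sI s (top s)) _ z1).trans
        (mul_le_mul b1 (k1 _ _) dist_nonneg k0)
      have a2 := (hj.tim x' (xs (top s')) _ (sI s' (top s')) _ z1).trans
        (mul_le_mul b2 (k1 _ _) dist_nonneg k0)
      rw [hj.zero] at a1 a2
      have a3 := dist_triangle4_right (jn x (xs (top s)) (s.1 (top s)))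
        (jn x' (xs (top s')) (s'.1 (top s'))) x x'
      nlinarith
  let Z := Fin (n + 1) → StarS (Finset A)
  let bb : Z → ℕ → X := fun z k => Nat.rec o (fun k b =>
    if h : k < n + 1 then jn b (xs (top (z ⟨k, h⟩))) ((z ⟨k, h⟩).1 (top (z ⟨k, h⟩))) else b) k
  have bs : ∀ z k (h : k < n + 1), bb z (k + 1) =
      jn (bb z k) (xs (top (z ⟨k, h⟩))) ((z ⟨k, h⟩).1 (top (z ⟨k, h⟩))) := fun z k h => dif_pos h
  let inc : X → Z := fun x k => ⟨fun σ => if σ.card = k + 1 then t σ x else 0, fun σ => by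
    by_cases h : σ.card = k + 1
    · simpa only [if_pos h] using t2 σ x
    · simp only [if_neg h]
      exact ⟨le_rfl, zero_le_one⟩, fun σ σ' hne => by
    by_contra k'
    push Not at k'
    obtain ⟨a1, a2⟩ := ite_ne_right_iff.1 k'.1
    obtain ⟨a3, a4⟩ := ite_ne_right_iff.1 k'.2
    obtain ⟨c, hc, hc'⟩ := Finset.not_subset.1 fun h : σ ⊆ σ' =>
      hne (Finset.eq_of_subset_of_card_le h (by omega))
    obtain ⟨d, hd, hd'⟩ := Finset.not_subset.1 fun h : σ' ⊆ σ =>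
      hne (Finset.eq_of_subset_of_card_le h (by omega)).symm
    exact ((t3 _ _ a2 c hc).2 d hd').not_gt ((t3 _ _ a4 d hd).2 c hc')⟩
  refine ⟨Z, inferInstance, fun z => bb z (n + 1), inc,
    Grid.pi (fun _ => grid_star) (by simp), ?_, ?_, fun z => ?_, fun w hw => ?_⟩
  · have : ∀ k ≤ n + 1, Continuous fun z => bb z k := fun k hk => by
      induction k with
      | zero => exact continuous_const
      | succ k ih =>
        have ih := ih (by omega)
        simp only [bs _ k hk]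
        refine continuous_iff_continuousAt.2 fun y0 => tendsto_iff_dist_tendsto_zero.2 ?_
        have k : Continuous fun y : Z => dist (bb y k) (bb y0 k) + dist (y ⟨k, hk⟩) (y0 ⟨k, hk⟩) *
            (dist (bb y k) o + dist (bb y0 k) o + 2 * M) := by fun_prop
        refine squeeze_zero (fun _ => dist_nonneg) (fun y => est _ _ _ _) ?_
        simpa using k.tendsto y0
    exact this _ le_rfl
  · refine continuous_pi fun k => Continuous.subtype_mk (continuous_pi fun σ => ?_) _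
    by_cases h : σ.card = k + 1
    · simpa only [if_pos h] using t1 σ
    · simpa only [if_neg h] using continuous_const
  · have : ∀ k ≤ n + 1, bb z k ∈ (Jn jn)^[k] (insert o K) := fun k hk => by
      induction k with
      | zero => exact Or.inl rfl
      | succ k ih =>
        rw [bs _ k hk, Function.iterate_succ_apply']
        exact ⟨_, ih (by omega), _, hj.sub_iter _ k (x1 _), _, sI _ _, rfl⟩
    exact this _ le_rfl
  · obtain ⟨c, hc⟩ := m3 w
    obtain ⟨k0, σ, s1, s2⟩ := exists_gap (fun c : A => mg c w) hμ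
      ((encard_le_encard_of_injOn (f := Subtype.val) (fun _ h => h)
        Subtype.val_injective.injOn).trans (m2 w)) (c0 := ⟨c, w, hw, hc⟩) hc fun _ => m0 _ _
    have near : ∀ k : Fin (n + 1), (inc w k).1 (top (inc w k)) ≠ 0 →
        dist (xs (top (inc w k))) w ≤ η := fun k h => by
      obtain ⟨a1, a2⟩ := ite_ne_right_iff.1 h
      exact x2 _ (Finset.card_pos.1 (by omega)) w hw a2
    have : ∀ k ≤ n + 1, k0 < k → dist (bb (inc w) k) w ≤ η := fun k hk h => by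
      induction k with
      | zero => omega
      | succ k ih =>
        rw [bs _ k hk]
        by_cases e : (k0 : ℕ) = k
        · have e1 : (inc w ⟨k, hk⟩).1 σ = 1 := (if_pos (by rw [s1, e])).trans (t4 _ _ s2)
          have e2 : σ = top (inc w ⟨k, hk⟩) := by
            by_contra k'
            rw [htop _ _ k'] at e1
            exact zero_ne_one e1
          rw [e2] at e1
          rw [e1, hj.one]
          exact near _ (by rw [e1]; exact one_ne_zero)
        · have ih := ih (by omega) (by omega)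
          by_cases e1 : (inc w ⟨k, hk⟩).1 (top (inc w ⟨k, hk⟩)) = 0
          · rw [e1, hj.zero]
            exact ih
          · exact hj.ball (sI _ _) ih (near _ e1)
    exact this _ le_rfl k0.2

/-- a path through finitely many nodes -/
theorem polygon (hj : Bi jn) {Z : Type} [TopologicalSpace Z] (N : ℕ → Z → X) (k : ℕ)
    (hN : ∀ j ≤ k, Continuous (N j)) (hk : 0 < k) :
    ∃ H : Z → unitInterval → X, (Continuous fun p : Z × unitInterval => H p.1 p.2) ∧
      (∀ y, H y 0 = N 0 y) ∧ (∀ y, H y 1 = N k y) ∧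
      ∀ y a, ∃ j < k, ∃ t ∈ Icc (0 : ℝ) 1, H y a = jn (N j y) (N (j + 1) y) t := by
  let P : Z → unitInterval → ℕ → X := fun y a j => Nat.rec (N 0 y) (fun j b =>
    jn b (N (j + 1) y) (max 0 (min 1 (a * k - j)))) j
  have ps : ∀ y a j, P y a (j + 1) = jn (P y a j) (N (j + 1) y) (max 0 (min 1 (a * k - j))) :=
    fun _ _ _ => rfl
  have cI : ∀ r : ℝ, max 0 (min 1 r) ∈ Icc (0 : ℝ) 1 := fun r =>
    ⟨le_max_left _ _, max_le zero_le_one (min_le_left _ _)⟩
  have top : ∀ y (a : unitInterval) (j : ℕ), (j : ℝ) ≤ a * k → P y a j = N j y := fun y a j h => by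
    cases j with
    | zero => rfl
    | succ j =>
      push_cast at h
      rw [ps, min_eq_left (by linarith), max_eq_right zero_le_one, hj.one]
  refine ⟨fun y a => P y a k, ?_, fun y => ?_, fun y => top y 1 k (by simp), fun y a => ?_⟩
  · have : ∀ j ≤ k, Continuous fun p : Z × unitInterval => P p.1 p.2 j := fun j h => by
      induction j with
      | zero => exact (hN 0 h).comp continuous_fst
      | succ j ih =>
        exact hj.cont (ih (by omega)) ((hN _ h).comp continuous_fst) (by fun_prop) fun _ => cI _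
    exact this k le_rfl
  · have : ∀ j, P y 0 j = N 0 y := fun j => by
      induction j with
      | zero => rfl
      | succ j ih =>
        rw [ps, max_eq_left ((min_le_right _ _).trans (by simp)), hj.zero, ih]
    exact this k
  · have : ∀ j, ∃ i < j + 1, ∃ t ∈ Icc (0 : ℝ) 1, P y a (j + 1) = jn (N i y) (N (i + 1) y) t :=
      fun j => by
        induction j with
        | zero => exact ⟨0, Nat.one_pos, _, cI _, rfl⟩
        | succ j ih =>
          by_cases h : ((j + 1 : ℕ) : ℝ) ≤ a * k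
          · exact ⟨j + 1, Nat.lt_succ_self _, _, cI _, (ps y a (j + 1)).trans (by rw [top y a _ h])⟩
          · obtain ⟨i, hi, t, ht, e⟩ := ih
            refine ⟨i, by omega, t, ht, (ps y a (j + 1)).trans ?_⟩
            rw [max_eq_left ((min_le_right _ _).trans (by linarith)), hj.zero, e]
    obtain ⟨j, rfl⟩ : ∃ j, k = j + 1 := ⟨k - 1, by omega⟩
    exact this j

end Pool.Agent.Work.MP_9d1ffa_al.Gd
end

-- merged part: Pool.Agent.Work.MP_9d1ffa_al.Gd.Zm
section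
/-! Actions up to homotopy from segments that do not increase distances. -/

namespace Pool.Agent.Work.MP_9d1ffa_al.Gd

open Set WL Ga Gb

theorem stp_le {a D n N N' : ℕ} (h : N ≤ N') (h1 : 1 ≤ N') :
    stp a D n N ≤ ((a + 1) * (D + 1) * N') ^ 2 ^ (n + 1) := by
  have k : ∀ M, (fun M => M ^ 2 * (D + 1))^[n] M * (D + 1) = (M * (D + 1)) ^ 2 ^ n := fun M => by
    induction n with
    | zero => simp
    | succ n ih =>
      rw [Function.iterate_succ_apply', pow_succ 2 n, pow_mul, ← ih]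
      ring
  refine (Nat.le_mul_of_pos_right _ (Nat.succ_pos D)).trans ((k _).trans_le ?_)
  rw [pow_succ' 2 n, pow_mul]
  refine Nat.pow_le_pow_left ?_ _
  have h2 : (a * N) ^ 2 + 1 ≤ ((a + 1) * N') ^ 2 := by
    have := Nat.pow_le_pow_left (Nat.mul_le_mul_left a h) 2
    nlinarith [Nat.zero_le (a * N' ^ 2), Nat.one_le_pow 2 _ h1]
  calc _ ≤ ((a * N) ^ 2 + 1) * (D + 1) * (D + 1) := Nat.mul_le_mul_right _ (by nlinarith)
    _ ≤ ((a + 1) * N') ^ 2 * (D + 1) * (D + 1) := by gcongr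
    _ = _ := by ring

theorem stp_iter {a a' : ℕ} (h : a ≤ a') (D n j : ℕ) :
    (stp a D n)^[j] 1 ≤ ((a' + 1) * (D + 1)) ^ (2 ^ (n + 2)) ^ j := by
  have w : 1 ≤ (a' + 1) * (D + 1) := Nat.mul_pos a'.succ_pos D.succ_pos
  induction j with
  | zero => simpa using w
  | succ j ih =>
    rw [Function.iterate_succ_apply']
    refine (stp_le ih (Nat.one_le_pow _ _ w)).trans ?_
    refine (Nat.pow_le_pow_left (Nat.mul_le_mul_right _ (Nat.mul_le_mul_right _
      (Nat.succ_le_succ h))) _).trans ?_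
    rw [← pow_succ', ← pow_mul]
    refine Nat.pow_le_pow_right w ?_
    have : 1 ≤ (2 ^ (n + 2)) ^ j := Nat.one_le_pow _ _ (by positivity)
    rw [pow_succ (2 ^ (n + 2)) j]
    generalize (2 ^ (n + 2)) ^ j = e at this
    rw [pow_succ 2 (n + 1)]
    nlinarith [Nat.zero_le (2 ^ (n + 1))]

theorem encard_un {α β : Type} (F : Finset α) (f : α → Set β) {n : ℕ}
    (h : ∀ a ∈ F, (f a).encard ≤ n) : (⋃ a ∈ F, f a).encard ≤ (F.card * n : ℕ) := by
  classical
  induction F using Finset.induction_on with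
  | empty => simp
  | insert a F ha ih =>
    rw [Finset.set_biUnion_insert, Finset.card_insert_of_notMem ha, add_one_mul, add_comm, Nat.cast_add]
    exact (encard_union_le _ _).trans (add_le_add (h a (Finset.mem_insert_self _ _))
      (ih fun b hb => h b (Finset.mem_insert_of_mem hb)))

variable {G X Sm : Type} [Group G] [MetricSpace X] [MulAction G X] [MulAction G Sm]

theorem near (A : Geo G X Sm) {κ Y : ℕ} (k0 : 0 < κ) (hY : 2 * κ + 2 ≤ Y) {g : G}
    (hg : dist (g • A.o) A.o ≤ κ) {z y : X} {s l : ℕ} (hs : s ≤ (κ + 1) * Y) (hl : l ≤ (κ + 1) * Y)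
    {e : ℝ} (h : dist z (g • A.σ (Y ^ 4) y s) ≤ e) (hz : dist z A.o ≤ (Y ^ 3 : ℕ) + κ) :
    dist (A.σ (Y ^ 4) z l) (g • A.σ (Y ^ 4) y (l + s)) ≤ e + 1 / Y := by
  have a1 : 2 * ((κ + 1) * Y) ≤ Y ^ 2 := by nlinarith
  have a2 : 4 * Y ^ 2 ≤ Y ^ 4 := by
    have : 4 ≤ Y ^ 2 := by nlinarith
    nlinarith
  have a3 : 0 < Y ^ 2 := Nat.pow_pos (by omega)
  refine (A.key (by omega) h hz hg (by omega)).trans (add_le_add le_rfl ?_)
  have y0 : (4 : ℝ) ≤ Y := by exact_mod_cast (by omega : 4 ≤ Y)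
  have b0 : (2 : ℝ) * κ + 2 ≤ Y := by exact_mod_cast hY
  have b1 : 2 * (l : ℝ) ≤ Y ^ 2 := by exact_mod_cast (by omega : 2 * l ≤ Y ^ 2)
  have b2 : (s : ℝ) ≤ (κ + 1) * Y := by exact_mod_cast hs
  have b3 : 4 * (s : ℝ) ≤ Y ^ 4 := by exact_mod_cast (by omega : 4 * s ≤ Y ^ 4)
  have b4 : (κ : ℝ) ≤ Y ^ 3 := by nlinarith [pow_le_pow_right₀ (by linarith : (1 : ℝ) ≤ Y) (by omega : 1 ≤ 3)]
  have k1 : (0 : ℝ) ≤ κ := Nat.cast_nonneg κ
  have s0 : (0 : ℝ) ≤ s := Nat.cast_nonneg s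
  have y4 : (0 : ℝ) < Y ^ 4 := by positivity
  push_cast
  have b5 : (s : ℝ) * (Y ^ 3 + κ) / Y ^ 4 + κ ≤ 3 / 2 * Y := by
    have : (s : ℝ) * (Y ^ 3 + κ) / Y ^ 4 ≤ 2 * (κ + 1) := by
      rw [div_le_iff₀ y4]
      calc _ ≤ (κ + 1) * Y * (Y ^ 3 + Y ^ 3 : ℝ) := by gcongr
        _ = _ := by ring
    linarith
  rw [div_le_div_iff₀ (by linarith) (by linarith)]
  calc _ ≤ (Y ^ 2 / 2 : ℝ) * (3 / 2 * Y) * Y := by
        gcongr
        linarith
    _ = 3 / 4 * Y ^ 4 := by ring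
    _ ≤ _ := by linarith

theorem hasZM (A : Geo G X Sm) {jn : X → X → ℝ → X} (hj : Bi jn) : A.HasZM := by
  classical
  refine ⟨3 ^ (A.n + 1), fun κ Y _ => ((((κ + 1) * Y + 1) * κ + 1) * (8 * (A.n + 2) * Y ^ 6 * Y + 1)) ^
    (2 ^ (A.n + 1 + 2)) ^ (2 * Y ^ 6 * Y) * (Y ^ 4 + 1) * (A.n + 1), fun κ Q => ?_,
    fun S κ Y h1 hS hκ hY => ?_⟩
  · have p : ∀ k, El fun Y => Y ^ k := fun k => El.id.pow (El.const k)
    exact ((((((((El.const _).mul El.id).add (El.const 1)).mul (El.const _)).add (El.const 1)).mul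
      ((((El.const _).mul (p 6)).mul El.id).add (El.const 1))).pow ((El.const _).pow
        (((El.const 2).mul (p 6)).mul El.id))).mul ((p 4).add (El.const 1))).mul (El.const _)
  have k0 : 0 < κ := (Finset.card_pos.2 ⟨1, h1⟩).trans_le hS
  have Y0 : 0 < Y := by omega
  have hm : 0 < Y ^ 4 := by positivity
  have a1 : (κ + 1) * Y ≤ Y ^ 4 := by
    have : Y * Y ≤ Y ^ 4 := by rw [← sq]; exact Nat.pow_le_pow_right Y0 (by omega)
    nlinarith
  have y0 : (4 : ℝ) ≤ Y := by exact_mod_cast (by omega : 4 ≤ Y)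
  have y1 : (0 : ℝ) < Y := by linarith
  have b0 : (2 : ℝ) * κ + 2 ≤ Y := by exact_mod_cast hY
  have k1 : (0 : ℝ) ≤ κ := Nat.cast_nonneg κ
  have y3 : (Y : ℝ) ≤ Y ^ 3 := by
    simpa using pow_le_pow_right₀ (by linarith : (1 : ℝ) ≤ Y) (by omega : 1 ≤ 3)
  have sl : ∀ l ≤ Y ^ 4, ∀ x y, dist (A.σ (Y ^ 4) x l) (A.σ (Y ^ 4) y l) ≤
      (1 - l / Y ^ 4) * dist x y := fun l hl x y => by
    obtain ⟨c1, c2, c3⟩ := A.σ_spec hm x
    obtain ⟨d1, d2, d3⟩ := A.σ_spec hm y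
    refine (A.cvx c1 d1 hm hl).trans_eq ?_
    rw [c2, c3, d2, d3, dist_self]
    push_cast
    field_simp
    ring
  have sl' : ∀ l ≤ Y ^ 4, ∀ x y, dist (A.σ (Y ^ 4) x l) (A.σ (Y ^ 4) y l) ≤ dist x y :=
    fun l hl x y => (sl l hl x y).trans (mul_le_of_le_one_left dist_nonneg (sub_le_self _ (by positivity)))
  have so : ∀ l ≤ Y ^ 4, A.σ (Y ^ 4) A.o l = A.o := fun l hl => by
    have := A.σ_step hm A.o hl le_rfl
    rwa [(A.σ_spec hm A.o).2.2, dist_self, zero_div, mul_zero, dist_eq_zero] at this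
  have gb : ∀ g ∈ S, ∀ x, dist x A.o ≤ (Y ^ 3 : ℕ) → dist (g • x) A.o ≤ (Y ^ 3 : ℕ) + κ :=
    fun g hg x hx => by linarith [dist_triangle (g • x) (g • A.o) A.o, A.iso g x A.o, hκ g hg]
  set I := Finset.range ((κ + 1) * Y + 1) ×ˢ S with hI
  have mI : ∀ p ∈ I, p.1 ≤ Y ^ 4 ∧ p.2 ∈ S := fun p hp =>
    ⟨(Nat.lt_succ_iff.1 (Finset.mem_range.1 (Finset.mem_product.1 hp).1)).trans a1,
      (Finset.mem_product.1 hp).2⟩
  have u1 : ∀ p ∈ I, ∀ x, dist x A.o ≤ (Y ^ 3 : ℕ) →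
      dist (A.σ (Y ^ 4) (p.2 • x) p.1) A.o ≤ (Y ^ 3 : ℕ) + κ := fun p hp x hx => by
    have := sl' _ (mI p hp).1 (p.2 • x) A.o
    rw [so _ (mI p hp).1] at this
    exact this.trans (gb _ (mI p hp).2 x hx)
  have u2 : ∀ p ∈ I, ∀ x y, dist (A.σ (Y ^ 4) (p.2 • x) p.1) (A.σ (Y ^ 4) (p.2 • y) p.1) ≤ dist x y :=
    fun p hp x y => (sl' _ (mI p hp).1 _ _).trans_eq (A.iso _ _ _)
  have le : (1 : ℝ) - ((κ + 1) * Y : ℕ) / Y ^ 4 = 1 - (κ + 1) / Y ^ 3 := by
    push_cast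
    field_simp
  have l0 : (0 : ℝ) ≤ 1 - (κ + 1) / Y ^ 3 := sub_nonneg.2 ((div_le_one (by positivity)).2 (by linarith))
  obtain ⟨K, K1, K2, K3⟩ := exists_inv (o := A.o) hj I (fun p x => A.σ (Y ^ 4) (p.2 • x) p.1)
    (fun x => A.σ (Y ^ 4) x ((κ + 1) * Y)) (A.n + 1) (T := (Y ^ 3 : ℕ)) (T' := (Y ^ 3 : ℕ) + κ)
    (lam := 1 - (κ + 1) / Y ^ 3) (by positivity) (by positivity) l0
    (sub_lt_self _ (by positivity)) (by
      push_cast
      have : (κ + 1) / Y ^ 3 * (Y ^ 3 : ℝ) = κ + 1 := by field_simp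
      have : 0 ≤ (κ + 1) / (Y ^ 3 : ℝ) * κ := by positivity
      nlinarith) u1 u2 (so _ a1) fun x y => le ▸ sl _ a1 x y
  have K4 : ∀ E : ℕ, 0 < E → Cov A.o (Y ^ 3 : ℕ) (1 / E)
      ((stp I.card (8 * (A.n + 2) * Y ^ 6 * E) (A.n + 1))^[2 * Y ^ 6 * E] 1) K := fun E hE => by
    refine (K3 _ _ (by positivity)).mono le_rfl ?_ le_rfl subset_rfl
    have E0 : (0 : ℝ) < E := Nat.cast_pos.2 hE
    have x0 : (0 : ℝ) < (κ + 1) / Y ^ 3 := by positivity
    have x1 : 1 / Y ^ 3 ≤ ((κ + 1) / Y ^ 3 : ℝ) := by gcongr; linarith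
    have e1 : (1 - (κ + 1) / Y ^ 3 : ℝ) ^ (2 * Y ^ 6 * E) * (2 * Y ^ 3 * E) ≤ 1 := by
      have c1 := one_add_mul_le_pow (a := ((κ + 1) / Y ^ 3 : ℝ)) (by linarith) (2 * Y ^ 6 * E)
      have c2 : (1 - (κ + 1) / Y ^ 3 : ℝ) ^ (2 * Y ^ 6 * E) * (1 + (κ + 1) / Y ^ 3) ^ (2 * Y ^ 6 * E) ≤ 1 := by
        rw [← mul_pow]
        exact pow_le_one₀ (by positivity) (by nlinarith)
      refine le_trans (mul_le_mul_of_nonneg_left (le_trans ?_ c1) (by positivity)) c2
      push_cast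
      have c3 : (2 * Y ^ 6 * E : ℝ) * (1 / Y ^ 3) = 2 * Y ^ 3 * E := by field_simp
      have c4 := mul_le_mul_of_nonneg_left x1 (by positivity : (0 : ℝ) ≤ 2 * Y ^ 6 * E)
      linarith
    have e2 : (1 - (κ + 1) / Y ^ 3 : ℝ) ^ (2 * Y ^ 6 * E) * (Y ^ 3 : ℕ) ≤ 1 / (2 * E) := by
      rw [le_div_iff₀ (by positivity)]
      push_cast
      linarith
    have e3 : ((A.n + 1 : ℕ) + 1 : ℝ) * (2 * ((Y ^ 3 : ℕ) + κ) / (8 * (A.n + 2) * Y ^ 6 * E : ℕ)) /
        (1 - (1 - (κ + 1) / Y ^ 3)) ≤ 1 / (2 * E) := by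
      rw [sub_sub_cancel, div_le_iff₀ x0]
      refine le_trans ?_ (mul_le_mul_of_nonneg_left x1 (by positivity))
      push_cast
      calc _ ≤ (A.n + 1 + 1 : ℝ) * (2 * (Y ^ 3 + Y ^ 3) / (8 * (A.n + 2) * Y ^ 6 * E)) := by
            gcongr
            linarith
        _ = _ := by
          field_simp
          ring
    have e4 : (1 : ℝ) / E = 1 / (2 * E) + 1 / (2 * E) := by field_simp; ring
    linarith
  refine ⟨K, K1, fun Q hQ => ?_, ?_⟩
  · obtain ⟨F, f1, -, f3⟩ := K4 Y Y0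
    refine (encard_le_encard (t := ⋃ p ∈ F ×ˢ Finset.range (Y ^ 4 + 1),
      {c | 0 < A.mg Q c (A.σ (Y ^ 4) p.1 p.2)}) ?_).trans
      ((encard_un _ _ fun p _ => A.mg_card hQ _).trans (Nat.cast_le.2 (Nat.mul_le_mul_right _ ?_)))
    · rintro c ⟨y, hy, p, p1, p2, p3, j, j1, j2⟩
      obtain ⟨f, hf, k⟩ := f3 y hy
      obtain ⟨c1, c2, c3⟩ := A.σ_spec hm f
      have c4 := A.cvx' p1 c1 (α := 1 / Y) (by rwa [p2, c2]) (by rw [p3, c3, dist_self]; positivity) j1
      have c5 := (abs_le.1 (A.mg_lip Q c (p j) (A.σ (Y ^ 4) f j))).2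
      exact mem_biUnion (x := (f, j)) (Finset.mem_product.2 ⟨hf, Finset.mem_range.2 (by omega)⟩)
        (show 0 < A.mg Q c (A.σ (Y ^ 4) f j) by linarith)
    · rw [Finset.card_product, Finset.card_range]
      refine Nat.mul_le_mul_right _ (f1.trans (stp_iter ?_ _ _ _))
      rw [hI, Finset.card_product, Finset.card_range]
      exact Nat.mul_le_mul_left _ hS
  set M := {w | ∃ p ∈ I, ∃ a ∈ K, w = A.σ (Y ^ 4) (p.2 • a) p.1} with hM
  have E0 : 0 < 8 * (A.n + 1) * Y := by positivity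
  have K5 := ((K4 _ E0).fam I (fun p x => A.σ (Y ^ 4) (p.2 • x) p.1) u1
    fun p hp x y k => (u2 p hp x y).trans k).join hj (D := 4 * Y ^ 3 * (8 * (A.n + 1) * Y)) (by positivity)
  obtain ⟨Z, _, p, inc, z1, z2, z3, z4, z5⟩ := dominate (o := A.o) hj (A.mg Y) (η := 1 / Y)
    (μ := 1 / (2 * (A.n + 1) * Y)) (by positivity) (A.mg_nonneg Y) (A.mg_lip Y) (A.mg_card Y0)
    (A.mg_big Y0) (fun c x y => A.mg_dist Y0) (K5.mono le_rfl (by
      push_cast
      calc _ ≤ 1 / (8 * (A.n + 1) * Y : ℝ) + 2 * (Y ^ 3 + Y ^ 3) / (4 * Y ^ 3 * (8 * (A.n + 1) * Y)) := by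
            gcongr
            linarith
        _ = _ := by
          field_simp
          ring) le_rfl subset_rfl)
  have pb : ∀ z, dist (p z) A.o ≤ (Y ^ 3 : ℕ) + κ := fun z => by
    refine hj.iter_ball ?_ _ _ (z4 z)
    rintro a (rfl | ha)
    · rw [dist_self]; positivity
    · refine hj.jn_ball ?_ a ha
      rintro _ ⟨q, hq, a, ha, rfl⟩
      exact u1 q hq a (K1 a ha)
  let pz : Z → X := fun z => A.σ (Y ^ 4) (p z) ((κ + 1) * Y)
  have pK : ∀ z, pz z ∈ K := fun z => K2 _ (z4 z)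
  have pc : Continuous pz := (A.σ_cont hm a1).comp z2
  have mM : ∀ g ∈ S, ∀ y ∈ K, ∀ k ≤ (κ + 1) * Y, A.σ (Y ^ 4) (g • y) k ∈ M := fun g hg y hy k hk =>
    ⟨(k, g), Finset.mem_product.2 ⟨Finset.mem_range.2 (Nat.lt_succ_iff.2 hk), hg⟩, y, hy, rfl⟩
  have mM0 : ∀ g ∈ S, ∀ y ∈ K, g • y ∈ M := fun g hg y hy => by
    have := mM g hg y hy 0 (Nat.zero_le _)
    rwa [(A.σ_spec hm _).2.1] at this
  have rel : ∀ g ∈ S, ∀ y, ∀ w ∈ Jn jn M, ∀ s ≤ (κ + 1) * Y, ∀ e : ℝ,
      dist w (g • A.σ (Y ^ 4) y s) ≤ e →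
        dist (pz (inc w)) (g • A.σ (Y ^ 4) y ((κ + 1) * Y + s)) ≤ e + 2 / Y :=
    fun g hg y w hw s hs e he => by
      have := near A k0 hY (hκ g hg) hs le_rfl ((dist_triangle _ w _).trans (add_le_add (z5 w hw) he)) (pb _)
      have e : (2 : ℝ) / Y = 1 / Y + 1 / Y := by ring
      linarith
  have rel0 : ∀ g ∈ S, ∀ y ∈ K, dist (pz (inc (g • y))) (g • A.σ (Y ^ 4) y ((κ + 1) * Y)) ≤ 2 / Y :=
    fun g hg y hy => by
      simpa using rel g hg y _ (hj.sub _ (mM0 g hg y hy)) 0 (Nat.zero_le _) 0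
        (by rw [(A.σ_spec hm _).2.1, dist_self])
  have d6 : (2 : ℝ) / Y + 2 / Y ≤ 6 / Y := by
    rw [← add_div]
    gcongr
    norm_num
  have d2 : (0 : ℝ) ≤ 2 / Y := by positivity
  have poly := fun g h : G => polygon hj (fun j z => if j = 0 then g • pz (inc (h • pz z)) else
    A.σ (Y ^ 4) ((g * h) • pz z) ((κ + 1) * Y + 1 - j)) ((κ + 1) * Y + 1) (fun j _ => by
      by_cases e : j = 0
      · simp only [if_pos e]
        exact (A.smul_cont g).comp (pc.comp (z3.comp ((A.smul_cont h).comp pc)))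
      · simp only [if_neg e]
        exact (A.σ_cont hm (by omega)).comp ((A.smul_cont _).comp pc)) (Nat.succ_pos _)
  choose H H1 H2 H3 H4 using poly
  refine ⟨Z, inferInstance, pz, fun g z => inc (g • pz z), fun g h z a => inc (H g h z a), z1, pc, pK,
    fun g hg => ⟨z3.comp ((A.smul_cont g).comp pc), fun y => ⟨(κ + 1) * Y, by omega, _,
      (A.σ_spec hm _).1, (A.σ_spec hm _).2.1, (A.σ_spec hm _).2.2,
        (rel0 g hg _ (pK y)).trans (by linarith)⟩⟩,
    fun g hg h hh hgh => ⟨z3.comp (H1 g h), fun y => by simp [H2], fun y => ?_, fun y a => ?_⟩⟩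
  · simp only [H3, Nat.succ_ne_zero, if_false, Nat.sub_self, (A.σ_spec hm _).2.1]
  obtain ⟨j, j1, t, ht, e⟩ := H4 g h y a
  have nd : ∀ k ≤ (κ + 1) * Y, dist (A.σ (Y ^ 4) ((g * h) • pz y) k)
      ((g * h) • A.σ (Y ^ 4) (pz y) k) ≤ 1 / Y := fun k hk => by
    simpa using near A k0 hY (hκ _ hgh) (Nat.zero_le _) hk (e := 0) (y := pz y)
      (by rw [(A.σ_spec hm _).2.1, dist_self]) (gb _ hgh _ (K1 _ (pK y)))
  have d1 : (2 : ℝ) / Y = 1 / Y + 1 / Y := by ring
  have d0 : (0 : ℝ) ≤ 1 / Y := by positivity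
  have e2 : (κ + 1) * Y + 1 - (j + 1) = (κ + 1) * Y - j := by omega
  simp only [Nat.succ_ne_zero, if_false, e2] at e
  refine ⟨(κ + 1) * Y + ((κ + 1) * Y - j), by omega, _, (A.σ_spec hm _).1, (A.σ_spec hm _).2.1,
    (A.σ_spec hm _).2.2, (rel _ hgh _ _ ?_ _ (Nat.sub_le _ _) (2 / Y) ?_).trans d6⟩
  · refine ⟨_, ?_, _, mM _ hgh _ (pK y) _ (Nat.sub_le _ _), t, ht, e⟩
    split_ifs with k
    · exact mM0 g hg _ (pK _)
    · exact mM _ hgh _ (pK y) _ (by omega)
  · rw [e]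
    refine hj.ball ht ?_ ((nd _ (Nat.sub_le _ _)).trans (by linarith))
    split_ifs with k
    · rw [k, Nat.sub_zero, mul_smul, A.iso]
      exact rel0 h hh _ (pK y)
    · refine (dist_triangle _ ((g * h) • A.σ (Y ^ 4) (pz y) ((κ + 1) * Y + 1 - j)) _).trans ?_
      rw [A.iso, A.σ_step hm _ (by omega) (by omega), d1]
      refine add_le_add (nd _ (by omega)) ?_
      have e3 : (κ + 1) * Y + 1 - j = (κ + 1) * Y - j + 1 := by omega
      rw [e3, Nat.cast_add, Nat.cast_one, add_sub_cancel_left, abs_one, one_mul,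
        div_le_div_iff₀ (by positivity) y1]
      have := mul_le_mul_of_nonneg_right (K1 _ (pK y)) y1.le
      push_cast at this ⊢
      linarith

end Pool.Agent.Work.MP_9d1ffa_al.Gd
end

-- merged part: Pool.Agent.Work.MP_9d1ffa_al.Cu.Ind
section
/-! Induced actions on half spaces. -/

namespace Pool.Agent.Work.MP_9d1ffa_al.Cu

open Set

/-- copies of a set of half spaces -/
def Cp (I H : Type) : Type := I × H

variable {I H : Type} [Poc H]

instance : PartialOrder (Cp I H) where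
  le a b := a.1 = b.1 ∧ a.2 ≤ b.2
  le_refl _ := ⟨rfl, le_rfl⟩
  le_trans _ _ _ h k := ⟨h.1.trans k.1, h.2.trans k.2⟩
  le_antisymm _ _ h k := Prod.ext h.1 (h.2.antisymm k.2)

theorem Cp.le_iff {a b : Cp I H} : a ≤ b ↔ a.1 = b.1 ∧ a.2 ≤ b.2 := Iff.rfl

theorem Cp.lt_iff {a b : Cp I H} : a < b ↔ a.1 = b.1 ∧ a.2 < b.2 := by
  rw [lt_iff_le_not_ge, lt_iff_le_not_ge, Cp.le_iff, Cp.le_iff]
  exact ⟨fun h => ⟨h.1.1, h.1.2, fun k => h.2 ⟨h.1.1.symm, k⟩⟩,
    fun h => ⟨⟨h.1, h.2.1⟩, fun k => h.2.2 k.2⟩⟩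

/-- the embedding of a copy -/
def Cp.mk (i : I) (h : H) : Cp I H := (i, h)

omit [Poc H] in
theorem Cp.mk_inj (i : I) : Function.Injective (Cp.mk i : H → Cp I H) :=
  fun _ _ e => congrArg Prod.snd e

variable [Finite I]

noncomputable instance : Poc (Cp I H) where
  st a := (a.1, st a.2)
  st_st a := Prod.ext rfl (st_st a.2)
  st_le e := ⟨e.1.symm, st_le e.2⟩
  ori a := ori a.2
  ori_st a := ori_st a.2
  ori_le e := ori_le e.2
  dcc a := ((dcc a.2).image (Cp.mk a.1)).subset fun k e =>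
    ⟨k.2, ⟨(Cp.lt_iff.1 e.1).2, e.2⟩, Prod.ext (Cp.lt_iff.1 e.1).1.symm rfl⟩
  dm := dm H * Nat.card I
  dim s h := by
    classical
    have := Fintype.ofFinite I
    refine (Finset.card_le_mul_card_image (f := fun a : Cp I H => a.1) s (dm H) fun i _ => ?_).trans
      (Nat.mul_le_mul_left _ ((Finset.card_le_univ _).trans_eq Nat.card_eq_fintype_card.symm))
    rw [← Finset.card_image_of_injOn (f := fun a : Cp I H => a.2) fun a ha b hb e =>
      Prod.ext ((Finset.mem_filter.1 ha).2.trans (Finset.mem_filter.1 hb).2.symm) e]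
    refine Poc.dim _ fun a ha b hb => ?_
    obtain ⟨a, k1, rfl⟩ := Finset.mem_image.1 ha
    obtain ⟨b, k2, rfl⟩ := Finset.mem_image.1 hb
    rw [Finset.mem_filter] at k1 k2
    have e := k1.2.trans k2.2.symm
    have k := h a k1.1 b k2.1
    exact ⟨fun c => k.1 (Cp.lt_iff.2 ⟨e, c⟩), fun c => k.2.1 (Cp.lt_iff.2 ⟨e, c⟩),
      fun c => k.2.2 (Cp.lt_iff.2 ⟨e, c⟩)⟩

/-- the coordinates of a point -/
def Pt.rs (x : Pt (Cp I H)) (i : I) : Pt H where
  f h := x.f (Cp.mk i h)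
  nn _ := x.nn _
  cp h := x.cp (Cp.mk i h)
  con e := x.con (Cp.lt_iff.2 ⟨rfl, e⟩)
  fin := x.fin.preimage (Cp.mk_inj i).injOn

theorem exists_rs [Nonempty I] (x y : Pt (Cp I H)) : ∃ i, dist x y ≤ dist (x.rs i) (y.rs i) := by
  classical
  obtain ⟨i, hi⟩ := Finite.exists_max fun i => dist (x.rs i) (y.rs i)
  refine ⟨i, dist_le fun t c _ => ?_⟩
  rcases t.eq_empty_or_nonempty with rfl | ⟨a, ha⟩
  · simp
  have k : ∀ b ∈ t, b = Cp.mk a.1 b.2 := fun b hb => by
    rcases eq_or_ne b a with rfl | e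
    · rfl
    · exact Prod.ext ((c hb ha e).elim (fun h => h.1) fun h => h.1.symm) rfl
  have j : InjOn (fun b : Cp I H => b.2) t := fun b hb b' hb' e => by
    rw [k b hb, k b' hb']
    exact congrArg _ e
  refine le_trans ?_ ((le_dist (x.rs a.1) (y.rs a.1) (t := t.image fun b => b.2) ?_).trans (hi _))
  · rw [Finset.sum_image j]
    exact (Finset.sum_congr rfl fun b hb => by rw [k b hb]; rfl).le
  · intro u hu v hv e
    simp only [Finset.coe_image, mem_image] at hu hv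
    obtain ⟨u, hu, rfl⟩ := hu
    obtain ⟨v, hv, rfl⟩ := hv
    exact (c hu hv fun e' => e (e' ▸ rfl)).imp (fun h => h.2) fun h => h.2

variable {L S : Type} [Group L] [Group S] (U : Subgroup L)

/-- the cocycle of a section -/
noncomputable def coc (g : L) (q : L ⧸ U) : U :=
  ⟨(g • q).out⁻¹ * (g * q.out), QuotientGroup.eq.1 (by
    rw [QuotientGroup.out_eq', ← smul_eq_mul, ← MulAction.Quotient.smul_coe,
      QuotientGroup.out_eq'])⟩

theorem coc_mul (g g' : L) (q : L ⧸ U) : coc U (g * g') q = coc U g (g' • q) * coc U g' q :=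
  Subtype.ext (by simp [coc, mul_smul, mul_assoc])

theorem coc_one (q : L ⧸ U) : coc U 1 q = 1 := Subtype.ext (by simp [coc])

theorem coc_fix {g : L} {q : L ⧸ U} (h : g • q = q) : (coc U g q : L) = q.out⁻¹ * g * q.out := by
  simp [coc, h, mul_assoc]

/-- the induced action -/
theorem exists_ind [U.FiniteIndex] [PocAct S H] (φ : U →* S) : ∃ _ : PocAct L (Cp (L ⧸ U) H),
    ∀ (g : L) (x : Pt (Cp (L ⧸ U) H)) (q : L ⧸ U), g • q = q → g • x = x →
      φ (coc U g q) • x.rs q = x.rs q := by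
  refine ⟨{
    smul g a := (g • a.1, φ (coc U g a.1) • a.2)
    one_smul a := Prod.ext (one_smul _ a.1) (by
      change φ (coc U 1 a.1) • a.2 = _
      rw [coc_one, map_one, one_smul])
    mul_smul g g' a := Prod.ext (mul_smul _ _ a.1) (by
      change φ (coc U (g * g') a.1) • a.2 = φ (coc U g (g' • a.1)) • φ (coc U g' a.1) • a.2
      rw [coc_mul, map_mul, mul_smul])
    smul_le g _ _ e := ⟨congrArg (g • ·) e.1, by
      change φ (coc U g _) • _ ≤ φ (coc U g _) • _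
      rw [e.1]
      exact PocAct.smul_le _ e.2⟩
    smul_st g a := Prod.ext rfl (PocAct.smul_st _ a.2)
    smul_ori g := (finite_iUnion fun q : L ⧸ U =>
      (PocAct.smul_ori (φ (coc U g q))).image (Cp.mk q)).subset fun a e =>
        mem_iUnion.2 ⟨a.1, a.2, e, rfl⟩ }, fun g x q h k => Pt.ext (funext fun a => ?_)⟩
  have h' : g⁻¹ • q = q := inv_smul_eq_iff.2 h.symm
  have e : coc U g⁻¹ q = (coc U g q)⁻¹ :=
    eq_inv_of_mul_eq_one_left (by
      have := coc_mul U g⁻¹ g q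
      rwa [inv_mul_cancel, coc_one, h, eq_comm] at this)
  refine Eq.trans ?_ (congrArg (fun y : Pt (Cp (L ⧸ U) H) => y.f (Cp.mk q a)) k)
  change x.f (q, _) = x.f (g⁻¹ • q, φ (coc U g⁻¹ q) • a)
  rw [h', e, map_inv]

end Pool.Agent.Work.MP_9d1ffa_al.Cu
end

-- merged part: Pool.Agent.Work.MP_9d1ffa_al.Cu.GI
section
/-! Induced geometric data. -/

namespace Pool.Agent.Work.MP_9d1ffa_al.Cu

open Set Gb Ga

variable {L S : Type} [Group L] [Group S] {U : Subgroup L}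

/-- the induced set -/
def IX (_φ : U →* S) (X : Type) : Type := L ⧸ U → X

variable {φ : U →* S} {X Sm : Type}

noncomputable instance [MulAction S X] : MulAction L (IX φ X) where
  smul g x q := φ (coc U g (g⁻¹ • q)) • x (g⁻¹ • q)
  one_smul x := funext fun q => by
    change φ (coc U 1 _) • x _ = _
    rw [coc_one, map_one, one_smul, inv_one, one_smul]
  mul_smul g g' x := funext fun q => by
    change φ (coc U (g * g') _) • x _ = φ (coc U g _) • φ (coc U g' _) • x _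
    rw [coc_mul, map_mul, mul_smul, mul_inv_rev, mul_smul, smul_inv_smul]

theorem IX.smul_def [MulAction S X] (g : L) (x : IX φ X) (q : L ⧸ U) :
    (g • x) q = φ (coc U g (g⁻¹ • q)) • x (g⁻¹ • q) := rfl

theorem IX.smul_fix [MulAction S X] {g : L} (x : IX φ X) {q : L ⧸ U} (h : g • q = q) :
    (g • x) q = φ (coc U g q) • x q := by
  rw [IX.smul_def, inv_smul_eq_iff.2 h.symm]

variable [Fintype (L ⧸ U)] [MetricSpace X]

noncomputable instance : MetricSpace (IX φ X) := inferInstanceAs (MetricSpace (L ⧸ U → X))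

theorem IX.le (x y : IX φ X) (q : L ⧸ U) : dist (x q) (y q) ≤ dist x y := dist_le_pi_dist x y q

theorem IX.le_iff {x y : IX φ X} {a : ℝ} : dist x y ≤ a ↔ ∀ q, dist (x q) (y q) ≤ a :=
  dist_pi_le_iff'

theorem IX.ex (x y : IX φ X) : ∃ q, dist (x q) (y q) = dist x y := by
  obtain ⟨q, h⟩ := Finite.exists_max fun q => dist (x q) (y q)
  exact ⟨q, le_antisymm (IX.le x y q) (IX.le_iff.2 h)⟩

theorem bi_ix {jn : X → X → ℝ → X} (h : Gd.Bi jn) :
    Gd.Bi fun (x y : IX φ X) (t : ℝ) => (fun q => jn (x q) (y q) t : IX φ X) where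
  zero _ _ := funext fun _ => h.zero _ _
  one _ _ := funext fun _ => h.one _ _
  lip _ _ _ _ t ht := IX.le_iff.2 fun q =>
    (h.lip _ _ _ _ t ht).trans (max_le_max (IX.le _ _ q) (IX.le _ _ q))
  tim _ _ t ht t' ht' := IX.le_iff.2 fun q =>
    (h.tim _ _ t ht t' ht').trans (mul_le_mul_of_nonneg_left (IX.le _ _ q) (abs_nonneg _))

theorem inf_le' {I : Type} [Finite I] (f : I → ℝ) (i : I) : ⨅ i, f i ≤ f i :=
  ciInf_le (Finite.bddBelow_range f) i

theorem inf_abs {I : Type} [Finite I] [Nonempty I] {f g : I → ℝ} {a : ℝ}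
    (h : ∀ i, |f i - g i| ≤ a) : |(⨅ i, f i) - ⨅ i, g i| ≤ a := by
  obtain ⟨i, hi⟩ := exists_eq_ciInf_of_finite (f := f)
  obtain ⟨j, hj⟩ := exists_eq_ciInf_of_finite (f := g)
  exact abs_le.2 ⟨by linarith [inf_le' g i, (abs_le.1 (h i)).1],
    by linarith [inf_le' f j, (abs_le.1 (h j)).2]⟩

theorem encard_ix {I α : Type} [Fintype I] {F : I → Set α} {N : ℕ} (h : ∀ i, (F i).encard ≤ N)
    {T : Set (I → α)} (k : ∀ c ∈ T, ∀ i, c i ∈ F i) : T.encard ≤ (N ^ Fintype.card I : ℕ) := by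
  refine (encard_le_encard (t := pi univ F) fun c a i _ => k c a i).trans ?_
  rw [encard_pi_eq_prod_encard, Nat.cast_pow]
  exact Finset.prod_le_pow_card _ _ _ fun i _ => h i

theorem stp_ix {W : ℕ} {η : ℝ} {p : ℕ → IX φ X} (h : Stp W η p) (q : L ⧸ U) :
    Stp W η fun j => p j q := fun i a j b => (IX.le _ _ q).trans (h i a j b)

variable [MulAction S X] [MulAction S Sm]

variable (φ) in
/-- the induced geometric data -/
noncomputable def geoI (A : Geo S X Sm) : Geo L (IX φ X) (IX φ Sm) where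
  n := (A.n + 1) ^ Fintype.card (L ⧸ U) - 1
  D := A.D * Fintype.card (L ⧸ U)
  o _ := A.o
  Str W p := ∀ q, A.Str W fun j => p j q
  mg Q c x := ⨅ q, A.mg Q (c q) (x q)
  Cs Q ρ := A.Cs Q ρ ^ Fintype.card (L ⧸ U)
  Us Q ρ := A.Us Q ρ ^ Fintype.card (L ⧸ U)
  iso g x y := by
    have k : ∀ (g : L) (x y : IX φ X), dist (g • x) (g • y) ≤ dist x y := fun g x y =>
      IX.le_iff.2 fun q => (A.iso _ _ _).trans_le (IX.le x y _)
    exact le_antisymm (k g x y) (by simpa using k g⁻¹ (g • x) (g • y))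
  sub h e q := A.sub (h q) e
  smul g h q := A.smul _ (h _)
  cvx {W j p p'} h h' a b := IX.le_iff.2 fun q => (A.cvx (h q) (h' q) a b).trans (by
    have : (0 : ℝ) ≤ W - j := sub_nonneg.2 (by exact_mod_cast b)
    gcongr <;> exact IX.le _ _ q)
  geo {W i j p} h a b c := by
    obtain ⟨q, hq⟩ := IX.ex (p 0) (p W)
    refine le_antisymm (IX.le_iff.2 fun q => (A.geo (h q) a b c).trans_le ?_) ?_
    · gcongr
      exact IX.le _ _ q
    · rw [← hq]
      exact (A.geo (h q) a b c).symm.trans_le (IX.le _ _ q)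
  ex h a b := by
    choose p h1 h2 h3 using fun q => A.ex h (a q) (b q)
    exact ⟨fun j q => p q j, h1, funext h2, funext h3⟩
  mg_nonneg _ _ _ := le_ciInf fun _ => A.mg_nonneg _ _ _
  mg_lip _ _ x y := inf_abs fun q => (A.mg_lip _ _ _ _).trans (IX.le x y q)
  mg_smul g Q c x := by
    simp only [IX.smul_def, A.mg_smul]
    exact (MulAction.toPerm g⁻¹).iInf_comp (g := fun q => A.mg Q (c q) (x q))
  mg_dist hQ h h' := IX.le_iff.2 fun q =>
    A.mg_dist hQ (h.trans_le (inf_le' _ q)) (h'.trans_le (inf_le' _ q))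
  mg_card hQ x := by
    rw [Nat.sub_add_cancel (Nat.one_le_pow _ _ (Nat.succ_pos _))]
    exact encard_ix (fun q => A.mg_card hQ (x q)) fun c h q => h.trans_le (inf_le' _ q)
  mg_big {Q} hQ x := by
    choose c hc using fun q => A.mg_big hQ (x q)
    refine ⟨c, le_ciInf fun q => le_trans ?_ (hc q)⟩
    have : A.n + 1 ≤ (A.n + 1) ^ Fintype.card (L ⧸ U) - 1 + 1 := by
      rw [Nat.sub_add_cancel (Nat.one_le_pow _ _ (Nat.succ_pos _))]
      exact Nat.le_self_pow Fintype.card_ne_zero _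
    have e : (A.n : ℝ) + 1 ≤ ((A.n + 1) ^ Fintype.card (L ⧸ U) - 1 : ℕ) + 1 := by
      exact_mod_cast this
    have : (0 : ℝ) < Q := by exact_mod_cast hQ
    gcongr
  cnt hQ h a b c d := encard_ix (fun q => A.cnt hQ (h q) a b (stp_ix c q) d)
    fun _ ⟨j, e, k⟩ q => ⟨j, e, k.trans_le (inf_le' _ q)⟩
  typ Q ρ K W hQ hK := by
    classical
    obtain ⟨cd, c1, c2⟩ := A.typ Q ρ K W hQ hK
    let e := Fintype.equivFin (L ⧸ U → Fin (A.Us Q ρ * K ^ A.D))
    refine ⟨fun p => e fun q => ⟨_, c1 fun j => p j q⟩, fun p => (Fin.is_lt _).trans_eq ?_,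
      fun η p p' a a' b b' d d' f k c j0 h0 hc => ?_⟩
    · rw [Fintype.card_fun, Fintype.card_fin, mul_pow, pow_mul]
    · choose c' h using fun q => c2 η _ _ (a q) (a' q) b b' (stp_ix d q) (stp_ix d' q) f
        (congrArg Fin.val (congrFun (e.injective (Fin.ext k)) q)) (c q) j0 h0
        (hc.trans_le (inf_le' _ q))
      exact ⟨c', fun j hj => inf_abs fun q => h q j hj⟩
  elC Q := (A.elC Q).pow (El.const _)
  elU Q := (A.elU Q).pow (El.const _)

end Pool.Agent.Work.MP_9d1ffa_al.Cu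
end
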