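import Pool.Agent.Work.MP_9d1ffa_al.Cu.MgB
import Pool.Agent.Work.MP_9d1ffa_al.Ga.Zc
import Mathlib
import Pool.Agent.Work.MP_9d1ffa_al.Cu.GI
import Pool.Agent.Work.MP_9d1ffa_al.WL.En
import Pool.Agent.Work.MP_9d1ffa_al.WL.BI
import Pool.Agent.Work.MP_9d1ffa_al.WL.Cm

-- merged part: Pool.Agent.Work.MP_9d1ffa_al.Cu.ZbA
section
/-! Hulls and gates. -/

namespace Pool.Agent.Work.MP_9d1ffa_al.Cu

open Set

variable {H : Type} [Poc H]

/-- the half space contains `F` and the base point -/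
def Al (F : Set (Pt H)) (h : H) : Prop := ori h ∧ ∀ y ∈ F, y.f h = 1

/-- the hull of `F` and the base point -/
def KF (F : Set (Pt H)) : Set (Pt H) := {x | ∀ h, Al F h → x.f h = 1}

theorem Al.up {F : Set (Pt H)} {k h : H} (a : Al F k) (e : k < h) : Al F h :=
  ⟨ori_le e.le a.1, fun y m => y.up e (by rw [a.2 y m]; exact one_pos)⟩

theorem Al.not_st {F : Set (Pt H)} {h : H} (a : Al F h) : ¬ Al F (st h) :=
  fun b => (ori_st h).1 b.1 a.1

open Classical in
/-- the gate map -/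
noncomputable def rt (F : Set (Pt H)) (y : Pt H) : Pt H where
  f h := if Al F h then 1 else if Al F (st h) then 0 else y.f h
  nn h := by split_ifs; exacts [zero_le_one, le_rfl, y.nn h]
  cp h := by
    rw [st_st]
    by_cases a : Al F h
    · simp [a, a.not_st]
    · by_cases b : Al F (st h) <;> simp [a, b, y.cp]
  con {k h} e := by
    by_cases a : Al F h
    · exact Or.inr (if_pos a)
    by_cases b : Al F (st k)
    · exact Or.inl (by rw [if_neg fun c => a (c.up e), if_pos b])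
    rw [if_neg fun c => a (c.up e), if_neg b, if_neg a, if_neg fun c => b (c.up (st_lt e))]
    exact y.con e
  fin := y.fin.subset fun h a => by
    refine ⟨?_, a.2⟩
    have := a.1
    rw [if_neg fun c => a.2 c.1] at this
    split_ifs at this
    exacts [absurd this (lt_irrefl _), this]

variable {F F' : Set (Pt H)} {x y : Pt H}

theorem ZbA_one {h : H} (a : Al F h) (y : Pt H) : (rt F y).f h = 1 := if_pos a

theorem ZbA_zero {h : H} (a : Al F (st h)) (y : Pt H) : (rt F y).f h = 0 :=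
  (if_neg fun c : Al F h => c.not_st a).trans (if_pos a)

theorem ZbA_same {h : H} (a : ¬ Al F h) (b : ¬ Al F (st h)) (y : Pt H) : (rt F y).f h = y.f h :=
  (if_neg a).trans (if_neg b)

theorem ZbA_kz {h : H} (m : x ∈ KF F) (a : Al F (st h)) : x.f h = 0 := by
  linarith [m _ a, x.cp h]

theorem ZbA_b1 {h : H} (a : ori h) : (bs H).f h = 1 := if_pos a

theorem ZbA_b0 {h : H} (a : ¬ ori h) : (bs H).f h = 0 := if_neg a

theorem ZbA_cover {α ι : Type} {U : ι → Set α} {b : ℕ∞} {I : Set ι} (fi : I.Finite) :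
    (∀ i ∈ I, (U i).encard ≤ b) → (⋃ i ∈ I, U i).encard ≤ I.encard * b := by
  induction I, fi using Finite.induction_on with
  | empty => simp
  | insert n _ ih =>
    intro h
    rw [biUnion_insert, encard_insert_of_notMem n, add_mul, one_mul, add_comm]
    exact (encard_union_le _ _).trans
      (add_le_add (h _ (mem_insert _ _)) (ih fun i m => h i (mem_insert_of_mem _ m)))

theorem bs_mem (F : Set (Pt H)) : bs H ∈ KF F := fun _ a => ZbA_b1 a.1

theorem sub_KF (F : Set (Pt H)) : F ⊆ KF F := fun y m _ a => a.2 y m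

theorem KF_mono (h : F ⊆ F') : KF F ⊆ KF F' :=
  fun _ m k a => m k ⟨a.1, fun y e => a.2 y (h e)⟩

theorem KF_closed (F : Set (Pt H)) : IsClosed (KF F) := by
  simp only [KF, ofPred_forall]
  exact isClosed_iInter fun h => isClosed_iInter fun _ => isClosed_eq (cont_f h) continuous_const

theorem KF_sg (hx : x ∈ KF F) (hy : y ∈ KF F) (t : unitInterval) : sg x y t ∈ KF F :=
  fun h a => le_antisymm (Pt.le1 _ h) (le_sg (hx h a).ge (hy h a).ge t)

theorem rt_mem (F : Set (Pt H)) (y : Pt H) : rt F y ∈ KF F := fun _ a => ZbA_one a y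

theorem rt_lip (F : Set (Pt H)) (x y : Pt H) : dist (rt F x) (rt F y) ≤ dist x y := by
  refine dist_le fun t c p => le_trans (le_of_eq (Finset.sum_congr rfl fun k m => ?_))
    (le_dist x y c)
  have e := p k m
  by_cases a : Al F k
  · simp [ZbA_one a] at e
  by_cases b : Al F (st k)
  · simp [ZbA_zero b] at e
  rw [ZbA_same a b, ZbA_same a b]

theorem rt_of_mem (h : x ∈ KF F) : rt F x = x := by
  refine Pt.ext (funext fun k => ?_)
  by_cases a : Al F k
  · rw [ZbA_one a, h k a]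
  by_cases b : Al F (st k)
  · rw [ZbA_zero b, ZbA_kz h b]
  exact ZbA_same a b x

theorem rt_rt (h : F ⊆ F') (y : Pt H) : rt F (rt F' y) = rt F y := by
  refine Pt.ext (funext fun k => ?_)
  by_cases a : Al F k
  · rw [ZbA_one a, ZbA_one a]
  by_cases b : Al F (st k)
  · rw [ZbA_zero b, ZbA_zero b]
  rw [ZbA_same a b, ZbA_same a b]
  exact ZbA_same (fun c => a ⟨c.1, fun z e => c.2 z (h e)⟩)
    (fun c => b ⟨c.1, fun z e => c.2 z (h e)⟩) y

/-- the gate is a nearest point -/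
theorem rt_near (h : x ∈ KF F) (y : Pt H) : dist y (rt F y) ≤ dist y x := by
  refine dist_le fun t c p => le_trans (le_of_eq (Finset.sum_congr rfl fun k m => ?_))
    (le_dist y x c)
  have e := p k m
  by_cases a : Al F k
  · rw [ZbA_one a] at e
    exact absurd e (y.le1 k).not_gt
  by_cases b : Al F (st k)
  · rw [ZbA_zero b, ZbA_kz h b]
  rw [ZbA_same a b] at e
  exact absurd e (lt_irrefl _)

/-- few half spaces cut the hull -/
theorem exists_cut {N ρ : ℕ} (h1 : F.encard ≤ N) (h2 : ∀ y ∈ F, dist y (bs H) ≤ ρ) :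
    ∃ R : Set H, R.encard ≤ (2 * (N * (dm H * (ρ + 2))) : ℕ) ∧
      ∀ x ∈ KF F, ∀ h, h ∉ R → x.f h = (bs H).f h := by
  have c := ZbA_cover (finite_of_encard_le_coe h1) fun y m => encard_lt (h2 y m)
  have c' := c.trans (mul_le_mul' h1 le_rfl)
  set S := ⋃ y ∈ F, {k | y.f k < (bs H).f k} with hS
  have al : ∀ k, k ∉ S → ori k → Al F k := fun k n o => ⟨o, fun y m =>
    le_antisymm (y.le1 k) (not_lt.1 fun e => n (mem_biUnion m (e.trans_eq (ZbA_b1 o).symm)))⟩
  refine ⟨S ∪ st '' S, ?_, fun x m h n => ?_⟩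
  · refine (encard_union_le _ _).trans ((add_le_add c' ((encard_image_le _ _).trans c')).trans ?_)
    push_cast
    rw [two_mul]
  · by_cases o : ori h
    · rw [ZbA_b1 o, m h (al h (fun e => n (Or.inl e)) o)]
    · rw [ZbA_b0 o, ZbA_kz m (al _ (fun e => n (Or.inr ⟨_, e, st_st h⟩)) ((ori_st h).2 o))]

theorem KF_compact (h : F.Finite) : IsCompact (KF F) := by
  refine isCompact_iff_totallyBounded_isComplete.2 ⟨?_, (KF_closed F).isComplete⟩
  obtain ⟨r, hr⟩ := h.isBounded.subset_closedBall (bs H)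
  obtain ⟨R, hR, e⟩ := exists_cut h.cast_ncard_eq.ge (ρ := ⌈r⌉₊)
    fun y m => (hr m).trans (Nat.le_ceil r)
  refine Metric.totallyBounded_of_finite_discretization fun ε hε => ?_
  obtain ⟨n, hn⟩ := exists_nat_one_div_lt hε
  have q := n.succ_pos
  have fi := finite_of_encard_le_coe (mg_count q (bs H) hR)
  choose c hc using mg_big (H := H) q
  have p : ∀ x, 0 < mg n.succ (c x) x := fun x => lt_of_lt_of_le (by positivity) (hc x)
  refine ⟨_, fi.fintype, fun x => ⟨c x, x, e x x.2, p x⟩, fun x y k => ?_⟩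
  have k' : c x = c y := congrArg Subtype.val k
  refine (mg_dist q (p x) (k' ▸ p y)).trans_lt ?_
  exact_mod_cast hn

theorem smul_KF {G : Type} [Group G] [PocAct G H] {g : G} (h0 : g • bs H ∈ F')
    (h : ∀ y ∈ F, g • y ∈ F') (hx : x ∈ KF F) : g • x ∈ KF F' := by
  refine fun k a => hx (g⁻¹ • k) ⟨?_, fun y m => a.2 _ (h y m)⟩
  by_contra o
  exact zero_ne_one ((ZbA_b0 o).symm.trans (a.2 _ h0))

end Pool.Agent.Work.MP_9d1ffa_al.Cu
end

-- merged part: Pool.Agent.Work.MP_9d1ffa_al.Cu.ZbB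
section
/-! The compact pieces. -/

namespace Pool.Agent.Work.MP_9d1ffa_al.Cu

open Set Gb

variable {H : Type} [Poc H] {G : Type} [Group G] [PocAct G H]

/-- the orbit sets -/
def ZbB_F (H : Type) [Poc H] [PocAct G H] (S : Finset G) : ℕ → Set (Pt H)
  | 0 => {bs H}
  | j + 1 => {z | ∃ g ∈ S, ∃ y ∈ ZbB_F H S j, z = g • y}

theorem ZbB_mono {S : Finset G} (h1 : 1 ∈ S) : Monotone (ZbB_F H S) :=
  monotone_nat_of_le_succ fun _ y hy => ⟨1, h1, y, hy, (one_smul G y).symm⟩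

theorem ZbB_bs {S : Finset G} (h1 : 1 ∈ S) (j : ℕ) : bs H ∈ ZbB_F H S j :=
  ZbB_mono h1 (Nat.zero_le j) rfl

theorem ZbB_card {S : Finset G} {κ : ℕ} (h : S.card ≤ κ) (j : ℕ) :
    (ZbB_F H S j).encard ≤ (κ ^ j : ℕ) := by
  induction j with
  | zero => simp [ZbB_F]
  | succ j ih =>
    have e : ZbB_F H S (j + 1) =
        (fun a : G × Pt H => a.1 • a.2) '' ((S : Set G) ×ˢ ZbB_F H S j) := by
      ext z
      constructor
      · rintro ⟨g, a, y, b, rfl⟩
        exact ⟨(g, y), ⟨a, b⟩, rfl⟩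
      · rintro ⟨⟨g, y⟩, ⟨a, b⟩, rfl⟩
        exact ⟨g, a, y, b, rfl⟩
    rw [e]
    refine (encard_image_le _ _).trans ?_
    rw [encard_prod, encard_coe_eq_coe_finsetCard, pow_succ', Nat.cast_mul]
    exact mul_le_mul' (by exact_mod_cast h) ih

theorem ZbB_dist {S : Finset G} {κ : ℕ} (h : ∀ g ∈ S, dist (g • bs H) (bs H) ≤ κ) (j : ℕ) :
    ∀ y ∈ ZbB_F H S j, dist y (bs H) ≤ (κ * j : ℕ) := by
  induction j with
  | zero =>
    rintro y (rfl : y = bs H)
    simp
  | succ j ih =>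
    rintro _ ⟨g, a, y, b, rfl⟩
    have e := dist_triangle (g • y) (g • bs H) (bs H)
    rw [dist_smul'] at e
    have e1 := ih y b
    have e2 := h g a
    push_cast at e1 ⊢
    linarith

theorem ZbB_sg {x y c d : Pt H} {ρ : ℝ} (a : dist x c ≤ ρ) (b : dist y d ≤ ρ)
    (t : unitInterval) : dist (sg x y t) (sg c d t) ≤ ρ := by
  refine (sg_cone x y c d t).trans ?_
  nlinarith [t.2.1, t.2.2]

theorem ZbB_ball {x y c : Pt H} {ρ : ℝ} (a : dist x c ≤ ρ) (b : dist y c ≤ ρ)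
    (t : unitInterval) : dist (sg x y t) c ≤ ρ := by
  have := ZbB_sg a b t
  rwa [sg_self] at this

theorem ZbB_cont : Continuous fun p : Pt H × Pt H × unitInterval => sg p.1 p.2.1 p.2.2 := by
  refine continuous_iff_continuousAt.2 fun a => tendsto_iff_dist_tendsto_zero.2 ?_
  have c : Continuous fun p : Pt H × Pt H × unitInterval =>
      dist p.1 a.1 + dist p.2.1 a.2.1 + |(p.2.2 : ℝ) - a.2.2| * dist a.1 a.2.1 := by fun_prop
  have t := c.tendsto a
  simp only [dist_self, sub_self, abs_zero, zero_mul, add_zero] at t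
  refine squeeze_zero (fun _ => dist_nonneg) (fun p => ?_) t
  refine (dist_triangle _ (sg a.1 a.2.1 p.2.2) _).trans (add_le_add ?_ (sg_time _ _ _ _))
  refine (sg_cone _ _ _ _ _).trans ?_
  nlinarith [p.2.2.2.1, p.2.2.2.2, dist_nonneg (x := p.1) (y := a.1),
    dist_nonneg (x := p.2.1) (y := a.2.1)]

theorem ZbB_rt (F : Set (Pt H)) : Continuous (rt F) :=
  (LipschitzWith.mk_one (rt_lip F)).continuous

theorem ZbB_hull {F : Set (Pt H)} {W j : ℕ} {p : ℕ → Pt H} (h : StrM md W p) (h0 : p 0 ∈ KF F)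
    (h1 : p W = bs H) (hj : j ≤ W) : p j ∈ KF F :=
  isMd.hull h (KF_closed F) (fun _ a _ b => KF_sg a b _) h0 (h1 ▸ bs_mem F) hj

/-- two straight paths with the same end approach each other -/
theorem ZbB_cvx {W i l : ℕ} {p q : ℕ → Pt H} (h : StrM md W p) (h' : StrM md W q) (hW : 0 < W)
    (e : p W = q W) (hi : i ≤ l) (hl : l ≤ W) {a : ℝ} (ha : dist (p 0) (q 0) ≤ a) :
    dist (p l) (q l) ≤ (1 - (i : ℝ) / W) * a := by
  have w : (0 : ℝ) < W := by exact_mod_cast hW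
  have a1 : (i : ℝ) ≤ l := by exact_mod_cast hi
  have a2 : (l : ℝ) ≤ W := by exact_mod_cast hl
  refine (isMd.cvx h h' hW hl).trans ?_
  rw [e, dist_self, mul_zero, add_zero, div_le_iff₀ w]
  have a3 : (1 - (i : ℝ) / W) * a * W = (W - i) * a := by field_simp
  rw [a3]
  exact mul_le_mul (by linarith) ha dist_nonneg (by linarith)

theorem ZbB_bern {x : ℝ} (x0 : 0 ≤ x) (x1 : x ≤ 1) (J : ℕ) : (1 - x) ^ J * (1 + J * x) ≤ 1 := by
  have a := one_add_mul_le_pow (a := x) (by linarith) J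
  have b : 0 ≤ (1 - x) ^ J := pow_nonneg (by linarith) J
  calc _ ≤ (1 - x) ^ J * (1 + x) ^ J := mul_le_mul_of_nonneg_left a b
    _ = ((1 - x) * (1 + x)) ^ J := (mul_pow _ _ _).symm
    _ ≤ 1 := pow_le_one₀ (by nlinarith) (by nlinarith)

theorem ZbB_num {κ Y : ℕ} (h : 2 * κ + 2 ≤ Y) :
    0 ≤ 1 - (((κ + 1) * Y : ℕ) : ℝ) / (Y ^ 4 : ℕ) ∧
    (1 - (((κ + 1) * Y : ℕ) : ℝ) / (Y ^ 4 : ℕ)) * ((Y ^ 3 : ℕ) + κ) ≤ (Y ^ 3 : ℕ) ∧
    2 * ((Y ^ 3 : ℕ) : ℝ) * (1 - (((κ + 1) * Y : ℕ) : ℝ) / (Y ^ 4 : ℕ)) ^ (2 * Y ^ 8) ≤ 1 / Y := by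
  have k0 : (0 : ℝ) ≤ κ := Nat.cast_nonneg κ
  have y2 : 2 * (κ : ℝ) + 2 ≤ Y := by exact_mod_cast h
  have y0 : (0 : ℝ) < Y := by linarith
  have y1 : (1 : ℝ) ≤ Y := by linarith
  have y3 : (Y : ℝ) ≤ Y ^ 3 := le_self_pow₀ y1 (by norm_num)
  have e : (((κ + 1) * Y : ℕ) : ℝ) / (Y ^ 4 : ℕ) = (κ + 1) / Y ^ 3 := by
    push_cast
    field_simp
  rw [e]
  have p3 : (0 : ℝ) < Y ^ 3 := by positivity
  have x0 : 0 ≤ ((κ : ℝ) + 1) / Y ^ 3 := by positivity
  have x1 : ((κ : ℝ) + 1) / Y ^ 3 ≤ 1 := (div_le_one p3).2 (by linarith)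
  have x2 : ((κ : ℝ) + 1) / Y ^ 3 * Y ^ 3 = κ + 1 := by field_simp
  refine ⟨by linarith, ?_, ?_⟩
  · push_cast
    nlinarith [mul_nonneg x0 k0]
  · have b := ZbB_bern x0 x1 (2 * Y ^ 8)
    have b0 : 0 ≤ (1 - ((κ : ℝ) + 1) / Y ^ 3) ^ (2 * Y ^ 8) := pow_nonneg (by linarith) _
    have b1 : ((2 * Y ^ 8 : ℕ) : ℝ) * (((κ : ℝ) + 1) / Y ^ 3) = 2 * Y ^ 5 * (κ + 1) := by
      push_cast
      field_simp
    rw [b1] at b
    rw [le_div_iff₀ y0]
    refine le_trans ?_ b
    push_cast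
    have y4 : (Y : ℝ) ^ 4 ≤ Y ^ 5 := pow_le_pow_right₀ y1 (by norm_num)
    have y5 : (0 : ℝ) ≤ Y ^ 5 * κ := by positivity
    calc _ = (1 - ((κ : ℝ) + 1) / Y ^ 3) ^ (2 * Y ^ 8) * (2 * Y ^ 4) := by ring
      _ ≤ _ := mul_le_mul_of_nonneg_left (by linarith) b0

/-- `F 0 = {o}`, `F (j + 1) = {g • y | g ∈ S, y ∈ F j}` (increasing, at most `κ ^ j` points within
`κ * j` of `o`), `T = Y ^ 3`, `m = Y ^ 4`, `λ = 1 - (κ + 1) * Y / m`, `ψ j = 2 * T * λ ^ j`,
`J = 2 * Y ^ 8` (so `ψ J ≤ 1 / Y` by Bernoulli), `r = rt (F J)` and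
`Z = {y ∈ KF (F J) | dist y o ≤ T ∧ ∀ j < J, dist y (rt (F j) y) ≤ ψ j}`.
`node`: for `z = p l` one has `dist z o ≤ λ * (T + κ) ≤ T` and `dist z (rt (F j) z) ≤ ψ j` for all
`j ≤ J`: the straight path `q` from `g • rt (F j) y` to `o` lies in `KF (F (j + 1))` (`smul_KF`,
`IsMd.hull`) and `dist (p l) (q l) ≤ λ * ψ j` (`IsMd.cvx`, `rt_near`); then `rt_rt`, and
`dist (r z) (rt (F j) z) ≤ dist z (rt (F j) z)` by `rt_lip`, `rt_of_mem`.
`seg`: `sg`, `sg_cone`, `sg_time`, `sg_self`, `KF_sg`, `rt_near`. `lab`: the paths stay in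
`KF (F J)`; `exists_cut`, `mg_count`. -/
theorem exists_zb : ∃ Fs : ℕ → ℕ → ℕ → ℕ, (∀ κ Q, El fun Y => Fs κ Y Q) ∧
    ∀ (S : Finset G) (κ Y : ℕ), 1 ∈ S → S.card ≤ κ → (∀ g ∈ S, dist (g • bs H) (bs H) ≤ κ) →
      2 * κ + 2 ≤ Y → ∃ Z r, Ga.ZB (bs H) (StrM md) mg (Fs κ Y) S κ Y Z r := by
  refine ⟨fun κ Y Q => (dm H + 1) * (2 * Q + 1) ^
    (2 * (κ ^ (2 * Y ^ 8) * (dm H * (κ * (2 * Y ^ 8) + 2)))), fun κ Q => ?_, ?_⟩
  · have j : El fun Y : ℕ => 2 * Y ^ 8 := (El.const 2).mul (El.id.pow (El.const 8))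
    exact (El.const _).mul ((El.const _).pow ((El.const 2).mul (((El.const κ).pow j).mul
      ((El.const _).mul (((El.const κ).mul j).add (El.const 2))))))
  intro S κ Y h1 hS hd hY
  beta_reduce
  obtain ⟨n0, n1, n2⟩ := ZbB_num hY
  have Y0 : 0 < Y := by omega
  have m0 : 0 < Y ^ 4 := by positivity
  generalize hl : 1 - (((κ + 1) * Y : ℕ) : ℝ) / (Y ^ 4 : ℕ) = lam at n0 n1 n2
  generalize 2 * Y ^ 8 = J at n2 ⊢
  have T0 : (0 : ℝ) ≤ (Y ^ 3 : ℕ) := Nat.cast_nonneg _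
  refine ⟨{y | y ∈ KF (ZbB_F H S J) ∧ dist y (bs H) ≤ (Y ^ 3 : ℕ) ∧
    ∀ j < J, dist y (rt (ZbB_F H S j) y) ≤ 2 * ((Y ^ 3 : ℕ) : ℝ) * lam ^ j},
    rt (ZbB_F H S J), ?_, ?_, fun y a => a.2.1, ?_, ZbB_rt _, ?_, ?_⟩
  · have c : IsClosed (⋂ j, ⋂ _ : j < J, {y : Pt H |
        dist y (rt (ZbB_F H S j) y) ≤ 2 * ((Y ^ 3 : ℕ) : ℝ) * lam ^ j}) :=
      isClosed_iInter fun j => isClosed_iInter fun _ =>
        isClosed_le (continuous_id.dist (ZbB_rt _)) continuous_const
    have c' : IsClosed {y : Pt H | dist y (bs H) ≤ (Y ^ 3 : ℕ)} :=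
      isClosed_le (continuous_id.dist continuous_const) continuous_const
    refine (congrArg IsCompact (Set.ext fun y => ?_)).mp
      ((KF_compact (finite_of_encard_le_coe (ZbB_card hS J))).inter_right (c'.inter c))
    exact and_congr_right fun _ => and_congr_right fun _ => mem_iInter₂
  · refine ⟨bs_mem _, by rw [dist_self]; exact T0, fun j _ => ?_⟩
    rw [rt_of_mem (bs_mem _), dist_self]
    positivity
  · refine ⟨fun x y t => ⟨sg x.1 y.1 t, KF_sg x.2.1 y.2.1 t, ZbB_ball x.2.2.1 y.2.2.1 t,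
      fun j a => (rt_near (KF_sg (rt_mem _ x.1) (rt_mem _ y.1) t) _).trans
        (ZbB_sg (x.2.2.2 j a) (y.2.2.2 j a) t)⟩, ?_, fun x y => Subtype.ext (sg_zero _ _),
      fun x y => Subtype.ext (sg_one _ _), fun x y t c ρ a b => ZbB_ball a b t⟩
    refine Continuous.subtype_mk (ZbB_cont.comp (f := fun p : _ × _ × unitInterval =>
      (Subtype.val p.1, Subtype.val p.2.1, p.2.2)) ?_) _
    fun_prop
  · intro g hg y hy p hp p0 pm l l1 l2
    have d0 : dist (p l) (bs H) ≤ (Y ^ 3 : ℕ) := by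
      have e := dist_triangle (g • y) (g • bs H) (bs H)
      rw [dist_smul'] at e
      have := ZbB_cvx (q := fun _ => bs H) hp (fun _ _ => (isMd.self _).symm) m0 pm l1 l2
        (a := (Y ^ 3 : ℕ) + κ) (by rw [p0]; linarith [hy.2.1, hd g hg])
      rw [hl] at this
      exact this.trans n1
    have d1 : ∀ j ≤ J, dist (p l) (rt (ZbB_F H S j) (p l)) ≤ 2 * ((Y ^ 3 : ℕ) : ℝ) * lam ^ j := by
      intro j hj
      rcases j with _ | j
      · refine (rt_near (bs_mem _) _).trans ?_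
        rw [pow_zero]
        linarith
      obtain ⟨q, hq, q0, qm⟩ := isMd.ex m0 (g • rt (ZbB_F H S j) y) (bs H)
      have k : q l ∈ KF (ZbB_F H S (j + 1)) :=
        ZbB_hull hq (q0 ▸ smul_KF ⟨g, hg, _, ZbB_bs h1 j, rfl⟩ (fun y a => ⟨g, hg, y, a, rfl⟩)
          (rt_mem _ y)) qm l2
      have := ZbB_cvx hp hq m0 (pm.trans qm.symm) l1 l2 (a := 2 * ((Y ^ 3 : ℕ) : ℝ) * lam ^ j)
        (by rw [p0, q0, dist_smul']; exact hy.2.2 j hj)
      rw [hl] at this
      exact (rt_near k _).trans (this.trans_eq (by ring))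
    refine ⟨⟨rt_mem _ _, ?_, fun j hj => ?_⟩, ?_⟩
    · have := rt_lip (ZbB_F H S J) (p l) (bs H)
      rw [rt_of_mem (bs_mem _)] at this
      exact this.trans d0
    · have := rt_lip (ZbB_F H S J) (p l) (rt (ZbB_F H S j) (p l))
      rw [rt_of_mem (KF_mono (ZbB_mono h1 hj.le) (rt_mem _ _))] at this
      rw [rt_rt (ZbB_mono h1 hj.le)]
      exact this.trans (d1 j hj.le)
    · rw [dist_comm]
      exact (d1 J le_rfl).trans n2
  · intro Q hQ
    obtain ⟨R, R1, R2⟩ := exists_cut (ZbB_card (H := H) hS J) (ZbB_dist hd J)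
    refine le_trans (encard_le_encard ?_) (mg_count hQ (bs H) R1)
    rintro c ⟨y, hy, p, hp, p0, pm, j, hj, e⟩
    exact ⟨p j, R2 _ (ZbB_hull hp (p0 ▸ hy.1) pm hj), lt_trans (by positivity) e⟩

end Pool.Agent.Work.MP_9d1ffa_al.Cu
end

-- merged part: Pool.Agent.Work.MP_9d1ffa_al.Cu.In
section
/-! The geometric data of an action on half spaces. -/

namespace Pool.Agent.Work.MP_9d1ffa_al.Cu

open Set Gb

variable {H : Type} [Poc H]

theorem stp_le {W ρ : ℕ} {η : ℝ} {p : ℕ → Pt H} (hs : Ga.Stp W η p) (hρ : W * η ≤ ρ) :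
    dist (p 0) (p W) ≤ ρ := by
  simpa using (hs 0 (Nat.zero_le _) W le_rfl).trans (by simpa using hρ)

theorem exists_geo (H : Type) [Poc H] (G : Type) [Group G] [PocAct G H] :
    ∃ A : Ga.Geo G (Pt H) (Sm H), A.mg = mg ∧ A.HasZB := by
  obtain ⟨Us, u1, u2⟩ := exists_code (H := H)
  exact ⟨{
    n := 2 * dm H + 1
    D := 2 * dm H
    o := bs H
    Str := StrM md
    mg := mg
    Cs Q ρ := (dm H + 1) * (2 * Q + 1) ^ (2 * (dm H * (ρ + 2)))
    Us _ := Us
    iso := dist_smul'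
    sub h k := h.sub k
    smul g h := h.smul g
    cvx h h' a b := isMd.cvx h h' a b
    geo h a b c := isMd.geo h a b c
    ex h := isMd.ex h
    mg_nonneg := mg_nonneg
    mg_lip := mg_lip
    mg_smul := mg_smul
    mg_dist := mg_dist
    mg_card hQ x := (mg_card hQ x).trans (Nat.cast_le.2 (by omega))
    mg_big hQ x := (mg_big hQ x).imp fun c h => le_trans (le_of_eq (by push_cast; ring)) h
    cnt hQ h _ _ a b := mg_path hQ h (stp_le a b)
    typ Q ρ K W hQ hK := by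
      obtain ⟨cd, c1, c2⟩ := u2 ρ K hK
      refine ⟨fun p => cd (p 0) (p W), fun p => c1 _ _,
        fun η p p' a a' _ _ d d' e k c j0 h0 hc => ?_⟩
      obtain ⟨β, M⟩ := c2 _ _ _ _ (stp_le d e) (stp_le d' e) k
      exact transfer hQ hK a a' M c h0 hc
    elC Q := (El.const _).mul ((El.const _).pow
      ((El.const 2).mul ((El.const _).mul (El.id.add (El.const 2)))))
    elU _ := u1 }, rfl, exists_zb⟩

end Pool.Agent.Work.MP_9d1ffa_al.Cu
end

-- merged part: Pool.Agent.Work.MP_9d1ffa_al.Cu.Gd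
section
/-! Transfer data for acylindrical actions on half spaces. -/

namespace Pool.Agent.Work.MP_9d1ffa_al.Cu

open Set Subgroup MulAction

variable {H : Type} [Poc H] {G : Type} [Group G] [PocAct G H]

/-- the subgroups that virtually are cyclic or fix a vertex -/
def VF (H : Type) [Poc H] [PocAct G H] (L : Subgroup G) : Prop :=
  ∃ C ≤ L, C.relIndex L ≠ 0 ∧ ((∃ a, C ≤ zpowers a) ∨ ∃ v : Pt H, v.Vx ∧ C ≤ stabilizer G v)

theorem stab_rel {Q : ℕ} {c : Sm H} {x : Pt H} (hQ : 0 < Q) (h : 0 < mg Q c x) :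
    ∃ v : Pt H, v.Vx ∧ dist v x ≤ 1 ∧ (stabilizer G v).relIndex (stabilizer G c) ≠ 0 := by
  obtain ⟨v, a, b, f⟩ := stab_vx (G := G) hQ h
  refine ⟨v, a, b, ?_⟩
  change (stabilizer (stabilizer G c) v).index ≠ 0
  rw [index_stabilizer]
  refine ncard_ne_zero_of_mem (mem_orbit_self v) (f.subset ?_)
  rintro _ ⟨g, rfl⟩
  exact ⟨g, g.2, rfl⟩

theorem pow_fix {g : G} {x : Pt H} (h : dist (g • x) x < 1 / (4 * (dm H + 1))) :
    ∃ v : Pt H, v.Vx ∧ dist v x ≤ 1 ∧ ∃ k, 0 < k ∧ g ^ k ∈ stabilizer G v := by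
  obtain ⟨c, c1, c2⟩ := fix_sm h
  obtain ⟨v, a, b, f⟩ := stab_rel (G := G) one_pos c1
  obtain ⟨k, k1, -, k2⟩ := exists_pow_mem_of_relIndex_ne_zero f (show g ∈ stabilizer G c from c2)
  exact ⟨v, a, b, k, k1, k2.1⟩

theorem poc_zt (tf : ∀ g : G, IsOfFinOrder g → g = 1) (D : ℕ)
    (acyl : ∀ (g : G) (v w : Pt H), v.Vx → w.Vx → (D : ℝ) ≤ dist v w → g • v = v → g • w = w →
      g = 1) : WL.ZT G (VF H) := by
  obtain ⟨A, e, hZ⟩ := exists_geo H G
  refine Ga.Geo.zt hZ.zm ⟨?_, ?_, ⟨1, one_pos, fun c x h => ?_⟩, fun q Γ hΓ => ?_⟩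
  · rintro L L' e ⟨C, -, k, h⟩
    refine ⟨C ⊓ L, inf_le_right, ?_, h.imp (fun ⟨a, h⟩ => ⟨a, inf_le_left.trans h⟩)
      fun ⟨v, a, h⟩ => ⟨v, a, inf_le_left.trans h⟩⟩
    rw [inf_relIndex_right]
    exact fun z => k (relIndex_eq_zero_of_le_right e z)
  · rintro L L' e k ⟨C, c, k', h⟩
    exact ⟨C, c.trans e, relIndex_ne_zero_trans k' k, h⟩
  · obtain ⟨v, a, -, f⟩ := stab_rel (G := G) one_pos (e ▸ h)
    exact ⟨_, inf_le_right, by rwa [inf_relIndex_right], .inr ⟨v, a, inf_le_left⟩⟩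
  · have p : (0 : ℝ) < dm H + 1 := by positivity
    have c : 1 / (8 * (dm H + 1 : ℝ)) < 1 / (4 * (dm H + 1)) :=
      one_div_lt_one_div_of_lt (by positivity) (by linarith)
    obtain ⟨Q, J, a, b, h⟩ := line_pair (G := G) (X := Pt H) dist_smul'
      (c0 := 1 / (8 * (dm H + 1))) (by positivity) (D := D + 2) (fun g x y d hx hy => by
        obtain ⟨v, v1, v2, k, k1, k2⟩ := pow_fix (hx.trans_lt c)
        obtain ⟨w, w1, w2, m, m1, m2⟩ := pow_fix (hy.trans_lt c)
        refine tf g (isOfFinOrder_iff_pow_eq_one.2 ⟨k * m, Nat.mul_pos k1 m1,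
          acyl _ v w v1 w1 ?_ (pow_mul g k m ▸ pow_mem k2 m) (pow_mul' g k m ▸ pow_mem m2 k)⟩)
        push_cast at d
        linarith [dist_triangle4 x v w y, dist_comm x v]) q hΓ
    refine ⟨Q, J, a, b, fun Y hY s v _ v1 v2 d => ?_⟩
    obtain ⟨x, hx⟩ := h Y (by omega) s v v1 v2 d
    exact ⟨_, le_rfl, by rw [relIndex_self]; exact one_ne_zero,
      .inl ⟨x, (closure_le _).2 fun g ⟨τ, e, k⟩ => hx g τ (by exact_mod_cast e) k⟩⟩

end Pool.Agent.Work.MP_9d1ffa_al.Cu
end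

-- merged part: Pool.Agent.Work.MP_9d1ffa_al.Cu.Cls
section
/-! Cubical hierarchies over linear groups. -/

namespace Pool.Agent.Work.MP_9d1ffa_al

/-- The smallest class of groups that contains the groups that are linear over a commutative ring
modulo a central subgroup, and that contains `G` if a subgroup of finite index is in the class, or
all finitely generated subgroups are, or `G` acts on a median graph without cubes of dimension `n`
with vertex stabilisers in the class such that every element that fixes two vertices at distance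
at least `D` has finite order. -/
inductive Cub : (G : Type) → [Group G] → Prop
  | lin (G : Type) [Group G] (R : Type) [CommRing R] (n : ℕ) (ρ : G →* GL (Fin n) R)
      (h : ρ.ker ≤ Subgroup.center G) : Cub G
  | fin (G : Type) [Group G] (H : Subgroup G) (hH : H.FiniteIndex) (h : Cub H) : Cub G
  | loc (G : Type) [Group G] (h : ∀ H : Subgroup G, H.FG → Cub H) : Cub G
  | act (G : Type) [Group G] (V : Type) [MulAction G V] (Γ : SimpleGraph V) (n D : ℕ)
      (con : Γ.Connected)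
      (med : ∀ x y z, ∃! m, Γ.dist x m + Γ.dist m y = Γ.dist x y ∧
        Γ.dist y m + Γ.dist m z = Γ.dist y z ∧ Γ.dist x m + Γ.dist m z = Γ.dist x z)
      (dim : ∀ f : (Fin n → Bool) → V,
        (∀ s i, Γ.Adj (f s) (f (Function.update s i (!s i)))) → ¬ Function.Injective f)
      (adj : ∀ (g : G) x y, Γ.Adj x y → Γ.Adj (g • x) (g • y))
      (acyl : ∀ (g : G) x y, D ≤ Γ.dist x y → g • x = x → g • y = y → IsOfFinOrder g)
      (h : ∀ x : V, Cub (MulAction.stabilizer G x)) : Cub G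

end Pool.Agent.Work.MP_9d1ffa_al
end

-- merged part: Pool.Agent.Work.MP_9d1ffa_al.Cu.Hi
section
/-! Induction over cubical hierarchies. -/

namespace Pool.Agent.Work.MP_9d1ffa_al.Cu

open Subgroup MulAction Function

/-- what the induction uses about the class `W` -/
structure WG (W : (G : Type) → [Group G] → Prop) : Prop where
  loc : ∀ (G : Type) [Group G], (∀ T : Finset G, W (closure (T : Set G))) → W G
  thm : ∀ (G : Type) [Group G] (Good : Subgroup G → Prop),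
    (∀ H H' : Subgroup G, H' ≤ H → H'.relIndex H ≠ 0 → Good H' → Good H) → WL.CDat G Good →
    (∀ L : Subgroup G, Good L → W L) → W G
  lin : ∀ (G : Type) [Group G] (H : Subgroup G), H.FiniteIndex → ∀ (R : Type) [CommRing R] (n : ℕ)
    (ρ : H →* GL (Fin n) R), ρ.ker ≤ center H → (∀ g : G, IsOfFinOrder g → g = 1) → W G

/-- the torsion free groups that virtually embed in `S` are in `W` -/
def PV (W : (G : Type) → [Group G] → Prop) (S : Type) [Group S] : Prop :=
  ∀ (L : Type) [Group L], (∀ g : L, IsOfFinOrder g → g = 1) → ∀ U : Subgroup L, U.FiniteIndex →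
    ∀ φ : U →* S, Injective φ → W L

variable {W : (G : Type) → [Group G] → Prop} {L S : Type} [Group L] [Group S]

theorem tf_sub (tf : ∀ g : L, IsOfFinOrder g → g = 1) (K : Subgroup L) (g : K)
    (h : IsOfFinOrder g) : g = 1 := Subtype.ext (tf _ (K.subtype.isOfFinOrder h))

/-- `K` meets `U` and `C` in a subgroup of finite index that embeds in `T` -/
theorem PV.app {T : Subgroup S} (h : PV W T) (tf : ∀ g : L, IsOfFinOrder g → g = 1)
    {U C K : Subgroup L} (hU : U.FiniteIndex) (hC : C.relIndex K ≠ 0) {φ : U →* S}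
    (hφ : Injective φ) (k : ∀ g : U, g.1 ∈ C → g.1 ∈ K → φ g ∈ T) : W K :=
  h K (tf_sub tf K) ((U ⊓ C).subgroupOf K)
    ⟨relIndex_inf_ne_zero (fun e => hU.1 (index_eq_zero_of_relIndex_eq_zero e)) hC⟩
    ((φ.comp ((K.subtype.comp ((U ⊓ C).subgroupOf K).subtype).codRestrict U
      fun g => g.2.1)).codRestrict T
      fun g => k _ g.2.2 g.1.2) fun _ _ e =>
    Subtype.ext (Subtype.ext (congrArg (fun u : U => u.1) (hφ (congrArg Subtype.val e))))

theorem WG.step (hW : WG W) {H : Type} [Poc H] [PocAct S H] (D : ℕ)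
    (acyl : ∀ (g : S) (v w : Pt H), v.Vx → w.Vx → (D : ℝ) ≤ dist v w → g • v = v → g • w = w →
      IsOfFinOrder g) (h : ∀ v : Pt H, v.Vx → PV W (stabilizer S v)) : PV W S := by
  intro L _ tf U hU φ hφ
  obtain ⟨_, hi⟩ := exists_ind (H := H) U φ
  have fx : ∀ g ∈ U.normalCore, ∀ q : L ⧸ U, g • q = q := fun g hg q => by
    rw [normalCore_eq_ker] at hg
    exact congrArg (· q) (show MulAction.toPermHom L (L ⧸ U) g = 1 from hg)
  refine hW.thm L (VF (Cp (L ⧸ U) H)) ?_ (poc_zt tf D fun g v w hv hw d a b => ?_).cdat ?_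
  · rintro K K' e k ⟨C, c, k', h⟩
    exact ⟨C, c.trans e, relIndex_ne_zero_trans k' k, h⟩
  · obtain ⟨k, k1, -, k2⟩ := exists_pow_mem_of_index_ne_zero
      (FiniteIndex.index_ne_zero (H := U.normalCore)) g
    obtain ⟨q, hq⟩ := exists_rs v w
    have e := fx _ k2 q
    have f := acyl _ (v.rs q) (w.rs q) (fun _ => hv _) (fun _ => hw _) (d.trans hq)
      (hi _ v q e (pow_mem (show g ∈ stabilizer L v from a) k))
      (hi _ w q e (pow_mem (show g ∈ stabilizer L w from b) k))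
    have f' := tf _ (U.subtype.isOfFinOrder (hφ.isOfFinOrder_iff.1 f))
    rw [coe_subtype, coc_fix U e, mul_assoc, inv_mul_eq_one, eq_comm, mul_eq_right] at f'
    exact tf g (isOfFinOrder_iff_pow_eq_one.2 ⟨k, k1, f'⟩)
  · rintro K ⟨C, -, k, ⟨a, ha⟩ | ⟨v, hv, ha⟩⟩
    · have : IsCyclic (C.subgroupOf K) := isCyclic_of_injective
        ((K.subtype.comp (C.subgroupOf K).subtype).codRestrict (zpowers a) fun x => ha x.2)
        fun x y e => Subtype.ext (Subtype.ext (congrArg (fun u : zpowers a => (u : L)) e))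
      exact hW.lin K (C.subgroupOf K) ⟨k⟩ ℤ 0 1 (fun x _ => mem_center_iff.2 fun y =>
        IsCyclic.commutative.is_comm.comm y x) (tf_sub tf K)
    · let q : L ⧸ U := ((1 : L) : L ⧸ U)
      let ψ : U.normalCore →* U := MonoidHom.mk' (fun g => coc U g.1 q) fun g g' => by
        rw [coe_mul, coc_mul, fx _ g'.2]
      refine (h (v.rs q) fun _ => hv _).app tf (U := U.normalCore) inferInstance k (φ := φ.comp ψ)
        (hφ.comp fun g g' e => ?_) fun g a _ => hi _ v q (fx _ g.2 q) (ha a)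
      have e' : (coc U g.1 q : L) = coc U g'.1 q := congrArg Subtype.val e
      rw [coc_fix U (fx _ g.2 q), coc_fix U (fx _ g'.2 q)] at e'
      exact Subtype.ext (by simpa using e')

theorem WG.pv (hW : WG W) (h : Cub S) : PV W S := by
  induction h with
  | lin G R n ρ h =>
    exact fun L _ tf U hU φ hφ => hW.lin L U hU R n (ρ.comp φ) (fun x hx => mem_center_iff.2
      fun y => hφ (by rw [map_mul φ y, map_mul φ x]; exact mem_center_iff.1 (h hx) _)) tf
  | fin G H hH _ ih =>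
    intro L _ tf U hU φ hφ
    refine hW.loc L fun T => ih.app tf hU (C := (H.comap φ).map U.subtype) ?_ hφ ?_
    · refine fun e => ?_
      have := index_eq_zero_of_relIndex_eq_zero e
      rw [index_map_subtype, index_comap, mul_eq_zero] at this
      exact this.elim (fun e => hH.1 (index_eq_zero_of_relIndex_eq_zero e)) hU.1
    · rintro g ⟨x, hx, e⟩ -
      rwa [← Subtype.ext (p := (· ∈ U)) e]
  | loc G _ ih =>
    intro L _ tf U hU φ hφ
    refine hW.loc L fun T => ?_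
    let K := closure (T : Set L)
    have : Group.FG K := (Group.fg_iff_subgroup_fg K).2 ⟨T, rfl⟩
    have : (U.subgroupOf K).FiniteIndex := inferInstance
    let ι : U.subgroupOf K →* U := K.subtype.subgroupComap U
    exact (ih (φ.comp ι).range ((Group.fg_iff_subgroup_fg _).1 inferInstance)).app tf hU (C := K)
      (by rw [relIndex_self]; exact one_ne_zero) hφ fun g _ a => ⟨⟨⟨g.1, a⟩, g.2⟩, rfl⟩
  | act G V Γ n D con med dim adj acyl _ ih =>
    obtain ⟨o⟩ := con.nonempty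
    let M : MG V := ⟨Γ, ⟨con, med⟩, n, fun ⟨f, f1, f2⟩ => dim (fun s => f (Fin.cons true s))
      (fun s i => by
        have := f2 (Fin.cons true s) i.succ
        rwa [Fin.cons_succ, ← Fin.cons_update] at this)
      (f1.comp fun _ _ e => (Fin.cons_injective2 e).2), o⟩
    obtain ⟨_, ha⟩ := M.exists_act (G := G) adj
    refine hW.step (H := M.HS) D (fun g v w hv hw d a b => ?_) fun v hv => ?_
    · obtain ⟨x, rfl⟩ := M.vx_surj hv
      obtain ⟨y, rfl⟩ := M.vx_surj hw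
      exact acyl g x y (by exact_mod_cast d.trans (M.dist_vx x y)) (M.vx_inj ((ha g x).symm.trans a))
        (M.vx_inj ((ha g y).symm.trans b))
    · obtain ⟨x, rfl⟩ := M.vx_surj hv
      have e : stabilizer G (M.vx x) = stabilizer G x := Subgroup.ext fun g => by
        rw [mem_stabilizer_iff, mem_stabilizer_iff, ha, M.vx_inj.eq_iff]
      exact e ▸ ih x

theorem WG.cub (hW : WG W) (h : Cub S) (tf : ∀ g : S, IsOfFinOrder g → g = 1) : W S :=
  hW.pv h S tf ⊤ inferInstance (Subgroup.subtype _) (subtype_injective _)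

end Pool.Agent.Work.MP_9d1ffa_al.Cu
end

-- merged part: Pool.Agent.Work.MP_9d1ffa_al.Cu.GJ
section
/-! The isotropy of induced geometric data. -/

namespace Pool.Agent.Work.MP_9d1ffa_al.Cu

open Subgroup Ga Pointwise

variable {L S : Type} [Group L] [Group S]

/-- a form of the lemma of Schreier -/
theorem schreier (N : Subgroup L) [N.Normal] [N.FiniteIndex] : ∃ M, 0 < M ∧ ∀ T : Set L, 1 ∈ T →
    T⁻¹ = T → N ⊓ closure T ≤ Subgroup.closure (T ^ M ∩ N) := by
  classical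
  have := Fintype.ofFinite (L ⧸ N)
  obtain ⟨k, hk⟩ : ∃ k, k = Fintype.card (L ⧸ N) := ⟨_, rfl⟩
  refine ⟨k + (k + 1), by omega, fun T h1 h2 => ?_⟩
  let π := QuotientGroup.mk' N
  have st : π '' (T ^ k) = π '' (T ^ (k + 1)) := by
    rw [Set.image_pow, Set.image_pow]
    exact Set.eq_of_subset_of_card_le (Set.pow_subset_pow_right ⟨1, h1, map_one π⟩ k.le_succ)
      (hk ▸ (Group.card_pow_eq_card_pow_card_univ _ _ (by omega)).le)
  have key : ∀ a ∈ T ^ k, ∀ b ∈ T ^ (k + 1), π a = π b → a⁻¹ * b ∈ closure (T ^ (k + (k + 1)) ∩ N) :=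
    fun a ha b hb e => subset_closure ⟨pow_add T k (k + 1) ▸ Set.mul_mem_mul (by
      rw [← h2, inv_pow]
      exact Set.inv_mem_inv.2 ha) hb, QuotientGroup.eq.1 e⟩
  have cov : ∀ h ∈ closure T, ∃ a ∈ T ^ k, a⁻¹ * h ∈ closure (T ^ (k + (k + 1)) ∩ N) := by
    have stp : ∀ t ∈ T, ∀ h, (∃ a ∈ T ^ k, a⁻¹ * h ∈ closure (T ^ (k + (k + 1)) ∩ N)) →
        ∃ a ∈ T ^ k, a⁻¹ * (t * h) ∈ closure (T ^ (k + (k + 1)) ∩ N) := fun t ht h ⟨a, ha, e⟩ => by
      have m : t * a ∈ T ^ (k + 1) := pow_succ' T k ▸ Set.mul_mem_mul ht ha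
      obtain ⟨b, hb, f⟩ := st.ge ⟨_, m, rfl⟩
      exact ⟨b, hb, by simpa [mul_assoc] using mul_mem (key b hb _ m f) e⟩
    intro h hh
    induction hh using closure_induction_left with
    | one => exact ⟨1, Set.one_mem_pow h1, by simp⟩
    | mul_left t ht h _ ih => exact stp t ht h ih
    | inv_mul_cancel t ht h _ ih => exact stp _ (h2 ▸ Set.inv_mem_inv.2 ht) h ih
  rintro h ⟨a, b⟩
  obtain ⟨c, hc, e⟩ := cov h b
  have f : c ∈ N := by
    simpa using (N.mul_mem_cancel_right a).1 ((closure_le N).2 Set.inter_subset_right e)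
  exact (Subgroup.mul_mem_cancel_left _ (inv_mem (Subgroup.subset_closure (Set.mem_inter
    (Set.pow_subset_pow_right h1 (Nat.le_add_right _ _) hc) f)))).1 e

variable {X Sm : Type} [MetricSpace X]

theorem mv_pow [MulAction L X] (iso : ∀ (g : L) (x y : X), dist (g • x) (g • y) = dist x y)
    {s : ℕ → X} {J r : ℕ} {b : ℝ} (i : ℕ) : ∀ g ∈ Mv L s J r b ^ i, ∃ τ : ℤ, |τ| ≤ (i * r : ℕ) ∧
      ∀ l l' : ℕ, i * r ≤ l → l + i * r ≤ J → (l' : ℤ) = l + τ → dist (g • s l) (s l') ≤ i * b := by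
  induction i with
  | zero =>
    rintro g rfl
    exact ⟨0, by simp, fun l l' _ _ e => by simp [show l' = l by omega]⟩
  | succ i ih =>
    rw [pow_succ']
    rintro _ ⟨t, ⟨τ, t1, t2⟩, g, hg, rfl⟩
    obtain ⟨σ, g1, g2⟩ := ih g hg
    rw [add_one_mul]
    have := abs_le.1 t1
    have := abs_le.1 g1
    refine ⟨σ + τ, abs_le.2 ⟨by omega, by omega⟩, fun l l' a c e => ?_⟩
    have k := g2 l (l + σ).toNat (by omega) (by omega) (by omega)
    rw [← iso t] at k
    push_cast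
    rw [mul_smul, add_one_mul]
    exact (dist_triangle _ _ _).trans (add_le_add k (t2 _ _ (by omega) (by omega) (by omega)))

theorem mv_inv [MulAction L X] (iso : ∀ (g : L) (x y : X), dist (g • x) (g • y) = dist x y)
    (s : ℕ → X) (J r : ℕ) (b : ℝ) : (Mv L s J r b)⁻¹ = Mv L s J r b := by
  have k : ∀ g ∈ Mv L s J r b, g⁻¹ ∈ Mv L s J r b := fun g ⟨τ, t1, t2⟩ =>
    ⟨-τ, by rwa [abs_neg], fun l l' a c e => by
      rw [← iso g, smul_inv_smul, dist_comm]
      exact t2 _ _ c a (by omega)⟩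
  exact Set.ext fun g => ⟨fun h => inv_inv g ▸ k _ h, k g⟩

variable (U : Subgroup L)

theorem core_fix {g : L} (hg : g ∈ U.normalCore) (q : L ⧸ U) : g • q = q := by
  rw [normalCore_eq_ker] at hg
  exact congrArg (· q) (show MulAction.toPermHom L (L ⧸ U) g = 1 from hg)

/-- the coordinates of the normal core -/
noncomputable def cocH (q : L ⧸ U) : U.normalCore →* U :=
  MonoidHom.mk' (fun g => coc U g.1 q) fun g g' => by rw [coe_mul, coc_mul, core_fix U g'.2]

theorem cocH_inj (q : L ⧸ U) : Function.Injective (cocH U q) := fun g g' e => by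
  have e' : (coc U g.1 q : L) = coc U g'.1 q := congrArg Subtype.val e
  rw [coc_fix U (core_fix U g.2 q), coc_fix U (core_fix U g'.2 q)] at e'
  exact Subtype.ext (by simpa using e')

variable {U} (φ : U →* S) (Good : Subgroup S → Prop)

/-- one coordinate is virtually good -/
def GI (K : Subgroup L) : Prop := ∃ C : Subgroup L, C.relIndex K ≠ 0 ∧ ∃ q H, Good H ∧
  ∀ g : U.normalCore, g.1 ∈ C → g.1 ∈ K → φ (cocH U q g) ∈ H

variable {Good} [Fintype (L ⧸ U)] [MulAction S X] [MulAction S Sm]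

theorem gd_ix {A : Geo S X Sm} (h : A.Gd Good) : (geoI φ A).Gd (GI φ Good) where
  mono _ _ e := fun ⟨C, k, q, H, a, b⟩ =>
    ⟨C, fun z => k (relIndex_eq_zero_of_le_right e z), q, H, a, fun g c d => b g c (e d)⟩
  fi K K' e k := fun ⟨C, k', q, H, a, b⟩ => ⟨C ⊓ K', relIndex_ne_zero_trans
    (by rwa [inf_relIndex_right]) k, q, H, a, fun g c _ => b g c.1 c.2⟩
  stab := h.stab.imp fun Q k => ⟨k.1, fun c x e => ⟨⊤, by simp, ((1 : L) : L ⧸ U), _,
    k.2 _ _ (e.trans_le (inf_le' _ _)), fun g _ a =>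
      (IX.smul_fix c (core_fix U g.2 _)).symm.trans (congrFun a _)⟩⟩
  line q Γ hΓ := by
    have : U.FiniteIndex := finiteIndex_of_finite_quotient
    obtain ⟨M, M0, hM⟩ := schreier U.normalCore
    obtain ⟨Q, J, a, b, k⟩ := h.line (M * (q + 1)) Γ hΓ
    have b' : q + 1 ≤ M * (q + 1) := Nat.le_mul_of_pos_left _ M0
    refine ⟨M * Q, J + 2 * (M * (q + 1)), a.trans (Nat.le_mul_of_pos_left _ M0), by omega,
      fun Y hY s v c v1 v2 d => ?_⟩
    obtain ⟨u, hu⟩ : ∃ u, u = M * (q + 1) * Y := ⟨_, rfl⟩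
    have e1 : (J + 2 * (M * (q + 1))) * Y = J * Y + 2 * u := by rw [hu]; ring
    have e2 : M * (q * Y + 1) ≤ u := by
      rw [hu, mul_assoc]
      exact Nat.mul_le_mul_left _ (by rw [add_one_mul]; omega)
    have e3 : 0 < J * Y + 2 * u := by
      have : 0 < J * Y := Nat.mul_pos (by omega) (by omega)
      omega
    rw [e1] at c d ⊢
    obtain ⟨p, hp⟩ := IX.ex (s 0) (s (J * Y + 2 * u))
    have e4 : (0 : ℝ) < (J * Y + 2 * u : ℕ) := by exact_mod_cast e3
    have g := k Y hY (fun l => s (u + l) p) v (A.sub (c p) (by omega)) v1 v2 fun i hi j hj => by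
      rw [A.geo (c p) e3 (by omega : u + i ≤ _) (by omega : u + j ≤ _), hp,
        d 0 (Nat.zero_le _) _ le_rfl, Nat.cast_zero, zero_sub, abs_neg, Nat.abs_cast,
        mul_div_cancel_left₀ _ e4.ne']
      push_cast
      rw [add_sub_add_left_eq_sub]
    refine ⟨⊤, by simp, p, _, g, fun x _ hx => ?_⟩
    have Q0 : (0 : ℝ) < Q := by exact_mod_cast (by omega : 0 < Q)
    have M1 : (0 : ℝ) < M := by exact_mod_cast M0
    have m := hM (Mv L s (J * Y + 2 * u) (q * Y + 1) (2 / (M * Q : ℕ)))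
      ⟨0, by positivity, fun l l' _ _ e => by
      rw [one_smul, show l' = l by omega, dist_self]
      positivity⟩ (mv_inv (geoI φ A).iso _ _ _ _) (mem_inf.2 ⟨x.2, hx⟩)
    suffices k : _ ≤ ((Subgroup.closure (Mv S (fun l => s (u + l) p) (J * Y)
        (M * (q + 1) * Y + 1) (2 / Q))).comap (φ.comp (cocH U p))).map U.normalCore.subtype by
      obtain ⟨y, y1, y2⟩ := k m
      exact Subtype.ext (p := (· ∈ U.normalCore)) y2 ▸ y1
    refine (closure_le _).2 fun y ⟨y1, y2⟩ => ⟨⟨y, y2⟩, Subgroup.subset_closure ?_, rfl⟩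
    obtain ⟨τ, t1, t2⟩ := mv_pow (geoI φ A).iso M y y1
    refine ⟨τ, t1.trans (by rw [← hu]; exact_mod_cast e2.trans u.le_succ), fun l l' a c e => ?_⟩
    have := (IX.le _ _ p).trans (t2 (u + l) (u + l') (by omega) (by omega) (by omega))
    rw [IX.smul_fix _ (core_fix U y2 p)] at this
    refine this.trans_eq ?_
    push_cast
    field_simp

/-- the induction step for geometric data -/
theorem WG.geo {W : (G : Type) → [Group G] → Prop} (hW : WG W) (A : Geo S X Sm)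
    {jn : X → X → ℝ → X} (hj : Gd.Bi jn) (hG : A.Gd Good) (h : ∀ H, Good H → PV W H) : PV W S := by
  intro L _ tf U hU φ hφ
  have := Fintype.ofFinite (L ⧸ U)
  have g := gd_ix φ hG
  refine hW.thm L _ g.fi (Geo.zt (Gd.hasZM _ (bi_ix hj)) g).cdat fun K ⟨C, k, q, H, a, b⟩ => ?_
  exact (h H a).app tf (U := U.normalCore) inferInstance k (φ := φ.comp (cocH U q))
    (hφ.comp (cocH_inj U q)) b

end Pool.Agent.Work.MP_9d1ffa_al.Cu
end

-- merged part: Pool.Agent.Work.MP_9d1ffa_al.Cu.FinK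
section
/-! The Whitehead groups of cubical hierarchies over linear groups vanish. -/

namespace Pool.Agent.Work.MP_9d1ffa_al.Cu

theorem wg_whK : WG WhK where
  loc := (WL.wb_whK (WL.thmA_of WL.A1.vanM)).loc
  thm G _ Good _ h k :=
    WL.thmA_of WL.A1.vanM G Good h G (MonoidHom.id G) fun L e => k L (L.map_id ▸ e)
  lin _ _ H hH _ _ _ ρ hρ tf := WL.whk_central WL.thmC H hH ρ hρ tf

end Pool.Agent.Work.MP_9d1ffa_al.Cu
end
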