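import Pool.Agent.Work.MP_9d1ffa_al.OldWhCube

/-! Special cases of the former hand-in `WhCube`: linear groups, free actions, linear stabilisers. -/

namespace Pool.Agent.Work.MP_9d1ffa_al.Cu

/-- the conclusion -/
def Wz (G : Type) [Group G] : Prop :=
  ∀ (j k : ℕ) (A : GL (Fin k) (MonoidAlgebra ℤ (G × Multiplicative (Fin j → ℤ)))),
    ∃ m : ℕ, Matrix.fromBlocks A.1 0 0 1 ∈ Submonoid.closure
      {B : Matrix (Fin k ⊕ Fin m) (Fin k ⊕ Fin m)
          (MonoidAlgebra ℤ (G × Multiplicative (Fin j → ℤ))) |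
        (∃ a b r, a ≠ b ∧ B = 1 + Matrix.single a b r) ∨
        ∃ (g : Fin k ⊕ Fin m → G × Multiplicative (Fin j → ℤ)) (ε : Fin k ⊕ Fin m → ℤˣ),
          B = Matrix.diagonal fun a => MonoidAlgebra.single (g a) (ε a : ℤ)}

/-- the former hand-in `WhLinear` -/
theorem cor_linear (G : Type) [Group G] (tf : ∀ g : G, IsOfFinOrder g → g = 1) (H : Subgroup G)
    (hH : H.FiniteIndex) (R : Type) [CommRing R] (n : ℕ) (ρ : H →* GL (Fin n) R)
    (hρ : ρ.ker ≤ Subgroup.center H) : Wz G :=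
  OldWhCube.result G tf (.fin G H hH (.lin H R n ρ hρ))

/-- free actions on the vertices of a median graph of finite dimension -/
theorem cor_free (G V : Type) [Group G] (tf : ∀ g : G, IsOfFinOrder g → g = 1) [MulAction G V]
    (Γ : SimpleGraph V) (n : ℕ) (con : Γ.Connected)
    (med : ∀ x y z, ∃! m, Γ.dist x m + Γ.dist m y = Γ.dist x y ∧
      Γ.dist y m + Γ.dist m z = Γ.dist y z ∧ Γ.dist x m + Γ.dist m z = Γ.dist x z)
    (dim : ∀ f : (Fin n → Bool) → V,
      (∀ s i, Γ.Adj (f s) (f (Function.update s i (!s i)))) → ¬ Function.Injective f)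
    (adj : ∀ (g : G) x y, Γ.Adj x y → Γ.Adj (g • x) (g • y))
    (free : ∀ (g : G) (x : V), g • x = x → g = 1) : Wz G :=
  OldWhCube.result G tf (.act G V Γ n 0 con med dim adj
    (fun g x _ _ e _ => free g x e ▸ IsOfFinOrder.one) fun x =>
      .lin _ ℤ 0 1 fun a _ => Subgroup.mem_center_iff.2 fun b => by
        rw [show a = 1 from Subtype.ext (free _ x a.2), mul_one, one_mul])

/-- the hypotheses hold for an edge -/
theorem cor_edge : (⊤ : SimpleGraph Bool).Connected ∧
    (∀ x y z : Bool, ∃! m, (⊤ : SimpleGraph Bool).dist x m + (⊤ : SimpleGraph Bool).dist m y =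
      (⊤ : SimpleGraph Bool).dist x y ∧ (⊤ : SimpleGraph Bool).dist y m +
      (⊤ : SimpleGraph Bool).dist m z = (⊤ : SimpleGraph Bool).dist y z ∧
      (⊤ : SimpleGraph Bool).dist x m + (⊤ : SimpleGraph Bool).dist m z =
      (⊤ : SimpleGraph Bool).dist x z) ∧ ∀ f : (Fin 2 → Bool) → Bool, ¬ Function.Injective f := by
  refine ⟨SimpleGraph.connected_top, fun x y z => ?_, fun f h => ?_⟩
  · simp only [SimpleGraph.dist_top, ExistsUnique]
    revert x y z
    decide
  · exact absurd (Fintype.card_le_of_injective f h) (by simp)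

end Pool.Agent.Work.MP_9d1ffa_al.Cu
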