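import Pool.Agent.Work.MP_9d1ffa_al.Cu.Hi
import Pool.Agent.Work.MP_9d1ffa_al.LL.AbH

/-! The Wall groups of the obstruction categories of cubical hierarchies over linear groups
vanish. -/

namespace Pool.Agent.Work.MP_9d1ffa_al.Cu

open Ct.LL

theorem wg_wa : WG WA where
  loc := wf_wa.loc
  thm G _ Good f h k := wf_wa.thm G Good f h G (MonoidHom.id G) fun L e => k L (L.map_id ▸ e)
  lin _ _ H hH _ _ _ ρ hρ tf := wa_central VN.gpz H hH ρ hρ tf

theorem van_cub (G : Type) [Group G] (tf : ∀ g : G, IsOfFinOrder g → g = 1) (h : Cub G) : Van G :=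
  Ct.van_iff.2 (wg_wa.cub h tf).vk

end Pool.Agent.Work.MP_9d1ffa_al.Cu
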